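import Mathlib

/-!
# The area formula with multiplicities
-/

set_option autoImplicit false

open Set Filter Topology MeasureTheory Metric Function
open scoped ContDiff ENNReal NNReal

noncomputable section

namespace Pool.Agent.H819.BC

section

variable {V : Type} [NormedAddCommGroup V] [NormedSpace ℝ V] [FiniteDimensional ℝ V]
  [MeasurableSpace V] [BorelSpace V]

/-- a countable measurable partition on whose pieces `g` is injective -/
theorem exists_partition {g : V → V} {g' : V → V →L[ℝ] V} {S : Set V} (hS : MeasurableSet S)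
    (hg : ∀ z ∈ S, HasFDerivAt g (g' z) z) (hdet : ∀ z ∈ S, (g' z).det ≠ 0) :
    ∃ D : ℕ → Set V, Pairwise (Disjoint on D) ∧ (∀ n, MeasurableSet (D n)) ∧
      (⋃ n, D n) = S ∧ ∀ n, InjOn g (D n) := by
  classical
  let r : (V →L[ℝ] V) → ℝ≥0 := fun A => if h : A.det ≠ 0 then
    (‖((A.toContinuousLinearEquivOfDetNeZero h).symm : V →L[ℝ] V)‖₊ + 1)⁻¹ else 1
  have rpos : ∀ A, r A ≠ 0 := by
    intro A
    show (if h : A.det ≠ 0 then
      (‖((A.toContinuousLinearEquivOfDetNeZero h).symm : V →L[ℝ] V)‖₊ + 1)⁻¹ else 1) ≠ (0 : ℝ≥0)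
    split_ifs
    · positivity
    · exact one_ne_zero
  obtain ⟨t, A, h1, h2, h3, h4, h5⟩ := exists_partition_approximatesLinearOn_of_hasFDerivWithinAt
    g S g' (fun z hz => (hg z hz).hasFDerivWithinAt) r rpos
  refine ⟨fun n => S ∩ t n, fun i j hij => ?_, fun n => hS.inter (h2 n), ?_, fun n => ?_⟩
  · exact (h1 hij).mono inter_subset_right inter_subset_right
  · rw [← inter_iUnion]
    exact inter_eq_left.2 h3
  · rcases S.eq_empty_or_nonempty with h0 | h0
    · show InjOn g (S ∩ t n)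
      rw [h0, empty_inter]
      exact injOn_empty _
    · obtain ⟨y, hy, hy'⟩ := h5 h0 n
      have hd : (A n).det ≠ 0 := by
        rw [hy']
        exact hdet y hy
      have h6 := h4 n
      have h7 : r (A n) = (‖(((A n).toContinuousLinearEquivOfDetNeZero hd).symm :
        V →L[ℝ] V)‖₊ + 1)⁻¹ := dif_pos hd
      rw [h7] at h6
      have h8 : ApproximatesLinearOn g (((A n).toContinuousLinearEquivOfDetNeZero hd :
          V ≃L[ℝ] V) : V →L[ℝ] V) (S ∩ t n)
          (‖(((A n).toContinuousLinearEquivOfDetNeZero hd).symm : V →L[ℝ] V)‖₊ + 1)⁻¹ := h6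
      refine h8.injOn ?_
      rcases subsingleton_or_nontrivial V with hV | hV
      · exact Or.inl hV
      · right
        have h9 := ((A n).toContinuousLinearEquivOfDetNeZero hd).nnnorm_symm_pos
        exact inv_strictAnti₀ h9 (lt_add_one _)

end

section

variable {α : Type} [MeasurableSpace α] {μ : Measure α}
  {F : Type} [NormedAddCommGroup F] [NormedSpace ℝ F]

theorem hasSum_int {u : ℕ → α → F} {G : α → F} (hu : ∀ n, Integrable (u n) μ)
    (hs : Summable fun n => ∫ p, ‖u n p‖ ∂μ) (hG : ∀ p, HasSum (fun n => u n p) (G p)) :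
    Integrable G μ ∧ HasSum (fun n => ∫ p, u n p ∂μ) (∫ p, G p ∂μ) := by
  have h1 : (fun p => ∑' n, u n p) = G := funext fun p => (hG p).tsum_eq
  have h2 := hasSum_integral_of_summable_integral_norm hu hs
  rw [h1] at h2
  refine ⟨⟨?_, ?_⟩, h2⟩
  · refine aestronglyMeasurable_of_tendsto_ae atTop
      (f := fun N : ℕ => fun p => ∑ n ∈ Finset.range N, u n p) (fun N => ?_)
      (Eventually.of_forall fun p => (hG p).tendsto_sum_nat)
    exact Finset.aestronglyMeasurable_fun_sum _ fun n _ => (hu n).1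
  · show ∫⁻ p, ‖G p‖ₑ ∂μ < ⊤
    have h3 : ∀ p, ‖G p‖ₑ ≤ ∑' n, ‖u n p‖ₑ := by
      intro p
      rw [← (hG p).tsum_eq]
      exact enorm_tsum_le_tsum_enorm
    refine (lintegral_mono h3).trans_lt ?_
    rw [lintegral_tsum fun n => (hu n).1.enorm]
    have h4 : ∀ n, ∫⁻ p, ‖u n p‖ₑ ∂μ = ENNReal.ofReal (∫ p, ‖u n p‖ ∂μ) := fun n =>
      (ofReal_integral_norm_eq_lintegral_enorm (hu n)).symm
    simp_rw [h4]
    rw [← ENNReal.ofReal_tsum_of_nonneg (fun n => integral_nonneg fun p => norm_nonneg _) hs]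
    exact ENNReal.ofReal_lt_top

end

section

variable {V : Type} [NormedAddCommGroup V] [NormedSpace ℝ V] [FiniteDimensional ℝ V]
  [MeasurableSpace V] [BorelSpace V] {μ : Measure V} [μ.IsAddHaarMeasure]
  {F : Type} [NormedAddCommGroup F] [NormedSpace ℝ F]

/-- the fibres of `g` in `W` -/
def fib (g : V → V) (W : Set V) (p : V) : Set V := {z | z ∈ W ∧ g z = p}

/-- **The area formula.** -/
theorem area_formula {g : V → V} {g' : V → V →L[ℝ] V} {W : Set V}
    (hg : ∀ z ∈ W, HasFDerivAt g (g' z) z) (hR : MeasurableSet {z | z ∈ W ∧ (g' z).det ≠ 0})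
    {h : V → F} (h0 : ∀ z ∈ W, (g' z).det = 0 → h z = 0)
    (hfin : ∀ p, (fib g W p).Finite)
    (hint : IntegrableOn (fun z => |(g' z).det| • h z) {z | z ∈ W ∧ (g' z).det ≠ 0} μ) :
    Integrable (fun p => ∑ᶠ z ∈ fib g W p, h z) μ ∧
      ∫ p, ∑ᶠ z ∈ fib g W p, h z ∂μ =
        ∫ z in {z | z ∈ W ∧ (g' z).det ≠ 0}, |(g' z).det| • h z ∂μ := by
  classical
  set R : Set V := {z | z ∈ W ∧ (g' z).det ≠ 0} with hRdef
  obtain ⟨D, hD1, hD2, hD3, hD4⟩ := exists_partition (g := g) (g' := g') hR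
    (fun z hz => hg z hz.1) (fun z hz => hz.2)
  have hDR : ∀ n, D n ⊆ R := fun n => by
    rw [← hD3]
    exact subset_iUnion D n
  set u : ℕ → V → F := fun n p => ∑ᶠ z ∈ fib g W p, (D n).indicator h z with hu
  have hu1 : ∀ n, ∀ z ∈ D n, u n (g z) = h z := by
    intro n z hz
    have e1 : u n (g z) = ∑ z' ∈ (hfin (g z)).toFinset, (D n).indicator h z' :=
      finsum_mem_eq_finite_toFinset_sum _ (hfin (g z))
    rw [e1, Finset.sum_eq_single z]
    · exact indicator_of_mem hz h
    · intro z' hz' hne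
      refine indicator_of_notMem (fun h1 => hne ?_) h
      rw [Finite.mem_toFinset] at hz'
      exact hD4 n h1 hz hz'.2
    · intro h1
      exfalso
      apply h1
      rw [Finite.mem_toFinset]
      exact ⟨(hDR n hz).1, rfl⟩
  have hu2 : ∀ n, ∀ p, p ∉ g '' D n → u n p = 0 := by
    intro n p hp
    have e1 : u n p = ∑ z' ∈ (hfin p).toFinset, (D n).indicator h z' :=
      finsum_mem_eq_finite_toFinset_sum _ (hfin p)
    rw [e1]
    refine Finset.sum_eq_zero fun z' hz' => ?_
    rw [Finite.mem_toFinset] at hz'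
    exact indicator_of_notMem (fun h1 => hp ⟨z', h1, hz'.2⟩) h
  have hgD : ∀ n, ∀ z ∈ D n, HasFDerivWithinAt g (g' z) (D n) z := fun n z hz =>
    (hg z (hDR n hz).1).hasFDerivWithinAt
  have hmeas : ∀ n, MeasurableSet (g '' D n) := fun n =>
    measurable_image_of_fderivWithin (hD2 n) (hgD n) (hD4 n)
  have hind : ∀ n, u n = (g '' D n).indicator (u n) := by
    intro n
    funext p
    by_cases hp : p ∈ g '' D n
    · rw [indicator_of_mem hp]
    · rw [indicator_of_notMem hp, hu2 n p hp]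
  have hui : ∀ n, Integrable (u n) μ := by
    intro n
    rw [hind n, integrable_indicator_iff (hmeas n),
      integrableOn_image_iff_integrableOn_abs_det_fderiv_smul μ (hD2 n) (hgD n) (hD4 n)]
    refine (hint.mono_set (hDR n)).congr_fun (fun z hz => ?_) (hD2 n)
    simp only [hu1 n z hz]
  have hum : ∀ n, ∫ p, u n p ∂μ = ∫ z in D n, |(g' z).det| • h z ∂μ := by
    intro n
    have e1 : ∫ p, u n p ∂μ = ∫ p in g '' D n, u n p ∂μ := by
      conv_lhs => rw [hind n]
      rw [integral_indicator (hmeas n)]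
    rw [e1, integral_image_eq_integral_abs_det_fderiv_smul μ (hD2 n) (hgD n) (hD4 n)]
    refine setIntegral_congr_fun (hD2 n) fun z hz => ?_
    simp only [hu1 n z hz]
  have hun : ∀ n, ∫ p, ‖u n p‖ ∂μ = ∫ z in D n, ‖|(g' z).det| • h z‖ ∂μ := by
    intro n
    have e1 : ∫ p, ‖u n p‖ ∂μ = ∫ p in g '' D n, ‖u n p‖ ∂μ := by
      have e2 : (fun p => ‖u n p‖) = (g '' D n).indicator (fun p => ‖u n p‖) := by
        funext p
        by_cases hp : p ∈ g '' D n
        · rw [indicator_of_mem hp]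
        · rw [indicator_of_notMem hp, hu2 n p hp, norm_zero]
      rw [e2, integral_indicator (hmeas n), ← e2]
    rw [e1, integral_image_eq_integral_abs_det_fderiv_smul μ (hD2 n) (hgD n) (hD4 n)]
    refine setIntegral_congr_fun (hD2 n) fun z hz => ?_
    simp only [hu1 n z hz, norm_smul, Real.norm_eq_abs, abs_abs, smul_eq_mul]
  have hintU : IntegrableOn (fun z => |(g' z).det| • h z) (⋃ n, D n) μ := by
    rw [hD3]
    exact hint
  have hs : Summable fun n => ∫ p, ‖u n p‖ ∂μ := by
    simp_rw [hun]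
    exact (hasSum_integral_iUnion hD2 hD1 hintU.norm).summable
  have hsum : ∀ p, HasSum (fun n => u n p) (∑ᶠ z ∈ fib g W p, h z) := by
    intro p
    have e1 : ∀ n, u n p = ∑ z' ∈ (hfin p).toFinset, (D n).indicator h z' := fun n =>
      finsum_mem_eq_finite_toFinset_sum _ (hfin p)
    have e2 : ∑ᶠ z ∈ fib g W p, h z = ∑ z' ∈ (hfin p).toFinset, h z' :=
      finsum_mem_eq_finite_toFinset_sum _ (hfin p)
    rw [e2]
    simp_rw [e1]
    refine hasSum_sum fun z hz => ?_
    rw [Finite.mem_toFinset] at hz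
    by_cases hd : (g' z).det = 0
    · have e3 : h z = 0 := h0 z hz.1 hd
      have e4 : ∀ n, (D n).indicator h z = 0 := by
        intro n
        refine indicator_of_notMem (fun h1 => (hDR n h1).2 hd) h
      rw [e3]
      simp_rw [e4]
      exact hasSum_zero
    · have e3 : z ∈ ⋃ n, D n := by
        rw [hD3]
        exact ⟨hz.1, hd⟩
      obtain ⟨n, hn⟩ := mem_iUnion.1 e3
      have e4 := hasSum_single (f := fun k => (D k).indicator h z) n (by
        intro k hk
        refine indicator_of_notMem (fun h1 => ?_) h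
        exact (disjoint_left.1 (hD1 hk) h1 hn))
      have e5 : (D n).indicator h z = h z := indicator_of_mem hn h
      simp only [e5] at e4
      exact e4
  obtain ⟨r1, r2⟩ := hasSum_int hui hs hsum
  refine ⟨r1, ?_⟩
  simp_rw [hum] at r2
  have r3 := hasSum_integral_iUnion hD2 hD1 hintU
  rw [hD3] at r3
  exact r2.unique r3

end

end Pool.Agent.H819.BC
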