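import Mathlib
import Pool.Agent.H819.LG.Inv

/-!
# An inequality of Caccioppoli type
-/

set_option autoImplicit false

open Set Filter Topology MeasureTheory Metric
open scoped ContDiff

noncomputable section

namespace Pool.Agent.H819.BC

open Pool.Agent.Y501.SY (E)
open Pool.Agent.Y431.SY (ev ev_apply)
open Pool.Agent.H819.LG (int_bilin two_add_right form2_le continuous_ev2 vol_ball)

variable {d : ℕ}

variable (d) in
/-- the basis vectors -/
def bb (k : Fin d) : E d := EuclideanSpace.basisFun (Fin d) ℝ k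

theorem norm_bb (k : Fin d) : ‖bb d k‖ = 1 := (EuclideanSpace.basisFun (Fin d) ℝ).norm_eq_one k

/-- the trace of `θ(·, A ·)` -/
def tr (θ : (E d) [⋀^Fin 2]→L[ℝ] ℝ) (A : E d →L[ℝ] E d) : ℝ := ∑ k, θ ![bb d k, A (bb d k)]

theorem tr_le (θ : (E d) [⋀^Fin 2]→L[ℝ] ℝ) (A : E d →L[ℝ] E d) : |tr θ A| ≤ d * (‖θ‖ * ‖A‖) := by
  unfold tr
  refine (Finset.abs_sum_le_sum_abs _ _).trans ?_
  calc ∑ k : Fin d, |θ ![bb d k, A (bb d k)]| ≤ ∑ _k : Fin d, ‖θ‖ * ‖A‖ := by
        refine Finset.sum_le_sum fun k _ => (form2_le θ _ _).trans ?_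
        have h1 := A.le_opNorm (bb d k)
        rw [norm_bb, mul_one] at h1
        rw [norm_bb, one_mul]
        gcongr
    _ = d * (‖θ‖ * ‖A‖) := by
        rw [Finset.sum_const, Finset.card_univ, Fintype.card_fin, nsmul_eq_mul]

theorem tr_sub (θ : (E d) [⋀^Fin 2]→L[ℝ] ℝ) (A B : E d →L[ℝ] E d) :
    tr θ A - tr θ B = tr θ (A - B) := by
  unfold tr
  rw [← Finset.sum_sub_distrib]
  refine Finset.sum_congr rfl fun k _ => ?_
  have h1 := two_add_right θ (bb d k) ((A - B) (bb d k)) (B (bb d k))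
  have h2 : (A - B) (bb d k) + B (bb d k) = A (bb d k) := by
    show A (bb d k) - B (bb d k) + B (bb d k) = A (bb d k)
    abel
  rw [h2] at h1
  rw [h1]
  ring

theorem intOn_tr {S : Set (E d)} (hS : MeasurableSet S) {θ : E d → (E d) [⋀^Fin 2]→L[ℝ] ℝ}
    {A : E d → (E d →L[ℝ] E d)} {M : ℝ} (hθ : IntegrableOn θ S) (hA : ContinuousOn A S)
    (hM : ∀ z ∈ S, ‖A z‖ ≤ M) : IntegrableOn (fun z => tr (θ z) (A z)) S := by
  have hm : AEStronglyMeasurable (fun z => tr (θ z) (A z)) (volume.restrict S) := by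
    unfold tr
    refine Finset.aestronglyMeasurable_fun_sum _ fun k _ => ?_
    have h1 : AEStronglyMeasurable (fun z => (![bb d k, A z (bb d k)] : Fin 2 → E d))
        (volume.restrict S) := by
      refine ContinuousOn.aestronglyMeasurable ?_ hS
      refine continuousOn_pi.2 fun i => ?_
      fin_cases i
      · exact continuousOn_const
      · exact hA.clm_apply continuousOn_const
    exact continuous_ev2.comp_aestronglyMeasurable (hθ.1.prodMk h1)
  refine Integrable.mono' (hθ.norm.const_mul (d * M)) hm ?_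
  refine (ae_restrict_iff' hS).2 (Eventually.of_forall fun z hz => ?_)
  refine (tr_le _ _).trans ?_
  have h1 := hM z hz
  calc (d : ℝ) * (‖θ z‖ * ‖A z‖) ≤ d * (‖θ z‖ * M) := by gcongr
    _ = d * M * ‖θ z‖ := by ring

variable (d) in
/-- a bump function with bounded gradient -/
theorem exists_bump : ∃ C : ℝ, 0 < C ∧ ∀ (z : E d) (r : ℝ), 0 < r → ∃ φ : E d → ℝ,
    ContDiff ℝ ∞ φ ∧ tsupport φ ⊆ closedBall z (2 * r) ∧ (∀ z' ∈ closedBall z r, φ z' = 1) ∧
    (∀ z', 0 ≤ φ z') ∧ (∀ z', φ z' ≤ 1) ∧ ∀ z' w, |fderiv ℝ φ z' w| ≤ C / r * ‖w‖ := by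
  let f : ContDiffBump (0 : E d) := ⟨1, 2, one_pos, one_lt_two⟩
  have hf : ContDiff ℝ ∞ (fun z => f z) := f.contDiff
  have hc : HasCompactSupport (fun z => f z) := f.hasCompactSupport
  obtain ⟨C, hC⟩ := (hc.fderiv (𝕜 := ℝ)).exists_bound_of_continuous
    (hf.continuous_fderiv (by simp))
  refine ⟨|C| + 1, by positivity, fun z r hr => ?_⟩
  have hr' : r⁻¹ ≠ 0 := (inv_pos.2 hr).ne'
  refine ⟨fun z' => f (r⁻¹ • (z' - z)), ?_, ?_, ?_, fun z' => f.nonneg, fun z' => f.le_one, ?_⟩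
  · have h1 : ContDiff ℝ ∞ (fun z' : E d => r⁻¹ • (z' - z)) := by fun_prop
    exact hf.comp h1
  · refine closure_minimal ?_ isClosed_closedBall
    intro z' hz'
    by_contra h
    apply hz'
    refine f.zero_of_le_dist ?_
    rw [mem_closedBall, not_le, dist_eq_norm] at h
    show (2 : ℝ) ≤ dist (r⁻¹ • (z' - z)) 0
    rw [dist_zero_right, norm_smul, norm_inv, Real.norm_eq_abs, abs_of_pos hr,
      inv_mul_eq_div, le_div_iff₀ hr]
    exact h.le
  · intro z' hz'
    refine f.one_of_mem_closedBall ?_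
    rw [mem_closedBall, dist_eq_norm] at hz'
    show dist (r⁻¹ • (z' - z)) 0 ≤ 1
    rw [dist_zero_right, norm_smul, norm_inv, Real.norm_eq_abs, abs_of_pos hr,
      inv_mul_eq_div, div_le_one hr]
    exact hz'
  · intro z' w
    have h0 : HasFDerivAt (fun z' : E d => z' - z) (ContinuousLinearMap.id ℝ (E d)) z' :=
      (hasFDerivAt_id z').sub_const z
    have h1 : HasFDerivAt (fun z' : E d => r⁻¹ • (z' - z))
        (r⁻¹ • ContinuousLinearMap.id ℝ (E d)) z' := h0.const_smul r⁻¹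
    have h2 := ((hf.differentiable (by simp) (r⁻¹ • (z' - z))).hasFDerivAt.comp z' h1).fderiv
    have h3 : fderiv ℝ (fun z' => f (r⁻¹ • (z' - z))) z' w =
        fderiv ℝ (fun z => f z) (r⁻¹ • (z' - z)) (r⁻¹ • w) := by
      have h4 : fderiv ℝ (fun z' => f (r⁻¹ • (z' - z))) z' =
        (fderiv ℝ (fun z => f z) (r⁻¹ • (z' - z))).comp (r⁻¹ • ContinuousLinearMap.id ℝ (E d)) := h2
      rw [h4]
      rfl
    rw [h3]
    have h5 := (fderiv ℝ (fun z => f z) (r⁻¹ • (z' - z))).le_opNorm (r⁻¹ • w)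
    rw [Real.norm_eq_abs] at h5
    refine h5.trans ?_
    rw [norm_smul, norm_inv, Real.norm_eq_abs, abs_of_pos hr]
    have h6 : ‖fderiv ℝ (fun z => f z) (r⁻¹ • (z' - z))‖ ≤ |C| + 1 :=
      (hC _).trans ((le_abs_self C).trans (by linarith))
    calc ‖fderiv ℝ (fun z => f z) (r⁻¹ • (z' - z))‖ * (r⁻¹ * ‖w‖) ≤
        (|C| + 1) * (r⁻¹ * ‖w‖) := by gcongr
      _ = (|C| + 1) / r * ‖w‖ := by ring

/-- the pointwise estimate of the boundary term -/
theorem term_le {x c X t s κ η : ℝ} (hη : 0 < η) (hX : x ^ 2 ≤ X * t) (hs : η * X = s * κ) :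
    2 * (|x| * c) ≤ s * κ * t + c ^ 2 / η := by
  have h1 : 2 * (|x| * c) ≤ η * |x| ^ 2 + c ^ 2 / η := by
    have h2 : 0 ≤ (η * |x| - c) ^ 2 := sq_nonneg _
    have h3 : η * (η * |x| ^ 2 + c ^ 2 / η - 2 * (|x| * c)) = (η * |x| - c) ^ 2 := by
      field_simp
      ring
    have h4 : 0 ≤ η * |x| ^ 2 + c ^ 2 / η - 2 * (|x| * c) := by
      by_contra h5
      push Not at h5
      have := mul_neg_of_pos_of_neg hη h5
      rw [h3] at this
      linarith
    linarith
  have h2 : η * |x| ^ 2 ≤ s * κ * t := by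
    rw [sq_abs]
    calc η * x ^ 2 ≤ η * (X * t) := by gcongr
      _ = s * κ * t := by rw [← mul_assoc, hs]
  linarith

/-- **One step.** -/
theorem cacc_step {Cb : ℝ} (hCb : 0 < Cb) {z : E d} {r : ℝ} (hr : 0 < r)
    {φ : E d → ℝ} (hφ : ContDiff ℝ ∞ φ) (hφt : tsupport φ ⊆ closedBall z (2 * r))
    (hφ1 : ∀ z' ∈ closedBall z r, φ z' = 1) (hφ0 : ∀ z', 0 ≤ φ z')
    (hdφ : ∀ z' w, |fderiv ℝ φ z' w| ≤ Cb / r * ‖w‖)
    {θ : E d → (E d) [⋀^Fin 2]→L[ℝ] ℝ} {α : E d → (E d) [⋀^Fin 1]→L[ℝ] ℝ}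
    {A : E d → (E d →L[ℝ] E d)} {M L C₃ δ κ : ℝ} (hM : 0 < M) (hL : 0 ≤ L) (hC₃ : 0 < C₃)
    (hδ : 0 < δ) (hκ : 0 < κ) (hd : 0 < d)
    (hθ : IntegrableOn θ (closedBall z (2 * r))) (hα : IntegrableOn α (closedBall z (2 * r)))
    (hA : ContinuousOn A (closedBall z (2 * r))) (hAM : ∀ z' ∈ closedBall z (2 * r), ‖A z'‖ ≤ M)
    (hAL : ∀ z' ∈ closedBall z (2 * r), ‖A z' - A z‖ ≤ L * ‖z' - z‖)
    (hrL : 4 * d * C₃ * L * r ≤ 1)
    (h1 : ∀ᵐ z' ∂(volume.restrict (closedBall z (2 * r))), ∀ v, 0 ≤ θ z' ![v, A z' v])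
    (h2 : ∀ᵐ z' ∂(volume.restrict (closedBall z (2 * r))), ‖θ z'‖ ≤ C₃ * tr (θ z') (A z'))
    (h3 : ∀ᵐ z' ∂(volume.restrict (closedBall z (2 * r))), ∀ v,
      α z' ![v] ^ 2 ≤ δ ^ 2 * θ z' ![v, A z' v])
    (hw : ∀ u v : E d, ∫ z', (α z' ![v] * fderiv ℝ φ z' u - α z' ![u] * fderiv ℝ φ z' v) =
      - ∫ z', θ z' ![u, v] * φ z') :
    ∫ z' in closedBall z r, tr (θ z') (A z') ≤
      κ * (∫ z' in closedBall z (2 * r), tr (θ z') (A z')) +
      4 * d ^ 2 * Cb ^ 2 * M ^ 3 * C₃ * δ ^ 2 / (κ * r ^ 2) *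
        (volume (closedBall z (2 * r))).toReal := by
  set S := closedBall z (2 * r) with hS
  have hSm : MeasurableSet S := measurableSet_closedBall
  have hSc : IsCompact S := isCompact_closedBall _ _
  have hzS : z ∈ S := mem_closedBall_self (by positivity)
  have hd' : (0 : ℝ) < d := by exact_mod_cast hd
  have hφS : ∀ z', z' ∉ S → φ z' = 0 := fun z' hz' =>
    image_eq_zero_of_notMem_tsupport fun h => hz' (hφt h)
  have hdφc : ∀ w, Continuous (fun z => fderiv ℝ φ z w) := fun w =>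
    (hφ.continuous_fderiv (by simp)).clm_apply continuous_const
  have hdφS : ∀ w z', z' ∉ S → fderiv ℝ φ z' w = 0 := by
    intro w z' hz'
    have h1 : φ =ᶠ[𝓝 z'] fun _ => 0 := by
      filter_upwards [isClosed_closedBall.isOpen_compl.mem_nhds hz'] with x hx
      exact hφS x hx
    rw [h1.fderiv_eq]
    simp
  have hti : IntegrableOn (fun z' => tr (θ z') (A z')) S := intOn_tr hSm hθ hA hAM
  -- the integrals of the terms
  have ii1 : ∀ v w : E d, IntegrableOn (fun z' => α z' ![v] * fderiv ℝ φ z' w) S := by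
    intro v w
    have h1 : IntegrableOn (fun z' => α z' ![v]) S := (ev (![v] : Fin 1 → E d)).integrable_comp hα
    exact h1.mul_continuousOn (hdφc w).continuousOn hSc
  have ii2 : ∀ u v : E d, IntegrableOn (fun z' => θ z' ![u, v] * φ z') S := by
    intro u v
    have h1 : IntegrableOn (fun z' => θ z' ![u, v]) S :=
      (ev (![u, v] : Fin 2 → E d)).integrable_comp hθ
    exact h1.mul_continuousOn hφ.continuous.continuousOn hSc
  have hwS : ∀ u v : E d, ∫ z' in S, (α z' ![v] * fderiv ℝ φ z' u - α z' ![u] * fderiv ℝ φ z' v) =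
      - ∫ z' in S, θ z' ![u, v] * φ z' := by
    intro u v
    rw [setIntegral_eq_integral_of_forall_compl_eq_zero,
      setIntegral_eq_integral_of_forall_compl_eq_zero, hw u v]
    · intro z' hz'
      rw [hφS z' hz', mul_zero]
    · intro z' hz'
      rw [hdφS u z' hz', hdφS v z' hz']
      ring
  -- the boundary term
  set G : E d → ℝ := fun z' => ∑ k, (α z' ![A z (bb d k)] * fderiv ℝ φ z' (bb d k) -
    α z' ![bb d k] * fderiv ℝ φ z' (A z (bb d k))) with hG
  have ii3 : ∀ k, IntegrableOn (fun z' => α z' ![A z (bb d k)] * fderiv ℝ φ z' (bb d k) -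
    α z' ![bb d k] * fderiv ℝ φ z' (A z (bb d k))) S := fun k => (ii1 _ _).sub (ii1 _ _)
  have hGi : IntegrableOn G S := integrable_finsetSum _ fun k _ => ii3 k
  have hT : ∫ z' in S, tr (θ z') (A z) * φ z' = - ∫ z' in S, G z' := by
    have e1 : ∀ z', tr (θ z') (A z) * φ z' = ∑ k, θ z' ![bb d k, A z (bb d k)] * φ z' := by
      intro z'
      unfold tr
      rw [Finset.sum_mul]
    simp_rw [e1]
    rw [integral_finsetSum _ fun k _ => ii2 _ _, integral_finsetSum _ fun k _ =>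
      ii3 k, ← Finset.sum_neg_distrib]
    refine Finset.sum_congr rfl fun k _ => ?_
    rw [hwS, neg_neg]
  set K : ℝ := 4 * d ^ 2 * Cb ^ 2 * M ^ 3 * C₃ * δ ^ 2 / (κ * r ^ 2) with hK
  have hGb : ∀ᵐ z' ∂(volume.restrict S), -2 * G z' ≤ κ * tr (θ z') (A z') + K := by
    filter_upwards [h1, h2, h3, ae_restrict_mem hSm] with z' g1 g2 g3 hz'
    set t := tr (θ z') (A z') with ht
    have ht0 : 0 ≤ t := Finset.sum_nonneg fun k _ => g1 _
    have hα' : ∀ v : E d, α z' ![v] ^ 2 ≤ δ ^ 2 * M * C₃ * ‖v‖ ^ 2 * t := by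
      intro v
      refine (g3 v).trans ?_
      have e1 : θ z' ![v, A z' v] ≤ ‖θ z'‖ * (‖v‖ * ‖A z' v‖) :=
        (le_abs_self _).trans (form2_le _ _ _)
      have e2 : ‖A z' v‖ ≤ M * ‖v‖ :=
        ((A z').le_opNorm v).trans (by have := hAM z' hz'; gcongr)
      calc δ ^ 2 * θ z' ![v, A z' v] ≤ δ ^ 2 * ((C₃ * t) * (‖v‖ * (M * ‖v‖))) := by
            gcongr
            exact e1.trans (by gcongr)
        _ = δ ^ 2 * M * C₃ * ‖v‖ ^ 2 * t := by ring
    have hAz : ‖A z‖ ≤ M := hAM z hzS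
    have hterm : ∀ k, -2 * (α z' ![A z (bb d k)] * fderiv ℝ φ z' (bb d k) -
        α z' ![bb d k] * fderiv ℝ φ z' (A z (bb d k))) ≤ κ / d * t + K / d := by
      intro k
      have n1 : ‖A z (bb d k)‖ ≤ M := by
        have := (A z).le_opNorm (bb d k)
        rw [norm_bb, mul_one] at this
        exact this.trans hAz
      have f1 : |fderiv ℝ φ z' (bb d k)| ≤ Cb / r := by
        have := hdφ z' (bb d k)
        rwa [norm_bb, mul_one] at this
      have f2 : |fderiv ℝ φ z' (A z (bb d k))| ≤ Cb / r * M :=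
        (hdφ z' _).trans (by gcongr)
      have x1 : α z' ![A z (bb d k)] ^ 2 ≤ (δ ^ 2 * M ^ 3 * C₃) * t := by
        refine (hα' _).trans ?_
        calc δ ^ 2 * M * C₃ * ‖A z (bb d k)‖ ^ 2 * t ≤ δ ^ 2 * M * C₃ * M ^ 2 * t := by gcongr
          _ = (δ ^ 2 * M ^ 3 * C₃) * t := by ring
      have x2 : α z' ![bb d k] ^ 2 ≤ (δ ^ 2 * M * C₃) * t := by
        refine (hα' _).trans (le_of_eq ?_)
        rw [norm_bb]
        ring
      have y1 := term_le (c := Cb / r) (s := 1 / (2 * d)) (κ := κ)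
        (η := κ / (2 * d * (δ ^ 2 * M ^ 3 * C₃))) (by positivity) x1 (by field_simp)
      have y2 := term_le (c := Cb / r * M) (s := 1 / (2 * d)) (κ := κ)
        (η := κ / (2 * d * (δ ^ 2 * M * C₃))) (by positivity) x2 (by field_simp)
      have z1 : -(α z' ![A z (bb d k)] * fderiv ℝ φ z' (bb d k)) ≤
          |α z' ![A z (bb d k)]| * (Cb / r) := by
        refine (neg_le_abs _).trans ?_
        rw [abs_mul]
        gcongr
      have z2 : α z' ![bb d k] * fderiv ℝ φ z' (A z (bb d k)) ≤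
          |α z' ![bb d k]| * (Cb / r * M) := by
        refine (le_abs_self _).trans ?_
        rw [abs_mul]
        gcongr
      have e1 : (Cb / r) ^ 2 / (κ / (2 * d * (δ ^ 2 * M ^ 3 * C₃))) +
          (Cb / r * M) ^ 2 / (κ / (2 * d * (δ ^ 2 * M * C₃))) = K / d := by
        rw [hK]
        field_simp
        ring
      have e2 : 1 / (2 * (d : ℝ)) * κ * t + 1 / (2 * (d : ℝ)) * κ * t = κ / d * t := by
        field_simp
        ring
      linarith
    have hsum := Finset.sum_le_sum fun k (_ : k ∈ Finset.univ) => hterm k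
    rw [← Finset.mul_sum, Finset.sum_const, Finset.card_univ, Fintype.card_fin,
      nsmul_eq_mul] at hsum
    calc -2 * G z' ≤ d * (κ / d * t + K / d) := hsum
      _ = κ * t + K := by field_simp
  -- the pointwise comparison
  have hcomp : ∀ᵐ z' ∂(volume.restrict S), tr (θ z') (A z') * φ z' ≤
      2 * (tr (θ z') (A z) * φ z') := by
    filter_upwards [h1, h2, ae_restrict_mem hSm] with z' g1 g2 hz'
    have ht0 : 0 ≤ tr (θ z') (A z') := Finset.sum_nonneg fun k _ => g1 _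
    have e1 : tr (θ z') (A z') - tr (θ z') (A z) ≤ tr (θ z') (A z') / 2 := by
      rw [tr_sub]
      refine (le_abs_self _).trans ((tr_le _ _).trans ?_)
      have e2 : ‖A z' - A z‖ ≤ L * (2 * r) := by
        refine (hAL z' hz').trans ?_
        rw [hS, mem_closedBall, dist_eq_norm] at hz'
        gcongr
      calc (d : ℝ) * (‖θ z'‖ * ‖A z' - A z‖) ≤
            d * ((C₃ * tr (θ z') (A z')) * (L * (2 * r))) := by gcongr
        _ = (4 * d * C₃ * L * r) * (tr (θ z') (A z') / 2) := by ring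
        _ ≤ 1 * (tr (θ z') (A z') / 2) := by gcongr
        _ = tr (θ z') (A z') / 2 := one_mul _
    have e3 : tr (θ z') (A z') ≤ 2 * tr (θ z') (A z) := by linarith
    calc tr (θ z') (A z') * φ z' ≤ (2 * tr (θ z') (A z)) * φ z' := by
          gcongr
          exact hφ0 z'
      _ = 2 * (tr (θ z') (A z) * φ z') := by ring
  have hball : closedBall z r ⊆ S := closedBall_subset_closedBall (by linarith)
  have hi1 : IntegrableOn (fun z' => tr (θ z') (A z') * φ z') S :=
    hti.mul_continuousOn hφ.continuous.continuousOn hSc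
  have hi2 : IntegrableOn (fun z' => tr (θ z') (A z) * φ z') S :=
    (intOn_tr hSm hθ continuousOn_const fun _ _ => hAM z hzS).mul_continuousOn
      hφ.continuous.continuousOn hSc
  have hpos : ∀ᵐ z' ∂(volume.restrict S), 0 ≤ tr (θ z') (A z') * φ z' := by
    filter_upwards [h1] with z' g1
    exact mul_nonneg (Finset.sum_nonneg fun k _ => g1 _) (hφ0 z')
  calc ∫ z' in closedBall z r, tr (θ z') (A z')
      = ∫ z' in closedBall z r, tr (θ z') (A z') * φ z' := by
        refine setIntegral_congr_fun measurableSet_closedBall fun z' hz' => ?_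
        show tr (θ z') (A z') = tr (θ z') (A z') * φ z'
        rw [hφ1 z' hz', mul_one]
    _ ≤ ∫ z' in S, tr (θ z') (A z') * φ z' :=
        setIntegral_mono_set hi1 hpos (HasSubset.Subset.eventuallyLE hball)
    _ ≤ ∫ z' in S, 2 * (tr (θ z') (A z) * φ z') := integral_mono_ae hi1 (hi2.const_mul 2) hcomp
    _ = ∫ z' in S, -2 * G z' := by
        rw [integral_const_mul, hT, integral_const_mul]
        ring
    _ ≤ ∫ z' in S, (κ * tr (θ z') (A z') + K) :=
        integral_mono_ae (hGi.const_mul (-2)) ((hti.const_mul κ).add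
          (integrableOn_const hSc.measure_lt_top.ne)) hGb
    _ = κ * (∫ z' in S, tr (θ z') (A z')) + K * (volume S).toReal := by
        rw [integral_add (hti.const_mul κ) (integrableOn_const hSc.measure_lt_top.ne),
          integral_const_mul, setIntegral_const, smul_eq_mul, mul_comm K]
        rfl

end Pool.Agent.H819.BC
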