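import Mathlib

/-!
# Determinants: complex linear maps, minors, the Piola identity
-/

set_option autoImplicit false

open Set Filter Topology MeasureTheory Metric Function
open scoped ContDiff

noncomputable section

namespace Pool.Agent.H819.BC

section complex

variable {V : Type} [NormedAddCommGroup V] [NormedSpace ℝ V]

/-- the determinant of a complex linear endomorphism is not negative -/
theorem det_nonneg_of_commute (A N : V →L[ℝ] V) (hA : ∀ v, A (A v) = -v)
    (h : ∀ v, N (A v) = A (N v)) : 0 ≤ N.det := by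
  have hA' : (A : V →ₗ[ℝ] V) * (A : V →ₗ[ℝ] V) = -1 := by
    ext v
    exact hA v
  let φ : ℂ →ₐ[ℝ] Module.End ℝ V := Complex.lift ⟨(A : V →ₗ[ℝ] V), hA'⟩
  let _ : Module ℂ V := Module.compHom V φ.toRingHom
  have hs : ∀ (z : ℂ) (v : V), z • v = φ z v := fun z v => rfl
  have hφ : ∀ z : ℂ, φ z = z.re • (1 : Module.End ℝ V) + z.im • (A : V →ₗ[ℝ] V) := by
    intro z
    have := Complex.liftAux_apply (A : V →ₗ[ℝ] V) hA' z
    rw [Algebra.algebraMap_eq_smul_one] at this
    exact this
  have : IsScalarTower ℝ ℂ V := by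
    refine ⟨fun r z v => ?_⟩
    rw [hs, hs, map_smul]
    rfl
  let f : V →ₗ[ℂ] V :=
    { toFun := N
      map_add' := N.map_add
      map_smul' := by
        intro z v
        show N (z • v) = z • N v
        rw [hs, hs, hφ]
        simp [h] }
  have h1 : (f.restrictScalars ℝ : V →ₗ[ℝ] V) = (N : V →ₗ[ℝ] V) := rfl
  have h2 := LinearMap.det_restrictScalars (R := ℝ) (f := f)
  rw [h1, Algebra.norm_complex_apply] at h2
  show 0 ≤ LinearMap.det (N : V →ₗ[ℝ] V)
  rw [h2]
  exact Complex.normSq_nonneg _

theorem det_comp (A B : V →L[ℝ] V) : (A.comp B).det = A.det * B.det := by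
  simp only [ContinuousLinearMap.det]
  exact LinearMap.det_comp _ _

/-- the determinants of the complex linear maps between two complex structures have the same
sign -/
theorem exists_sign [FiniteDimensional ℝ V] (A B : V →L[ℝ] V) (hA : ∀ v, A (A v) = -v) :
    ∃ s : ℝ, (s = 1 ∨ s = -1) ∧ ∀ M : V →L[ℝ] V, (∀ v, B (M v) = M (A v)) → 0 ≤ s * M.det := by
  by_cases h : ∃ M₁ : V ≃L[ℝ] V, ∀ v, B (M₁ v) = M₁ (A v)
  · obtain ⟨M₁, h1⟩ := h
    have key : ∀ M : V →L[ℝ] V, (∀ v, B (M v) = M (A v)) →
        0 ≤ (M₁ : V →L[ℝ] V).det * M.det := by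
      intro M hM
      set N : V →L[ℝ] V := (M₁.symm : V →L[ℝ] V).comp M with hN
      have h2 : 0 ≤ N.det := by
        refine det_nonneg_of_commute A N hA fun v => ?_
        show M₁.symm (M (A v)) = A (M₁.symm (M v))
        rw [← hM v]
        apply M₁.injective
        rw [← h1, M₁.apply_symm_apply, M₁.apply_symm_apply]
      have h3 : M = (M₁ : V →L[ℝ] V).comp N := by
        ext v
        simp [hN]
      have h4 : M.det = (M₁ : V →L[ℝ] V).det * N.det := by
        conv_lhs => rw [h3]
        exact det_comp _ _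
      rw [h4]
      have := mul_self_nonneg (M₁ : V →L[ℝ] V).det
      nlinarith [mul_nonneg this h2]
    rcases le_total 0 (M₁ : V →L[ℝ] V).det with h5 | h5
    · have h6 : (M₁ : V →L[ℝ] V).det ≠ 0 := (LinearEquiv.isUnit_det' M₁.toLinearEquiv).ne_zero
      refine ⟨1, Or.inl rfl, fun M hM => ?_⟩
      rw [one_mul]
      exact nonneg_of_mul_nonneg_right (key M hM) (lt_of_le_of_ne h5 h6.symm)
    · have h6 : (M₁ : V →L[ℝ] V).det ≠ 0 := (LinearEquiv.isUnit_det' M₁.toLinearEquiv).ne_zero
      refine ⟨-1, Or.inr rfl, fun M hM => ?_⟩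
      have h7 : (M₁ : V →L[ℝ] V).det < 0 := lt_of_le_of_ne h5 h6
      have h8 := key M hM
      by_contra h9
      push Not at h9
      nlinarith [mul_pos_of_neg_of_neg h7 (by linarith : -M.det < 0)]
  · refine ⟨1, Or.inl rfl, fun M hM => ?_⟩
    rw [one_mul]
    by_contra h1
    push Not at h1
    apply h
    have h2 : M.det ≠ 0 := h1.ne
    refine ⟨M.toContinuousLinearEquivOfDetNeZero h2, fun v => ?_⟩
    exact hM v

/-- the sign of the determinant of pseudoholomorphic maps is locally constant, across the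
critical points -/
theorem sign_local [FiniteDimensional ℝ V] {A B L : V → V →L[ℝ] V} {z₀ : V}
    (hAc : ContinuousAt A z₀) (hBc : ContinuousAt B z₀)
    (hA : ∀ᶠ z in 𝓝 z₀, ∀ v, A z (A z v) = -v) (hB : ∀ᶠ z in 𝓝 z₀, ∀ v, B z (B z v) = -v)
    (h : ∀ᶠ z in 𝓝 z₀, ∀ v, B z (L z v) = L z (A z v)) :
    ∃ s : ℝ, (s = 1 ∨ s = -1) ∧ ∀ᶠ z in 𝓝 z₀, 0 ≤ s * (L z).det := by
  obtain ⟨s, hs, hs'⟩ := exists_sign (A z₀) (B z₀) hA.self_of_nhds
  refine ⟨s, hs, ?_⟩
  set S : V → V →L[ℝ] V := fun z => (1 / 2 : ℝ) •
    (ContinuousLinearMap.id ℝ V - (A z).comp (A z₀)) with hS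
  set T : V → V →L[ℝ] V := fun z => (1 / 2 : ℝ) •
    (ContinuousLinearMap.id ℝ V - (B z₀).comp (B z)) with hT
  have hAc' : ContinuousAt (fun z => (A z).comp (A z₀)) z₀ := hAc.clm_comp continuousAt_const
  have hBc' : ContinuousAt (fun z => (B z₀).comp (B z)) z₀ := continuousAt_const.clm_comp hBc
  have hSc : ContinuousAt S z₀ := by
    have h1 : ContinuousAt (fun z => ContinuousLinearMap.id ℝ V - (A z).comp (A z₀)) z₀ :=
      continuousAt_const.sub hAc'
    exact h1.const_smul (1 / 2 : ℝ)
  have hTc : ContinuousAt T z₀ := by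
    have h1 : ContinuousAt (fun z => ContinuousLinearMap.id ℝ V - (B z₀).comp (B z)) z₀ :=
      continuousAt_const.sub hBc'
    exact h1.const_smul (1 / 2 : ℝ)
  have hS0 : S z₀ = ContinuousLinearMap.id ℝ V := by
    ext v
    simp only [hS, ContinuousLinearMap.smul_apply, ContinuousLinearMap.sub_apply,
      ContinuousLinearMap.comp_apply, ContinuousLinearMap.id_apply, hA.self_of_nhds v]
    rw [sub_neg_eq_add, ← two_smul ℝ v, smul_smul]
    norm_num
  have hT0 : T z₀ = ContinuousLinearMap.id ℝ V := by
    ext v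
    simp only [hT, ContinuousLinearMap.smul_apply, ContinuousLinearMap.sub_apply,
      ContinuousLinearMap.comp_apply, ContinuousLinearMap.id_apply, hB.self_of_nhds v]
    rw [sub_neg_eq_add, ← two_smul ℝ v, smul_smul]
    norm_num
  have hid : (ContinuousLinearMap.id ℝ V).det = 1 := by
    simp only [ContinuousLinearMap.det, ContinuousLinearMap.coe_id]
    exact LinearMap.det_id
  have hdS : ∀ᶠ z in 𝓝 z₀, 0 < (S z).det := by
    have h1 : ContinuousAt (fun z => (S z).det) z₀ :=
      ContinuousLinearMap.continuous_det.continuousAt.comp hSc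
    have h2 : 0 < (S z₀).det := by rw [hS0, hid]; exact one_pos
    exact h1.eventually (lt_mem_nhds h2)
  have hdT : ∀ᶠ z in 𝓝 z₀, 0 < (T z).det := by
    have h1 : ContinuousAt (fun z => (T z).det) z₀ :=
      ContinuousLinearMap.continuous_det.continuousAt.comp hTc
    have h2 : 0 < (T z₀).det := by rw [hT0, hid]; exact one_pos
    exact h1.eventually (lt_mem_nhds h2)
  have hA0 := hA.self_of_nhds
  have hB0 := hB.self_of_nhds
  filter_upwards [hA, hB, h, hdS, hdT] with z h1 h2 h3 h4 h5
  have hM := hs' ((T z).comp ((L z).comp (S z))) (by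
    intro v
    have e1 : ∀ v, S z (A z₀ v) = A z (S z v) := by
      intro v
      simp only [hS, ContinuousLinearMap.smul_apply, ContinuousLinearMap.sub_apply,
        ContinuousLinearMap.comp_apply, ContinuousLinearMap.id_apply, hA0, map_smul, map_sub,
        map_neg, h1]
      rw [sub_neg_eq_add, sub_neg_eq_add, add_comm]
    have e2 : ∀ v, B z₀ (T z v) = T z (B z v) := by
      intro v
      simp only [hT, ContinuousLinearMap.smul_apply, ContinuousLinearMap.sub_apply,
        ContinuousLinearMap.comp_apply, ContinuousLinearMap.id_apply, hB0, map_smul, map_sub,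
        map_neg, h2]
      rw [sub_neg_eq_add, sub_neg_eq_add, add_comm]
    show B z₀ (T z (L z (S z v))) = T z (L z (S z (A z₀ v)))
    rw [e2, h3, e1])
  rw [det_comp, det_comp] at hM
  have h6 : s * ((T z).det * ((L z).det * (S z).det)) =
      (s * (L z).det) * ((T z).det * (S z).det) := by ring
  rw [h6] at hM
  exact nonneg_of_mul_nonneg_left hM (mul_pos h5 h4)

end complex

section minors

variable {d : ℕ}

/-- the standard basis -/
def bs (d : ℕ) : Module.Basis (Fin d) ℝ (EuclideanSpace ℝ (Fin d)) :=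
  (EuclideanSpace.basisFun (Fin d) ℝ).toBasis

/-- the standard volume form -/
def vol (d : ℕ) : (EuclideanSpace ℝ (Fin d)) [⋀^Fin d]→ₗ[ℝ] ℝ := (bs d).det

theorem bs_repr (a : EuclideanSpace ℝ (Fin d)) (i : Fin d) : (bs d).repr a i = a i := rfl

theorem vol_comp (A : EuclideanSpace ℝ (Fin d) →L[ℝ] EuclideanSpace ℝ (Fin d))
    (v : Fin d → EuclideanSpace ℝ (Fin d)) : vol d (fun i => A (v i)) = A.det * vol d v :=
  Module.Basis.det_comp (bs d) (A : EuclideanSpace ℝ (Fin d) →ₗ[ℝ] EuclideanSpace ℝ (Fin d)) v

theorem vol_bs : vol d (bs d) = 1 := (bs d).det_self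

theorem vol_update (i : Fin d) (a : EuclideanSpace ℝ (Fin d)) :
    vol d (update (bs d) i a) = a i := by
  have h : a = ∑ k, (a k) • bs d k := ((bs d).sum_repr a).symm
  conv_lhs => rw [h, (vol d).map_update_sum]
  rw [Finset.sum_eq_single i]
  · rw [(vol d).map_update_smul, update_eq_self, vol_bs, smul_eq_mul, mul_one]
  · intro k _ hk
    rw [(vol d).map_update_smul]
    have : vol d (update (bs d) i (bs d k)) = 0 :=
      (vol d).map_eq_zero_of_eq _ (i := i) (j := k) (by
        rw [update_self, update_of_ne hk]) hk.symm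
    rw [this, smul_zero]
  · intro h
    exact absurd (Finset.mem_univ i) h

theorem vol_update2 {i j : Fin d} (hij : i ≠ j) (a b : EuclideanSpace ℝ (Fin d)) :
    vol d (update (update (bs d) i a) j b) = a i * b j - a j * b i := by
  have h : a = ∑ k, (a k) • bs d k := ((bs d).sum_repr a).symm
  rw [update_comm hij]
  conv_lhs => rw [h, (vol d).map_update_sum]
  have e1 : ∀ k, vol d (update (update (bs d) j b) i ((a k) • bs d k)) =
      a k * vol d (update (update (bs d) j b) i (bs d k)) := fun k => by
    rw [(vol d).map_update_smul, smul_eq_mul]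
  simp_rw [e1]
  have e2 : ∀ k, k ≠ i → k ≠ j → vol d (update (update (bs d) j b) i (bs d k)) = 0 := by
    intro k hki hkj
    refine (vol d).map_eq_zero_of_eq _ (i := i) (j := k) ?_ hki.symm
    rw [update_self, update_of_ne hki, update_of_ne hkj]
  have e3 : vol d (update (update (bs d) j b) i (bs d i)) = b j := by
    have : update (update (bs d) j b) i (bs d i) = update (bs d) j b := by
      rw [← update_comm hij, update_eq_self]
    rw [this, vol_update]
  have e4 : vol d (update (update (bs d) j b) i (bs d j)) = - b i := by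
    have h1 : update (update (bs d) j b) i (bs d j) =
        (update (bs d) i b) ∘ Equiv.swap i j := by
      funext k
      by_cases hki : k = i
      · subst hki
        rw [update_self, comp_apply, Equiv.swap_apply_left, update_of_ne hij.symm]
      · by_cases hkj : k = j
        · subst hkj
          rw [update_of_ne hki, update_self, comp_apply, Equiv.swap_apply_right, update_self]
        · rw [update_of_ne hki, update_of_ne hkj, comp_apply,
            Equiv.swap_apply_of_ne_of_ne hki hkj, update_of_ne hki]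
    rw [h1, (vol d).map_swap _ hij, vol_update]
  rw [← Finset.add_sum_erase _ _ (Finset.mem_univ i),
    ← Finset.add_sum_erase _ _ (Finset.mem_erase.2 ⟨hij.symm, Finset.mem_univ j⟩),
    Finset.sum_eq_zero (s := (Finset.univ.erase i).erase j), e3, e4]
  · ring
  · intro k hk
    rw [Finset.mem_erase, Finset.mem_erase] at hk
    rw [e2 k hk.2.1 hk.1, mul_zero]

/-- the determinant with the columns `i` and `j` replaced -/
def mn (A : EuclideanSpace ℝ (Fin d) →L[ℝ] EuclideanSpace ℝ (Fin d)) (i j : Fin d)
    (u v : EuclideanSpace ℝ (Fin d)) : ℝ :=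
  vol d (update (update (fun k => A (bs d k)) i u) j v)

theorem mn_eq (A : EuclideanSpace ℝ (Fin d) →L[ℝ] EuclideanSpace ℝ (Fin d)) {i j : Fin d}
    (hij : i ≠ j) (a b : EuclideanSpace ℝ (Fin d)) :
    mn A i j (A a) (A b) = (a i * b j - a j * b i) * A.det := by
  have h : update (update (fun k => A (bs d k)) i (A a)) j (A b) =
      fun k => A (update (update (bs d) i a) j b k) := by
    funext k
    by_cases hkj : k = j
    · subst hkj
      rw [update_self, update_self]
    · rw [update_of_ne hkj, update_of_ne hkj]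
      by_cases hki : k = i
      · subst hki
        rw [update_self, update_self]
      · rw [update_of_ne hki, update_of_ne hki]
  unfold mn
  rw [h, vol_comp, vol_update2 hij]
  ring

/-- the determinant with the column `i` replaced -/
def mn1 (A : EuclideanSpace ℝ (Fin d) →L[ℝ] EuclideanSpace ℝ (Fin d)) (i : Fin d)
    (u : EuclideanSpace ℝ (Fin d)) : ℝ :=
  vol d (update (fun k => A (bs d k)) i u)

theorem mn1_eq (A : EuclideanSpace ℝ (Fin d) →L[ℝ] EuclideanSpace ℝ (Fin d)) (i : Fin d)
    (a : EuclideanSpace ℝ (Fin d)) : mn1 A i (A a) = a i * A.det := by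
  have h : update (fun k => A (bs d k)) i (A a) = fun k => A (update (bs d) i a k) := by
    funext k
    by_cases hki : k = i
    · subst hki
      rw [update_self, update_self]
    · rw [update_of_ne hki, update_of_ne hki]
  unfold mn1
  rw [h, vol_comp, vol_update]
  ring

end minors

end Pool.Agent.H819.BC
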