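import Mathlib
import Pool.Agent.H819.BC.Det
import Pool.Agent.H819.LG.Wk

/-!
# The Piola identity
-/

set_option autoImplicit false

open Set Filter Topology MeasureTheory Metric Function
open scoped ContDiff

noncomputable section

namespace Pool.Agent.H819.BC

open Pool.Agent.Y431.SY (ev ev_apply)
open Pool.Agent.H819.LG (int_bilin)

variable {d : ℕ}


theorem vol_continuous : Continuous (fun v : Fin d → (EuclideanSpace ℝ (Fin d)) => vol d v) := by
  have h : (fun v : Fin d → (EuclideanSpace ℝ (Fin d)) => vol d v) = fun v =>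
      Matrix.det (fun i j => (v j) i : Matrix (Fin d) (Fin d) ℝ) := by
    funext v
    show (bs d).det v = _
    rw [Module.Basis.det_apply]
    rfl
  rw [h]
  refine Continuous.matrix_det ?_
  refine continuous_pi fun i => continuous_pi fun j => ?_
  exact (EuclideanSpace.proj (𝕜 := ℝ) i).continuous.comp (continuous_apply j)

/-- the volume form as a continuous multilinear map -/
def volC (d : ℕ) : ContinuousMultilinearMap ℝ (fun _ : Fin d => EuclideanSpace ℝ (Fin d)) ℝ :=
  { (vol d).toMultilinearMap with cont := vol_continuous }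

theorem volC_apply (v : Fin d → (EuclideanSpace ℝ (Fin d))) : volC d v = vol d v := rfl

/-- the columns of a matrix with two columns replaced -/
def col (A : (EuclideanSpace ℝ (Fin d)) →L[ℝ] (EuclideanSpace ℝ (Fin d))) (i j : Fin d) (u v : (EuclideanSpace ℝ (Fin d))) (k : Fin d) : (EuclideanSpace ℝ (Fin d)) :=
  if k = j then v else if k = i then u else A (bs d k)

theorem col_eq (A : (EuclideanSpace ℝ (Fin d)) →L[ℝ] (EuclideanSpace ℝ (Fin d))) (i j : Fin d) (u v : (EuclideanSpace ℝ (Fin d))) :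
    update (update (fun k => A (bs d k)) i u) j v = col A i j u v := by
  funext k
  unfold col
  by_cases hkj : k = j
  · subst hkj
    rw [update_self, if_pos rfl]
  · rw [update_of_ne hkj, if_neg hkj]
    by_cases hki : k = i
    · subst hki
      rw [update_self, if_pos rfl]
    · rw [update_of_ne hki, if_neg hki]

/-- the derivative of the columns -/
def col' (L' : (EuclideanSpace ℝ (Fin d)) →L[ℝ] (EuclideanSpace ℝ (Fin d)) →L[ℝ] (EuclideanSpace ℝ (Fin d))) (i j k : Fin d) : (EuclideanSpace ℝ (Fin d)) →L[ℝ] (EuclideanSpace ℝ (Fin d)) :=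
  if k = j then 0 else if k = i then 0 else
    (ContinuousLinearMap.apply ℝ (EuclideanSpace ℝ (Fin d)) (bs d k)).comp L'

theorem hasFDerivAt_col {L : (EuclideanSpace ℝ (Fin d)) → (EuclideanSpace ℝ (Fin d)) →L[ℝ] (EuclideanSpace ℝ (Fin d))} {L' : (EuclideanSpace ℝ (Fin d)) →L[ℝ] (EuclideanSpace ℝ (Fin d)) →L[ℝ] (EuclideanSpace ℝ (Fin d))} {z : (EuclideanSpace ℝ (Fin d))}
    (h : HasFDerivAt L L' z) (i j : Fin d) (u v : (EuclideanSpace ℝ (Fin d))) (k : Fin d) :
    HasFDerivAt (fun z => col (L z) i j u v k) (col' L' i j k) z := by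
  unfold col col'
  by_cases hkj : k = j
  · simp only [if_pos hkj]
    exact hasFDerivAt_const v z
  · simp only [if_neg hkj]
    by_cases hki : k = i
    · simp only [if_pos hki]
      exact hasFDerivAt_const u z
    · simp only [if_neg hki]
      exact (ContinuousLinearMap.apply ℝ (EuclideanSpace ℝ (Fin d)) (bs d k)).hasFDerivAt.comp z h

/-- the terms of the divergence of a row of minors -/
def trm (A : (EuclideanSpace ℝ (Fin d)) →L[ℝ] (EuclideanSpace ℝ (Fin d))) (L' : (EuclideanSpace ℝ (Fin d)) →L[ℝ] (EuclideanSpace ℝ (Fin d)) →L[ℝ] (EuclideanSpace ℝ (Fin d))) (j : Fin d) (u v : (EuclideanSpace ℝ (Fin d))) (i k : Fin d) : ℝ :=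
  if i = j ∨ k = j ∨ k = i then 0 else vol d (update (col A i j u v) k (L' (bs d i) (bs d k)))

theorem hasFDerivAt_mn {L : (EuclideanSpace ℝ (Fin d)) → (EuclideanSpace ℝ (Fin d)) →L[ℝ] (EuclideanSpace ℝ (Fin d))} {L' : (EuclideanSpace ℝ (Fin d)) →L[ℝ] (EuclideanSpace ℝ (Fin d)) →L[ℝ] (EuclideanSpace ℝ (Fin d))} {z : (EuclideanSpace ℝ (Fin d))}
    (h : HasFDerivAt L L' z) {i j : Fin d} (hij : i ≠ j) (u v : (EuclideanSpace ℝ (Fin d))) :
    ∃ M' : (EuclideanSpace ℝ (Fin d)) →L[ℝ] ℝ, HasFDerivAt (fun z => mn (L z) i j u v) M' z ∧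
      M' (bs d i) = ∑ k, trm (L z) L' j u v i k := by
  have h1 := HasFDerivAt.multilinear_comp (f := volC d)
    (g := fun k z => col (L z) i j u v k) (g' := fun k => col' L' i j k) (x := z)
    (fun k => hasFDerivAt_col h i j u v k)
  have h2 : (fun z => mn (L z) i j u v) = fun z => volC d (fun k => col (L z) i j u v k) := by
    funext z
    unfold mn
    rw [col_eq]
    rfl
  refine ⟨_, by rw [h2]; exact h1, ?_⟩
  rw [sum_apply]
  refine Finset.sum_congr rfl fun k _ => ?_
  rw [ContinuousLinearMap.comp_apply]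
  have h3 : ∀ w : (EuclideanSpace ℝ (Fin d)), (volC d).toContinuousLinearMap (fun k => col (L z) i j u v k) k w =
      vol d (update (col (L z) i j u v) k w) := fun w => rfl
  rw [h3]
  unfold trm col'
  by_cases hkj : k = j
  · rw [if_pos hkj, if_pos (Or.inr (Or.inl hkj))]
    exact (vol d).map_coord_zero k (by rw [update_self]; rfl)
  · rw [if_neg hkj]
    by_cases hki : k = i
    · rw [if_pos hki, if_pos (Or.inr (Or.inr hki))]
      exact (vol d).map_coord_zero k (by rw [update_self]; rfl)
    · rw [if_neg hki, if_neg]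
      · rfl
      · push Not
        exact ⟨hij, hkj, hki⟩

theorem trm_swap (A : (EuclideanSpace ℝ (Fin d)) →L[ℝ] (EuclideanSpace ℝ (Fin d))) (L' : (EuclideanSpace ℝ (Fin d)) →L[ℝ] (EuclideanSpace ℝ (Fin d)) →L[ℝ] (EuclideanSpace ℝ (Fin d))) (hL : ∀ a b, L' a b = L' b a)
    (j : Fin d) (u v : (EuclideanSpace ℝ (Fin d))) (i k : Fin d) : trm A L' j u v k i = - trm A L' j u v i k := by
  unfold trm
  by_cases h : i = j ∨ k = j ∨ k = i
  · have h' : k = j ∨ i = j ∨ i = k := by
      rcases h with h | h | h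
      · exact Or.inr (Or.inl h)
      · exact Or.inl h
      · exact Or.inr (Or.inr h.symm)
    rw [if_pos h, if_pos h', neg_zero]
  · have h' : ¬(k = j ∨ i = j ∨ i = k) := by
      intro h1
      apply h
      rcases h1 with h1 | h1 | h1
      · exact Or.inr (Or.inl h1)
      · exact Or.inl h1
      · exact Or.inr (Or.inr h1.symm)
    rw [if_neg h, if_neg h']
    push Not at h
    obtain ⟨hij, hkj, hki⟩ := h
    have h1 : update (col A k j u v) i (L' (bs d k) (bs d i)) =
        (update (col A i j u v) k (L' (bs d i) (bs d k))) ∘ Equiv.swap i k := by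
      funext l
      by_cases hli : l = i
      · subst hli
        rw [update_self, comp_apply, Equiv.swap_apply_left, update_self, hL]
      · rw [update_of_ne hli]
        by_cases hlk : l = k
        · subst hlk
          rw [comp_apply, Equiv.swap_apply_right, update_of_ne hki.symm]
          unfold col
          rw [if_neg hkj, if_pos rfl, if_neg hij, if_pos rfl]
        · rw [comp_apply, Equiv.swap_apply_of_ne_of_ne hli hlk, update_of_ne hlk]
          unfold col
          by_cases hlj : l = j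
          · rw [if_pos hlj, if_pos hlj]
          · rw [if_neg hlj, if_neg hlj, if_neg hlk, if_neg hli]
    rw [h1, (vol d).map_swap _ hki.symm]

theorem sum_trm (A : (EuclideanSpace ℝ (Fin d)) →L[ℝ] (EuclideanSpace ℝ (Fin d))) (L' : (EuclideanSpace ℝ (Fin d)) →L[ℝ] (EuclideanSpace ℝ (Fin d)) →L[ℝ] (EuclideanSpace ℝ (Fin d))) (hL : ∀ a b, L' a b = L' b a)
    (j : Fin d) (u v : (EuclideanSpace ℝ (Fin d))) : ∑ i, ∑ k, trm A L' j u v i k = 0 := by
  have h1 : ∑ i, ∑ k, trm A L' j u v i k = ∑ i, ∑ k, trm A L' j u v k i := Finset.sum_comm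
  have h2 : ∑ i, ∑ k, trm A L' j u v k i = - ∑ i, ∑ k, trm A L' j u v i k := by
    rw [← Finset.sum_neg_distrib]
    refine Finset.sum_congr rfl fun i _ => ?_
    rw [← Finset.sum_neg_distrib]
    exact Finset.sum_congr rfl fun k _ => trm_swap A L' hL j u v i k
  linarith [h1.trans h2]

theorem contDiffOn_mn {L : (EuclideanSpace ℝ (Fin d)) → (EuclideanSpace ℝ (Fin d)) →L[ℝ] (EuclideanSpace ℝ (Fin d))} {W : Set (EuclideanSpace ℝ (Fin d))} (h : ContDiffOn ℝ ∞ L W) (i j : Fin d)
    (u v : (EuclideanSpace ℝ (Fin d))) : ContDiffOn ℝ ∞ (fun z => mn (L z) i j u v) W := by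
  have h2 : (fun z => mn (L z) i j u v) = fun z => volC d (fun k => col (L z) i j u v k) := by
    funext z
    unfold mn
    rw [col_eq]
    rfl
  rw [h2]
  refine (volC d).contDiff.comp_contDiffOn (contDiffOn_pi.2 fun k => ?_)
  unfold col
  by_cases hkj : k = j
  · simp only [if_pos hkj]
    exact contDiffOn_const
  · simp only [if_neg hkj]
    by_cases hki : k = i
    · simp only [if_pos hki]
      exact contDiffOn_const
    · simp only [if_neg hki]
      exact h.clm_apply contDiffOn_const

theorem int_mul {W T : Set (EuclideanSpace ℝ (Fin d))} (hW : IsOpen W) (hT : IsCompact T) (hTW : T ⊆ W) {a b : (EuclideanSpace ℝ (Fin d)) → ℝ}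
    (ha : ContinuousOn a W) (hb : Continuous b) (hb0 : ∀ z, z ∉ T → b z = 0) :
    Integrable (fun z => a z * b z) := by
  have h1 : LocallyIntegrableOn a W := ha.locallyIntegrableOn hW.measurableSet
  have h2 := int_bilin (ContinuousLinearMap.mul ℝ ℝ) hT hTW hb hb0 h1
  refine h2.congr (Eventually.of_forall fun z => ?_)
  exact mul_comm _ _

/-- **The Piola identity** in terms of minors -/
theorem piola_minors {g : (EuclideanSpace ℝ (Fin d)) → (EuclideanSpace ℝ (Fin d))} {W : Set (EuclideanSpace ℝ (Fin d))} (hW : IsOpen W) (hg : ContDiffOn ℝ ∞ g W)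
    {γ : (EuclideanSpace ℝ (Fin d)) → (EuclideanSpace ℝ (Fin d)) [⋀^Fin 1]→L[ℝ] ℝ} (hγ : ContDiff ℝ ∞ γ) (hγc : HasCompactSupport γ)
    (hγW : tsupport γ ⊆ W) (u v : (EuclideanSpace ℝ (Fin d))) :
    ∫ z, ∑ j, ∑ i, (if i = j then 0 else
      mn (fderiv ℝ g z) i j u v * fderiv ℝ γ z (bs d i) ![bs d j]) = 0 := by
  have hγ0 : ∀ z, z ∉ tsupport γ → γ z = 0 := fun z hz => image_eq_zero_of_notMem_tsupport hz
  have hdγ : ∀ w w', Continuous (fun z => fderiv ℝ γ z w ![w']) := fun w w' =>
    (ev (![w'] : Fin 1 → (EuclideanSpace ℝ (Fin d)))).continuous.comp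
      ((hγ.continuous_fderiv (by simp)).clm_apply continuous_const)
  have hdγ0 : ∀ w w' z, z ∉ tsupport γ → fderiv ℝ γ z w ![w'] = 0 := by
    intro w w' z hz
    have h1 : γ =ᶠ[𝓝 z] fun _ => 0 := by
      filter_upwards [(isClosed_tsupport γ).isOpen_compl.mem_nhds hz] with x hx
      exact hγ0 x hx
    rw [h1.fderiv_eq]
    have h2 : fderiv ℝ (fun _ : (EuclideanSpace ℝ (Fin d)) => (0 : (EuclideanSpace ℝ (Fin d)) [⋀^Fin 1]→L[ℝ] ℝ)) z = 0 := fderiv_const_apply 0
    rw [h2]
    rfl
  have hγj : ∀ w, Continuous (fun z => γ z ![w]) := fun w =>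
    (ev (![w] : Fin 1 → (EuclideanSpace ℝ (Fin d)))).continuous.comp hγ.continuous
  have hγj0 : ∀ w z, z ∉ tsupport γ → γ z ![w] = 0 := by
    intro w z hz
    rw [hγ0 z hz]
    rfl
  have hfd : ∀ w w' : (EuclideanSpace ℝ (Fin d)), ∀ z, fderiv ℝ (fun z => γ z ![w']) z w = fderiv ℝ γ z w ![w'] := by
    intro w w' z
    have h1 := ((ev (![w'] : Fin 1 → (EuclideanSpace ℝ (Fin d)))).hasFDerivAt.comp z
      (hγ.differentiable (by simp) z).hasFDerivAt).fderiv
    have h2 : fderiv ℝ (fun z => γ z ![w']) z =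
      (ev (![w'] : Fin 1 → (EuclideanSpace ℝ (Fin d)))).comp (fderiv ℝ γ z) := h1
    rw [h2]
    rfl
  have hL : ContDiffOn ℝ ∞ (fderiv ℝ g) W := hg.fderiv_of_isOpen hW (by simp)
  have hM := fun i j : Fin d => contDiffOn_mn hL i j u v
  have hMc := fun i j : Fin d => (hM i j).continuousOn
  have hMd : ∀ i j : Fin d, ∀ w, ContinuousOn
      (fun z => fderiv ℝ (fun z => mn (fderiv ℝ g z) i j u v) z w) W := fun i j w =>
    ((hM i j).continuousOn_fderiv_of_isOpen hW (by simp)).clm_apply continuousOn_const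
  have hTc : IsCompact (tsupport γ) := hγc.isCompact
  have k2 : ∀ i j : Fin d, Integrable (fun z => mn (fderiv ℝ g z) i j u v *
      fderiv ℝ γ z (bs d i) ![bs d j]) := fun i j =>
    int_mul hW hTc hγW (hMc i j) (hdγ _ _) (hdγ0 _ _)
  have k1 : ∀ i j : Fin d, Integrable (fun z =>
      fderiv ℝ (fun z => mn (fderiv ℝ g z) i j u v) z (bs d i) * γ z ![bs d j]) := fun i j =>
    int_mul hW hTc hγW (hMd i j _) (hγj _) (hγj0 _)
  have k3 : ∀ i j : Fin d, Integrable (fun z => mn (fderiv ℝ g z) i j u v * γ z ![bs d j]) :=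
    fun i j => int_mul hW hTc hγW (hMc i j) (hγj _) (hγj0 _)
  have ibp : ∀ i j : Fin d, ∫ z, mn (fderiv ℝ g z) i j u v * fderiv ℝ γ z (bs d i) ![bs d j] =
      - ∫ z, fderiv ℝ (fun z => mn (fderiv ℝ g z) i j u v) z (bs d i) * γ z ![bs d j] := by
    intro i j
    have h1 : ∀ z, fderiv ℝ γ z (bs d i) ![bs d j] =
      fderiv ℝ (fun z => γ z ![bs d j]) z (bs d i) := fun z => (hfd _ _ z).symm
    simp_rw [h1]
    refine integral_mul_fderiv_eq_neg_fderiv_mul_of_integrable (k1 i j) ?_ (k3 i j) ?_ ?_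
    · simp_rw [← h1]
      exact k2 i j
    · intro z hz
      have h2 : z ∈ tsupport γ := by
        refine closure_mono ?_ hz
        intro x hx hx0
        apply hx
        show γ x ![bs d j] = 0
        rw [hx0]
        rfl
      exact ((hM i j).contDiffAt (hW.mem_nhds (hγW h2))).differentiableAt (by simp)
    · intro z _
      exact ((ev (![bs d j] : Fin 1 → (EuclideanSpace ℝ (Fin d)))).differentiableAt).comp z
        (hγ.differentiable (by simp) z)
  have k2' : ∀ i j : Fin d, Integrable (fun z => if i = j then 0 else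
      mn (fderiv ℝ g z) i j u v * fderiv ℝ γ z (bs d i) ![bs d j]) := by
    intro i j
    by_cases hij : i = j
    · simp only [if_pos hij]
      exact integrable_zero _ _ _
    · simp only [if_neg hij]
      exact k2 i j
  rw [integral_finsetSum _ fun j _ => integrable_finsetSum _ fun i _ => k2' i j]
  refine Finset.sum_eq_zero fun j _ => ?_
  rw [integral_finsetSum _ fun i _ => k2' i j]
  have e1 : ∀ i, (∫ z, if i = j then 0 else
      mn (fderiv ℝ g z) i j u v * fderiv ℝ γ z (bs d i) ![bs d j]) =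
      - ∫ z, if i = j then 0 else
        fderiv ℝ (fun z => mn (fderiv ℝ g z) i j u v) z (bs d i) * γ z ![bs d j] := by
    intro i
    by_cases hij : i = j
    · simp only [if_pos hij]
      simp
    · simp only [if_neg hij]
      exact ibp i j
  simp_rw [e1]
  rw [Finset.sum_neg_distrib, neg_eq_zero, ← integral_finsetSum]
  · have e2 : (fun z => ∑ i, if i = j then 0 else
        fderiv ℝ (fun z => mn (fderiv ℝ g z) i j u v) z (bs d i) * γ z ![bs d j]) =
        fun _ => 0 := by
      funext z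
      by_cases hz : z ∈ tsupport γ
      · have hzW := hγW hz
        have h1 : HasFDerivAt (fderiv ℝ g) (fderiv ℝ (fderiv ℝ g) z) z :=
          ((hL.contDiffAt (hW.mem_nhds hzW)).differentiableAt (by simp)).hasFDerivAt
        have hsymm : ∀ a b, fderiv ℝ (fderiv ℝ g) z a b = fderiv ℝ (fderiv ℝ g) z b a := by
          have h2 : ContDiffAt ℝ ∞ g z := hg.contDiffAt (hW.mem_nhds hzW)
          have h3 := h2.isSymmSndFDerivAt (by
            rw [minSmoothness_of_isRCLikeNormedField]
            exact WithTop.coe_le_coe.2 le_top)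
          intro a b
          exact h3.eq a b
        have h4 : ∀ i, i ≠ j → fderiv ℝ (fun z => mn (fderiv ℝ g z) i j u v) z (bs d i) =
            ∑ k, trm (fderiv ℝ g z) (fderiv ℝ (fderiv ℝ g) z) j u v i k := by
          intro i hij
          obtain ⟨M', hM1, hM2⟩ := hasFDerivAt_mn h1 hij u v
          rw [hM1.fderiv, hM2]
        have h5 : ∀ i, (if i = j then 0 else
            fderiv ℝ (fun z => mn (fderiv ℝ g z) i j u v) z (bs d i) * γ z ![bs d j]) =
            (∑ k, trm (fderiv ℝ g z) (fderiv ℝ (fderiv ℝ g) z) j u v i k) * γ z ![bs d j] := by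
          intro i
          by_cases hij : i = j
          · rw [if_pos hij]
            have h6 : ∀ k, trm (fderiv ℝ g z) (fderiv ℝ (fderiv ℝ g) z) j u v i k = 0 := by
              intro k
              unfold trm
              rw [if_pos (Or.inl hij)]
            simp_rw [h6]
            simp
          · rw [if_neg hij, h4 i hij]
        simp_rw [h5]
        rw [← Finset.sum_mul, sum_trm _ _ hsymm, zero_mul]
      · refine Finset.sum_eq_zero fun i _ => ?_
        rw [hγj0 _ z hz, mul_zero, ite_self]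
    rw [e2, integral_zero]
  · intro i _
    by_cases hij : i = j
    · simp only [if_pos hij]
      exact integrable_zero _ _ _
    · simp only [if_neg hij]
      exact k1 i j

end Pool.Agent.H819.BC
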