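import Mathlib
import Pool.Agent.H819.BC.Piola
import Pool.Agent.H819.LG.Inv

/-!
# Forms composed with an inverse, and minors
-/

set_option autoImplicit false

open Set Filter Topology MeasureTheory Metric Function
open scoped ContDiff

noncomputable section

namespace Pool.Agent.H819.BC

open Pool.Agent.Y431.SY (ev ev_apply)
open Pool.Agent.H819.LG (two_add_left two_add_right two_smul_left two_smul_right two_swap)

variable {d : ℕ}


theorem inv_iff (A : (EuclideanSpace ℝ (Fin d)) →L[ℝ] (EuclideanSpace ℝ (Fin d))) : A.IsInvertible ↔ A.det ≠ 0 := by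
  constructor
  · rintro ⟨e, rfl⟩
    exact (LinearEquiv.isUnit_det' e.toLinearEquiv).ne_zero
  · intro h
    exact ⟨A.toContinuousLinearEquivOfDetNeZero h, A.coe_toContinuousLinearEquivOfDetNeZero h⟩

variable (d) in
/-- forms are determined by their values on the basis -/
theorem exists_recon (k : ℕ) :
    ∃ P : ((Fin k → Fin d) → ℝ) →L[ℝ] ((EuclideanSpace ℝ (Fin d)) [⋀^Fin k]→L[ℝ] ℝ),
      ∀ t : (EuclideanSpace ℝ (Fin d)) [⋀^Fin k]→L[ℝ] ℝ, P (fun b => t (fun i => bs d (b i))) = t := by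
  let L : ((EuclideanSpace ℝ (Fin d)) [⋀^Fin k]→L[ℝ] ℝ) →ₗ[ℝ] ((Fin k → Fin d) → ℝ) :=
    { toFun := fun t b => t (fun i => bs d (b i))
      map_add' := fun _ _ => rfl
      map_smul' := fun _ _ => rfl }
  have hL : LinearMap.ker L = ⊥ := by
    rw [LinearMap.ker_eq_bot']
    intro t ht
    have h1 : t.toAlternatingMap.toMultilinearMap = (0 : MultilinearMap ℝ (fun _ : Fin k => (EuclideanSpace ℝ (Fin d))) ℝ) := by
      refine Module.Basis.ext_multilinear (fun _ => bs d) fun v => ?_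
      exact congrFun ht v
    ext v
    exact congrArg (fun f : MultilinearMap ℝ (fun _ : Fin k => (EuclideanSpace ℝ (Fin d))) ℝ => f v) h1
  obtain ⟨P, hP⟩ := L.exists_leftInverse_of_injective hL
  refine ⟨LinearMap.toContinuousLinearMap P, fun t => ?_⟩
  exact congrArg (fun f : ((EuclideanSpace ℝ (Fin d)) [⋀^Fin k]→L[ℝ] ℝ) →ₗ[ℝ] ((EuclideanSpace ℝ (Fin d)) [⋀^Fin k]→L[ℝ] ℝ) => f t) hP

/-- the form `s` composed with the inverse of `A` -/
def ci {k : ℕ} (s : (EuclideanSpace ℝ (Fin d)) [⋀^Fin k]→L[ℝ] ℝ) (A : (EuclideanSpace ℝ (Fin d)) →L[ℝ] (EuclideanSpace ℝ (Fin d))) : (EuclideanSpace ℝ (Fin d)) [⋀^Fin k]→L[ℝ] ℝ :=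
  s.compContinuousLinearMap A.inverse

theorem ci_apply {k : ℕ} (s : (EuclideanSpace ℝ (Fin d)) [⋀^Fin k]→L[ℝ] ℝ) (A : (EuclideanSpace ℝ (Fin d)) →L[ℝ] (EuclideanSpace ℝ (Fin d))) (v : Fin k → (EuclideanSpace ℝ (Fin d))) :
    ci s A v = s (fun i => A.inverse (v i)) := rfl

theorem ci_one (s : (EuclideanSpace ℝ (Fin d)) [⋀^Fin 1]→L[ℝ] ℝ) (A : (EuclideanSpace ℝ (Fin d)) →L[ℝ] (EuclideanSpace ℝ (Fin d))) (u : (EuclideanSpace ℝ (Fin d))) :
    ci s A ![u] = s ![A.inverse u] := by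
  rw [ci_apply]
  congr 1
  funext i
  fin_cases i
  rfl

theorem ci_two (s : (EuclideanSpace ℝ (Fin d)) [⋀^Fin 2]→L[ℝ] ℝ) (A : (EuclideanSpace ℝ (Fin d)) →L[ℝ] (EuclideanSpace ℝ (Fin d))) (u v : (EuclideanSpace ℝ (Fin d))) :
    ci s A ![u, v] = s ![A.inverse u, A.inverse v] := by
  rw [ci_apply]
  congr 1
  funext i
  fin_cases i <;> rfl

theorem inverse_zero_of {A : (EuclideanSpace ℝ (Fin d)) →L[ℝ] (EuclideanSpace ℝ (Fin d))} (hA : A.det = 0) : A.inverse = 0 := by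
  rw [ContinuousLinearMap.inverse_of_not_isInvertible]
  rw [inv_iff, not_not]
  exact hA

theorem ci_zero {k : ℕ} (hk : k ≠ 0) (s : (EuclideanSpace ℝ (Fin d)) [⋀^Fin k]→L[ℝ] ℝ) {A : (EuclideanSpace ℝ (Fin d)) →L[ℝ] (EuclideanSpace ℝ (Fin d))}
    (hA : A.det = 0) : ci s A = 0 := by
  ext v
  rw [ci_apply, inverse_zero_of hA]
  exact s.map_coord_zero ⟨0, Nat.pos_of_ne_zero hk⟩ rfl

theorem ci_add {k : ℕ} (s t : (EuclideanSpace ℝ (Fin d)) [⋀^Fin k]→L[ℝ] ℝ) (A : (EuclideanSpace ℝ (Fin d)) →L[ℝ] (EuclideanSpace ℝ (Fin d))) :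
    ci (s + t) A = ci s A + ci t A := rfl

theorem ci_smul {k : ℕ} (c : ℝ) (s : (EuclideanSpace ℝ (Fin d)) [⋀^Fin k]→L[ℝ] ℝ) (A : (EuclideanSpace ℝ (Fin d)) →L[ℝ] (EuclideanSpace ℝ (Fin d))) :
    ci (c • s) A = c • ci s A := rfl

theorem one_add (s : (EuclideanSpace ℝ (Fin d)) [⋀^Fin 1]→L[ℝ] ℝ) (x y : (EuclideanSpace ℝ (Fin d))) : s ![x + y] = s ![x] + s ![y] := by
  have := s.toAlternatingMap.map_update_add ![x] 0 x y
  have h1 : ∀ w : (EuclideanSpace ℝ (Fin d)), Function.update ![x] 0 w = ![w] := by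
    intro w; funext i; fin_cases i; simp
  rw [h1, h1, h1] at this
  exact this

theorem one_smul' (s : (EuclideanSpace ℝ (Fin d)) [⋀^Fin 1]→L[ℝ] ℝ) (a : ℝ) (x : (EuclideanSpace ℝ (Fin d))) : s ![a • x] = a * s ![x] := by
  have := s.toAlternatingMap.map_update_smul ![x] 0 a x
  have h1 : ∀ w : (EuclideanSpace ℝ (Fin d)), Function.update ![x] 0 w = ![w] := by
    intro w; funext i; fin_cases i; simp
  rw [h1, h1] at this
  exact this

/-- a one-form as a linear form -/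
def lin1 (s : (EuclideanSpace ℝ (Fin d)) [⋀^Fin 1]→L[ℝ] ℝ) : (EuclideanSpace ℝ (Fin d)) →ₗ[ℝ] ℝ where
  toFun x := s ![x]
  map_add' := one_add s
  map_smul' := one_smul' s

/-- a two-form as a bilinear form -/
def lin2 (s : (EuclideanSpace ℝ (Fin d)) [⋀^Fin 2]→L[ℝ] ℝ) : (EuclideanSpace ℝ (Fin d)) →ₗ[ℝ] (EuclideanSpace ℝ (Fin d)) →ₗ[ℝ] ℝ where
  toFun x :=
    { toFun := fun y => s ![x, y]
      map_add' := two_add_right s x
      map_smul' := fun a y => two_smul_right s a x y }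
  map_add' x y := by ext z; exact two_add_left s x y z
  map_smul' a x := by ext z; exact two_smul_left s a x z

theorem one_sum (s : (EuclideanSpace ℝ (Fin d)) [⋀^Fin 1]→L[ℝ] ℝ) (a : (EuclideanSpace ℝ (Fin d))) :
    s ![a] = ∑ j, a j * s ![bs d j] := by
  have h : a = ∑ k, (a k) • bs d k := ((bs d).sum_repr a).symm
  have h1 : lin1 s a = ∑ j, a j * lin1 s (bs d j) := by
    conv_lhs => rw [h, map_sum]
    exact Finset.sum_congr rfl fun j _ => by rw [map_smul, smul_eq_mul]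
  exact h1

theorem two_sum (s : (EuclideanSpace ℝ (Fin d)) [⋀^Fin 2]→L[ℝ] ℝ) (a b : (EuclideanSpace ℝ (Fin d))) :
    s ![a, b] = ∑ j, ∑ i, a i * b j * s ![bs d i, bs d j] := by
  have ha : a = ∑ k, (a k) • bs d k := ((bs d).sum_repr a).symm
  have hb : b = ∑ k, (b k) • bs d k := ((bs d).sum_repr b).symm
  have h1 : lin2 s a b = ∑ j, ∑ i, a i * b j * lin2 s (bs d i) (bs d j) := by
    have e1 : lin2 s a b = ∑ j, b j * lin2 s a (bs d j) := by
      conv_lhs => rw [hb, map_sum]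
      exact Finset.sum_congr rfl fun j _ => by rw [map_smul, smul_eq_mul]
    have e2 : ∀ y, lin2 s a y = ∑ i, a i * lin2 s (bs d i) y := by
      intro y
      conv_lhs => rw [ha, map_sum, LinearMap.sum_apply]
      exact Finset.sum_congr rfl fun j _ => by rw [map_smul, LinearMap.smul_apply, smul_eq_mul]
    rw [e1]
    refine Finset.sum_congr rfl fun j _ => ?_
    rw [e2, Finset.mul_sum]
    exact Finset.sum_congr rfl fun i _ => by ring
  exact h1

theorem det_one (s : (EuclideanSpace ℝ (Fin d)) [⋀^Fin 1]→L[ℝ] ℝ) {A : (EuclideanSpace ℝ (Fin d)) →L[ℝ] (EuclideanSpace ℝ (Fin d))} (hA : A.det ≠ 0) (u : (EuclideanSpace ℝ (Fin d))) :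
    A.det * ci s A ![u] = ∑ j, mn1 A j u * s ![bs d j] := by
  have hI := (inv_iff A).2 hA
  rw [ci_one, one_sum, Finset.mul_sum]
  refine Finset.sum_congr rfl fun j _ => ?_
  have h1 := mn1_eq A j (A.inverse u)
  rw [hI.self_apply_inverse] at h1
  rw [h1]
  ring

theorem two_det (D : Fin d → Fin d → ℝ) {A : (EuclideanSpace ℝ (Fin d)) →L[ℝ] (EuclideanSpace ℝ (Fin d))} (hA : A.det ≠ 0) (u v : (EuclideanSpace ℝ (Fin d))) :
    A.det * ∑ j, ∑ i, (A.inverse u i * A.inverse v j - A.inverse u j * A.inverse v i) * D i j =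
      ∑ j, ∑ i, (if i = j then 0 else mn A i j u v * D i j) := by
  have hI := (inv_iff A).2 hA
  rw [Finset.mul_sum]
  refine Finset.sum_congr rfl fun j _ => ?_
  rw [Finset.mul_sum]
  refine Finset.sum_congr rfl fun i _ => ?_
  by_cases hij : i = j
  · rw [if_pos hij, hij]
    ring
  · rw [if_neg hij]
    have h1 := mn_eq A hij (A.inverse u) (A.inverse v)
    rw [hI.self_apply_inverse, hI.self_apply_inverse] at h1
    rw [h1]
    ring

theorem det_two (s : (EuclideanSpace ℝ (Fin d)) [⋀^Fin 2]→L[ℝ] ℝ) {A : (EuclideanSpace ℝ (Fin d)) →L[ℝ] (EuclideanSpace ℝ (Fin d))} (hA : A.det ≠ 0) (u v : (EuclideanSpace ℝ (Fin d))) :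
    A.det * ci s A ![u, v] =
      ∑ j, ∑ i, (if i = j then 0 else mn A i j u v * ((1 / 2 : ℝ) * s ![bs d i, bs d j])) := by
  rw [ci_two, ← two_det _ hA]
  congr 1
  set a := A.inverse u
  set b := A.inverse v
  have h1 : s ![a, b] = ∑ j, ∑ i, a i * b j * s ![bs d i, bs d j] := two_sum s a b
  have h2 : s ![b, a] = ∑ j, ∑ i, b i * a j * s ![bs d i, bs d j] := two_sum s b a
  have h3 : s ![a, b] = - s ![b, a] := two_swap s a b
  have h4 : ∑ j, ∑ i, (a i * b j - a j * b i) * ((1 / 2 : ℝ) * s ![bs d i, bs d j]) =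
      (1 / 2 : ℝ) * (∑ j, ∑ i, a i * b j * s ![bs d i, bs d j] -
        ∑ j, ∑ i, b i * a j * s ![bs d i, bs d j]) := by
    rw [← Finset.sum_sub_distrib, Finset.mul_sum]
    refine Finset.sum_congr rfl fun j _ => ?_
    rw [← Finset.sum_sub_distrib, Finset.mul_sum]
    exact Finset.sum_congr rfl fun i _ => by ring
  rw [h4, ← h1, ← h2, h3]
  ring

theorem extDeriv_pair {γ : (EuclideanSpace ℝ (Fin d)) → (EuclideanSpace ℝ (Fin d)) [⋀^Fin 1]→L[ℝ] ℝ} {z : (EuclideanSpace ℝ (Fin d))} (h : DifferentiableAt ℝ γ z)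
    (a b : (EuclideanSpace ℝ (Fin d))) : extDeriv γ z ![a, b] = fderiv ℝ γ z a ![b] - fderiv ℝ γ z b ![a] := by
  have hfd : ∀ w w' : (EuclideanSpace ℝ (Fin d)), fderiv ℝ (fun z => γ z ![w']) z w = fderiv ℝ γ z w ![w'] := by
    intro w w'
    have h1 := ((ev (![w'] : Fin 1 → (EuclideanSpace ℝ (Fin d)))).hasFDerivAt.comp z h.hasFDerivAt).fderiv
    have h2 : fderiv ℝ (fun z => γ z ![w']) z =
      (ev (![w'] : Fin 1 → (EuclideanSpace ℝ (Fin d)))).comp (fderiv ℝ γ z) := h1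
    rw [h2]
    rfl
  rw [extDeriv_apply h, Fin.sum_univ_two]
  have e0 : Fin.removeNth 0 (![a, b] : Fin 2 → (EuclideanSpace ℝ (Fin d))) = ![b] := by
    funext i; fin_cases i; rfl
  have e1 : Fin.removeNth 1 (![a, b] : Fin 2 → (EuclideanSpace ℝ (Fin d))) = ![a] := by
    funext i; fin_cases i; rfl
  rw [e0, e1]
  simp only [Fin.val_zero, pow_zero, one_smul, Fin.val_one, pow_one, neg_smul,
    Matrix.cons_val_zero, Matrix.cons_val_one]
  rw [hfd, hfd]
  ring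

theorem det_ext {γ : (EuclideanSpace ℝ (Fin d)) → (EuclideanSpace ℝ (Fin d)) [⋀^Fin 1]→L[ℝ] ℝ} {z : (EuclideanSpace ℝ (Fin d))} (h : DifferentiableAt ℝ γ z)
    {A : (EuclideanSpace ℝ (Fin d)) →L[ℝ] (EuclideanSpace ℝ (Fin d))} (hA : A.det ≠ 0) (u v : (EuclideanSpace ℝ (Fin d))) :
    A.det * ci (extDeriv γ z) A ![u, v] =
      ∑ j, ∑ i, (if i = j then 0 else mn A i j u v * fderiv ℝ γ z (bs d i) ![bs d j]) := by
  rw [ci_two, extDeriv_pair h, ← two_det _ hA]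
  congr 1
  set a := A.inverse u
  set b := A.inverse v
  have hl : ∀ x y : (EuclideanSpace ℝ (Fin d)), fderiv ℝ γ z x ![y] =
      ∑ j, ∑ i, x i * y j * fderiv ℝ γ z (bs d i) ![bs d j] := by
    intro x y
    have hx : x = ∑ k, (x k) • bs d k := ((bs d).sum_repr x).symm
    rw [one_sum]
    refine Finset.sum_congr rfl fun j _ => ?_
    have e1 : ∀ w, fderiv ℝ γ z w ![bs d j] = ((ev (![bs d j] : Fin 1 → (EuclideanSpace ℝ (Fin d)))).comp
      (fderiv ℝ γ z)) w := fun w => rfl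
    rw [e1]
    conv_lhs => rw [hx, map_sum]
    rw [Finset.mul_sum]
    refine Finset.sum_congr rfl fun i _ => ?_
    rw [map_smul, smul_eq_mul, e1]
    ring
  rw [hl a b, hl b a, ← Finset.sum_sub_distrib]
  refine Finset.sum_congr rfl fun j _ => ?_
  rw [← Finset.sum_sub_distrib]
  exact Finset.sum_congr rfl fun i _ => by ring

end Pool.Agent.H819.BC
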