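import Mathlib
import Pool.Agent.H819.BC.Area
import Pool.Agent.H819.BC.Lin

/-!
# The push-forward of forms under a smooth map with finite fibres: local theory
-/

set_option autoImplicit false

open Set Filter Topology MeasureTheory Metric Function
open scoped ContDiff

noncomputable section

namespace Pool.Agent.H819.BC

open Pool.Agent.Y431.SY (ev ev_apply)
open Pool.Agent.H819.LG (int_bilin)

variable {d : ℕ}


/-- the form `s` transported by the derivative of `g` -/
def hk (g : (EuclideanSpace ℝ (Fin d)) → (EuclideanSpace ℝ (Fin d))) {k : ℕ} (s : (EuclideanSpace ℝ (Fin d)) → (EuclideanSpace ℝ (Fin d)) [⋀^Fin k]→L[ℝ] ℝ) (z : (EuclideanSpace ℝ (Fin d))) : (EuclideanSpace ℝ (Fin d)) [⋀^Fin k]→L[ℝ] ℝ :=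
  ci (s z) (fderiv ℝ g z)

/-- the regular points of `g` in `W` -/
def reg (g : (EuclideanSpace ℝ (Fin d)) → (EuclideanSpace ℝ (Fin d))) (W : Set (EuclideanSpace ℝ (Fin d))) : Set (EuclideanSpace ℝ (Fin d)) := {z | z ∈ W ∧ (fderiv ℝ g z).det ≠ 0}

/-- the push-forward of `s` by the map `g` on `W` -/
def lpush (g : (EuclideanSpace ℝ (Fin d)) → (EuclideanSpace ℝ (Fin d))) (W : Set (EuclideanSpace ℝ (Fin d))) {k : ℕ} (s : (EuclideanSpace ℝ (Fin d)) → (EuclideanSpace ℝ (Fin d)) [⋀^Fin k]→L[ℝ] ℝ) (p : (EuclideanSpace ℝ (Fin d))) :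
    (EuclideanSpace ℝ (Fin d)) [⋀^Fin k]→L[ℝ] ℝ := ∑ᶠ z ∈ fib g W p, hk g s z

theorem isOpen_reg {g : (EuclideanSpace ℝ (Fin d)) → (EuclideanSpace ℝ (Fin d))} {W : Set (EuclideanSpace ℝ (Fin d))} (hW : IsOpen W) (hg : ContDiffOn ℝ ∞ g W) :
    IsOpen (reg g W) := by
  have hL : ContinuousOn (fderiv ℝ g) W := hg.continuousOn_fderiv_of_isOpen hW (by simp)
  have h1 : ContinuousOn (fun z => (fderiv ℝ g z).det) W :=
    ContinuousLinearMap.continuous_det.comp_continuousOn hL
  exact h1.isOpen_inter_preimage hW isOpen_compl_singleton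

theorem continuousOn_mn1 {L : (EuclideanSpace ℝ (Fin d)) → (EuclideanSpace ℝ (Fin d)) →L[ℝ] (EuclideanSpace ℝ (Fin d))} {W : Set (EuclideanSpace ℝ (Fin d))} (h : ContinuousOn L W) (j : Fin d)
    (u : (EuclideanSpace ℝ (Fin d))) : ContinuousOn (fun z => mn1 (L z) j u) W := by
  unfold mn1
  refine vol_continuous.comp_continuousOn (continuousOn_pi.2 fun k => ?_)
  by_cases hkj : k = j
  · subst hkj
    simp only [update_self]
    exact continuousOn_const
  · simp only [update_of_ne hkj]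
    exact h.clm_apply continuousOn_const

/-- the coefficients of `det A • ci s A` are continuous -/
def HasMinors (g : (EuclideanSpace ℝ (Fin d)) → (EuclideanSpace ℝ (Fin d))) (W : Set (EuclideanSpace ℝ (Fin d))) {k : ℕ} (s : (EuclideanSpace ℝ (Fin d)) → (EuclideanSpace ℝ (Fin d)) [⋀^Fin k]→L[ℝ] ℝ) : Prop :=
  ∀ b : Fin k → Fin d, ∃ B : (EuclideanSpace ℝ (Fin d)) → ℝ, ContinuousOn B W ∧
    ∀ z ∈ reg g W, (fderiv ℝ g z).det * hk g s z (fun i => bs d (b i)) = B z

theorem hasMinors_one {g : (EuclideanSpace ℝ (Fin d)) → (EuclideanSpace ℝ (Fin d))} {W : Set (EuclideanSpace ℝ (Fin d))} (hW : IsOpen W) (hg : ContDiffOn ℝ ∞ g W)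
    {s : (EuclideanSpace ℝ (Fin d)) → (EuclideanSpace ℝ (Fin d)) [⋀^Fin 1]→L[ℝ] ℝ} (hs : ContinuousOn s W) : HasMinors g W s := by
  intro b
  have hL : ContinuousOn (fderiv ℝ g) W := hg.continuousOn_fderiv_of_isOpen hW (by simp)
  refine ⟨fun z => ∑ j, mn1 (fderiv ℝ g z) j (bs d (b 0)) * s z ![bs d j], ?_, ?_⟩
  · refine continuousOn_finsetSum _ fun j _ => ?_
    exact (continuousOn_mn1 hL j _).mul
      ((ev (![bs d j] : Fin 1 → (EuclideanSpace ℝ (Fin d)))).continuous.comp_continuousOn hs)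
  · intro z hz
    have h1 : (fun i => bs d (b i)) = ![bs d (b 0)] := by
      funext i
      rw [Subsingleton.elim i 0]
      rfl
    show _ * ci (s z) (fderiv ℝ g z) (fun i => bs d (b i)) = _
    rw [h1]
    exact det_one (s z) hz.2 _

theorem hasMinors_two {g : (EuclideanSpace ℝ (Fin d)) → (EuclideanSpace ℝ (Fin d))} {W : Set (EuclideanSpace ℝ (Fin d))} (hW : IsOpen W) (hg : ContDiffOn ℝ ∞ g W)
    {s : (EuclideanSpace ℝ (Fin d)) → (EuclideanSpace ℝ (Fin d)) [⋀^Fin 2]→L[ℝ] ℝ} (hs : ContinuousOn s W) : HasMinors g W s := by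
  intro b
  have hL : ContDiffOn ℝ ∞ (fderiv ℝ g) W := hg.fderiv_of_isOpen hW (by simp)
  refine ⟨fun z => ∑ j, ∑ i, (if i = j then 0 else
    mn (fderiv ℝ g z) i j (bs d (b 0)) (bs d (b 1)) *
      ((1 / 2 : ℝ) * s z ![bs d i, bs d j])), ?_, ?_⟩
  · refine continuousOn_finsetSum _ fun j _ => continuousOn_finsetSum _ fun i _ => ?_
    by_cases hij : i = j
    · simp only [if_pos hij]
      exact continuousOn_const
    · simp only [if_neg hij]
      exact (contDiffOn_mn hL i j _ _).continuousOn.mul (continuousOn_const.mul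
        ((ev (![bs d i, bs d j] : Fin 2 → (EuclideanSpace ℝ (Fin d)))).continuous.comp_continuousOn hs))
  · intro z hz
    have h1 : (fun i => bs d (b i)) = ![bs d (b 0), bs d (b 1)] := by
      funext i
      fin_cases i <;> rfl
    show _ * ci (s z) (fderiv ℝ g z) (fun i => bs d (b i)) = _
    rw [h1]
    exact det_two (s z) hz.2 _ _

theorem intOn_zero {F : Type} [NormedAddCommGroup F] {f : (EuclideanSpace ℝ (Fin d)) → F} {S T : Set (EuclideanSpace ℝ (Fin d))}
    (h : IntegrableOn f S) (hT : MeasurableSet T) (h0 : ∀ z ∈ T, z ∉ S → f z = 0) :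
    IntegrableOn f T := h.of_forall_sdiff_eq_zero hT fun z hz => h0 z hz.1 hz.2

/-- integrability of `|det| • hk` on the regular part of a compact set -/
theorem intOn_hk {g : (EuclideanSpace ℝ (Fin d)) → (EuclideanSpace ℝ (Fin d))} {W : Set (EuclideanSpace ℝ (Fin d))} (hW : IsOpen W) (hg : ContDiffOn ℝ ∞ g W) {k : ℕ}
    {s : (EuclideanSpace ℝ (Fin d)) → (EuclideanSpace ℝ (Fin d)) [⋀^Fin k]→L[ℝ] ℝ} (hs : HasMinors g W s) {T : Set (EuclideanSpace ℝ (Fin d))} (hT : IsCompact T)
    (hTW : T ⊆ W) :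
    IntegrableOn (fun z => |(fderiv ℝ g z).det| • hk g s z) (T ∩ reg g W) := by
  obtain ⟨P, hP⟩ := exists_recon d k
  choose B hB hB' using hs
  have hRo := isOpen_reg hW hg
  have hS : MeasurableSet (T ∩ reg g W) := hT.measurableSet.inter hRo.measurableSet
  have h1 : IntegrableOn (fun z => P (fun b => B b z)) (T ∩ reg g W) := by
    have h2 : ContinuousOn (fun z => P (fun b => B b z)) T :=
      P.continuous.comp_continuousOn (continuousOn_pi.2 fun b => (hB b).mono hTW)
    exact (h2.integrableOn_compact hT).mono_set inter_subset_left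
  have h3 : IntegrableOn (fun z => (fderiv ℝ g z).det • hk g s z) (T ∩ reg g W) := by
    refine h1.congr_fun (fun z hz => ?_) hS
    show P (fun b => B b z) = (fderiv ℝ g z).det • hk g s z
    rw [← hP ((fderiv ℝ g z).det • hk g s z)]
    congr 1
    funext b
    exact (hB' b z hz.2).symm
  have hL : ContinuousOn (fderiv ℝ g) W := hg.continuousOn_fderiv_of_isOpen hW (by simp)
  have hdet : ContinuousOn (fun z => (fderiv ℝ g z).det) (T ∩ reg g W) :=
    (ContinuousLinearMap.continuous_det.comp_continuousOn hL).mono fun z hz => hz.2.1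
  have hc : ContinuousOn (fun z => |(fderiv ℝ g z).det| / (fderiv ℝ g z).det) (T ∩ reg g W) :=
    hdet.abs.div hdet fun z hz => hz.2.2
  have h4 : ∀ z ∈ T ∩ reg g W, |(fderiv ℝ g z).det| • hk g s z =
      (|(fderiv ℝ g z).det| / (fderiv ℝ g z).det) • ((fderiv ℝ g z).det • hk g s z) := by
    intro z hz
    rw [smul_smul, div_mul_cancel₀ _ hz.2.2]
  refine Integrable.mono h3 ?_ ?_
  · refine ((hc.aestronglyMeasurable hS).smul h3.1).congr ?_
    refine (ae_restrict_iff' hS).2 (Eventually.of_forall fun z hz => ?_)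
    exact (h4 z hz).symm
  · refine Eventually.of_forall fun z => le_of_eq ?_
    rw [norm_smul, norm_smul, Real.norm_eq_abs, Real.norm_eq_abs, abs_abs]

theorem hk_zero {g : (EuclideanSpace ℝ (Fin d)) → (EuclideanSpace ℝ (Fin d))} {k : ℕ} (s : (EuclideanSpace ℝ (Fin d)) → (EuclideanSpace ℝ (Fin d)) [⋀^Fin k]→L[ℝ] ℝ) {z : (EuclideanSpace ℝ (Fin d))} (hz : s z = 0) :
    hk g s z = 0 := by
  unfold hk
  rw [hz]
  rfl

/-- **The integral of a push-forward.** -/
theorem lpush_int {g : (EuclideanSpace ℝ (Fin d)) → (EuclideanSpace ℝ (Fin d))} {W : Set (EuclideanSpace ℝ (Fin d))} (hW : IsOpen W) (hg : ContDiffOn ℝ ∞ g W)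
    (hfin : ∀ p, (fib g W p).Finite) {k : ℕ} (hk0 : k ≠ 0)
    {s : (EuclideanSpace ℝ (Fin d)) → (EuclideanSpace ℝ (Fin d)) [⋀^Fin k]→L[ℝ] ℝ} (hs : HasMinors g W s) {T : Set (EuclideanSpace ℝ (Fin d))} (hT : IsCompact T)
    (hTW : T ⊆ W) (hs0 : ∀ z, z ∉ T → s z = 0) :
    Integrable (lpush g W s) ∧ ∫ p, lpush g W s p =
      ∫ z in reg g W, |(fderiv ℝ g z).det| • hk g s z := by
  have hRo := isOpen_reg hW hg
  have h1 : IntegrableOn (fun z => |(fderiv ℝ g z).det| • hk g s z) (reg g W) := by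
    have h2 := intOn_hk hW hg hs hT hTW
    refine intOn_zero h2 hRo.measurableSet fun z hz hz' => ?_
    have hzT : z ∉ T := fun h3 => hz' ⟨h3, hz⟩
    rw [hk_zero s (hs0 z hzT), smul_zero]
  exact area_formula (g' := fderiv ℝ g)
    (fun z hz => ((hg.contDiffAt (hW.mem_nhds hz)).differentiableAt (by simp)).hasFDerivAt)
    hRo.measurableSet (fun z _ hd => ci_zero hk0 _ hd) hfin h1

theorem lpush_eq_sum {g : (EuclideanSpace ℝ (Fin d)) → (EuclideanSpace ℝ (Fin d))} {W : Set (EuclideanSpace ℝ (Fin d))} {k : ℕ} (s : (EuclideanSpace ℝ (Fin d)) → (EuclideanSpace ℝ (Fin d)) [⋀^Fin k]→L[ℝ] ℝ) {p : (EuclideanSpace ℝ (Fin d))}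
    (hfin : (fib g W p).Finite) : lpush g W s p = ∑ z ∈ hfin.toFinset, hk g s z :=
  finsum_mem_eq_finite_toFinset_sum _ hfin

theorem sum_ev {ι : Type} {k : ℕ} (S : Finset ι) (t : ι → (EuclideanSpace ℝ (Fin d)) [⋀^Fin k]→L[ℝ] ℝ) (v : Fin k → (EuclideanSpace ℝ (Fin d))) :
    (∑ z ∈ S, t z) v = ∑ z ∈ S, t z v := map_sum (ev v) t S

theorem lpush_apply {g : (EuclideanSpace ℝ (Fin d)) → (EuclideanSpace ℝ (Fin d))} {W : Set (EuclideanSpace ℝ (Fin d))} {k : ℕ} (s : (EuclideanSpace ℝ (Fin d)) → (EuclideanSpace ℝ (Fin d)) [⋀^Fin k]→L[ℝ] ℝ) {p : (EuclideanSpace ℝ (Fin d))}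
    (hfin : (fib g W p).Finite) (v : Fin k → (EuclideanSpace ℝ (Fin d))) :
    lpush g W s p v = ∑ z ∈ hfin.toFinset, hk g s z v := by
  rw [lpush_eq_sum s hfin, sum_ev]

/-- **The exterior derivative of a push-forward**, in the sense of distributions -/
theorem weak_lpush {g : (EuclideanSpace ℝ (Fin d)) → (EuclideanSpace ℝ (Fin d))} {W : Set (EuclideanSpace ℝ (Fin d))} (hW : IsOpen W) (hg : ContDiffOn ℝ ∞ g W)
    (hfin : ∀ p, (fib g W p).Finite) (hnull : ∀ᵐ z : (EuclideanSpace ℝ (Fin d)), z ∈ W → (fderiv ℝ g z).det ≠ 0)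
    {γ : (EuclideanSpace ℝ (Fin d)) → (EuclideanSpace ℝ (Fin d)) [⋀^Fin 1]→L[ℝ] ℝ} (hγ : ContDiff ℝ ∞ γ) (hγc : HasCompactSupport γ)
    (hγW : tsupport γ ⊆ W) {c : ℝ} (hc : c = 1 ∨ c = -1)
    (hc' : ∀ z ∈ tsupport γ, 0 ≤ c * (fderiv ℝ g z).det) {φ : (EuclideanSpace ℝ (Fin d)) → ℝ} (hφ : ContDiff ℝ ∞ φ)
    (hφc : HasCompactSupport φ) (u v : (EuclideanSpace ℝ (Fin d))) :
    ∫ p, (lpush g W γ p ![v] * fderiv ℝ φ p u - lpush g W γ p ![u] * fderiv ℝ φ p v) =
      - ∫ p, lpush g W (extDeriv γ) p ![u, v] * φ p := by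
  have hγ0 : ∀ z, z ∉ tsupport γ → γ z = 0 := fun z hz => image_eq_zero_of_notMem_tsupport hz
  have hγW0 : ∀ z, z ∉ tsupport γ → γ =ᶠ[𝓝 z] fun _ => 0 := by
    intro z hz
    filter_upwards [(isClosed_tsupport γ).isOpen_compl.mem_nhds hz] with x hx
    exact hγ0 x hx
  have hTc : IsCompact (tsupport γ) := hγc.isCompact
  -- the product with `φ ∘ g`
  set γ' : (EuclideanSpace ℝ (Fin d)) → (EuclideanSpace ℝ (Fin d)) [⋀^Fin 1]→L[ℝ] ℝ := fun z => φ (g z) • γ z with hγ'
  have hγ's : ContDiff ℝ ∞ γ' := by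
    rw [contDiff_iff_contDiffAt]
    intro z
    by_cases hz : z ∈ tsupport γ
    · have h1 : ContDiffAt ℝ ∞ g z := hg.contDiffAt (hW.mem_nhds (hγW hz))
      exact (hφ.contDiffAt.comp z h1).smul hγ.contDiffAt
    · have h1 : γ' =ᶠ[𝓝 z] fun _ => 0 := by
        filter_upwards [hγW0 z hz] with x hx
        show φ (g x) • γ x = 0
        rw [hx, smul_zero]
      exact contDiffAt_const.congr_of_eventuallyEq h1
  have hγ't : tsupport γ' ⊆ tsupport γ := by
    refine closure_mono fun z hz => ?_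
    intro h0
    apply hz
    show φ (g z) • γ z = 0
    rw [h0, smul_zero]
  have hγ'c : HasCompactSupport γ' := hTc.of_isClosed_subset (isClosed_tsupport γ') hγ't
  have hext0 : ∀ z, z ∉ tsupport γ → extDeriv γ z = 0 := by
    intro z hz
    have h1 : fderiv ℝ γ z = 0 := by
      rw [(hγW0 z hz).fderiv_eq]
      exact fderiv_const_apply 0
    unfold extDeriv
    rw [h1]
    exact map_zero (ContinuousAlternatingMap.alternatizeUncurryFinCLM ℝ (EuclideanSpace ℝ (Fin d)) ℝ)
  have hext0' : ∀ z, z ∉ tsupport γ → extDeriv γ' z = 0 := by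
    intro z hz
    have h1 : fderiv ℝ γ' z = 0 := by
      have h2 : γ' =ᶠ[𝓝 z] fun _ => 0 := by
        filter_upwards [hγW0 z hz] with x hx
        show φ (g x) • γ x = 0
        rw [hx, smul_zero]
      rw [h2.fderiv_eq]
      exact fderiv_const_apply 0
    unfold extDeriv
    rw [h1]
    exact map_zero (ContinuousAlternatingMap.alternatizeUncurryFinCLM ℝ (EuclideanSpace ℝ (Fin d)) ℝ)
  have hextc : ContinuousOn (extDeriv γ) W := by
    refine Continuous.continuousOn ?_
    exact (ContinuousAlternatingMap.alternatizeUncurryFinCLM ℝ (EuclideanSpace ℝ (Fin d)) ℝ).continuous.comp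
      (hγ.continuous_fderiv (by simp))
  have hextc' : ContinuousOn (extDeriv γ') W := by
    refine Continuous.continuousOn ?_
    exact (ContinuousAlternatingMap.alternatizeUncurryFinCLM ℝ (EuclideanSpace ℝ (Fin d)) ℝ).continuous.comp
      (hγ's.continuous_fderiv (by simp))
  -- the pointwise identity
  have key : ∀ z ∈ W, hk g (extDeriv γ') z ![u, v] = φ (g z) * hk g (extDeriv γ) z ![u, v] +
      fderiv ℝ φ (g z) u * hk g γ z ![v] - fderiv ℝ φ (g z) v * hk g γ z ![u] := by
    intro z hz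
    by_cases hd : (fderiv ℝ g z).det = 0
    · unfold hk
      rw [ci_zero two_ne_zero _ hd, ci_zero two_ne_zero _ hd, ci_zero one_ne_zero _ hd]
      show (0 : ℝ) = φ (g z) * 0 + fderiv ℝ φ (g z) u * 0 - fderiv ℝ φ (g z) v * 0
      ring
    · have hI := (inv_iff (fderiv ℝ g z)).2 hd
      unfold hk
      rw [ci_two, ci_two, ci_one, ci_one]
      set a := (fderiv ℝ g z).inverse u with ha
      set b := (fderiv ℝ g z).inverse v with hb
      have ha' : fderiv ℝ g z a = u := hI.self_apply_inverse u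
      have hb' : fderiv ℝ g z b = v := hI.self_apply_inverse v
      have hgz : DifferentiableAt ℝ g z :=
        (hg.contDiffAt (hW.mem_nhds hz)).differentiableAt (by simp)
      have h1 : HasFDerivAt (fun z => φ (g z)) ((fderiv ℝ φ (g z)).comp (fderiv ℝ g z)) z :=
        (hφ.differentiable (by simp) (g z)).hasFDerivAt.comp z hgz.hasFDerivAt
      have h2 : HasFDerivAt γ (fderiv ℝ γ z) z := (hγ.differentiable (by simp) z).hasFDerivAt
      have h3 := (h1.smul h2).fderiv
      have h4 : ∀ x y : (EuclideanSpace ℝ (Fin d)), fderiv ℝ γ' z x ![y] = φ (g z) * fderiv ℝ γ z x ![y] +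
          fderiv ℝ φ (g z) (fderiv ℝ g z x) * γ z ![y] := by
        intro x y
        have h5 : fderiv ℝ γ' z = φ (g z) • fderiv ℝ γ z +
          (((fderiv ℝ φ (g z)).comp (fderiv ℝ g z)).smulRight (γ z)) := h3
        rw [h5]
        rfl
      rw [extDeriv_pair (hγ's.differentiable (by simp) z), extDeriv_pair
        (hγ.differentiable (by simp) z), h4, h4, ha', hb']
      ring
  have hpoint : ∀ p, lpush g W (extDeriv γ') p ![u, v] =
      φ p * lpush g W (extDeriv γ) p ![u, v] +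
      fderiv ℝ φ p u * lpush g W γ p ![v] - fderiv ℝ φ p v * lpush g W γ p ![u] := by
    intro p
    rw [lpush_apply _ (hfin p), lpush_apply _ (hfin p), lpush_apply _ (hfin p),
      lpush_apply _ (hfin p), Finset.mul_sum, Finset.mul_sum, Finset.mul_sum,
      ← Finset.sum_add_distrib, ← Finset.sum_sub_distrib]
    refine Finset.sum_congr rfl fun z hz => ?_
    rw [Finite.mem_toFinset] at hz
    rw [key z hz.1, hz.2]
  -- the integrals
  obtain ⟨i1, -⟩ := lpush_int hW hg hfin one_ne_zero (hasMinors_one hW hg hγ.continuous.continuousOn)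
    hTc hγW hγ0
  obtain ⟨i2, -⟩ := lpush_int hW hg hfin two_ne_zero (hasMinors_two hW hg hextc)
    hTc hγW hext0
  obtain ⟨i3, e3⟩ := lpush_int hW hg hfin two_ne_zero (hasMinors_two hW hg hextc')
    hTc hγW hext0'
  have hφ0 : ∀ z, z ∉ tsupport φ → φ z = 0 := fun z hz => image_eq_zero_of_notMem_tsupport hz
  have hdφ : ∀ w, Continuous (fun z => fderiv ℝ φ z w) := fun w =>
    (hφ.continuous_fderiv (by simp)).clm_apply continuous_const
  have hdφ0 : ∀ w z, z ∉ tsupport φ → fderiv ℝ φ z w = 0 := by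
    intro w z hz
    have h1 : φ =ᶠ[𝓝 z] fun _ => 0 := by
      filter_upwards [(isClosed_tsupport φ).isOpen_compl.mem_nhds hz] with x hx
      exact hφ0 x hx
    rw [h1.fderiv_eq]
    simp
  have j1 : ∀ w w' : (EuclideanSpace ℝ (Fin d)), Integrable (fun p => lpush g W γ p ![w] * fderiv ℝ φ p w') := by
    intro w w'
    have h1 := int_bilin (ContinuousLinearMap.mul ℝ ℝ) hφc.isCompact (subset_univ _) (hdφ w')
      (hdφ0 w') (((ev (![w] : Fin 1 → (EuclideanSpace ℝ (Fin d)))).integrable_comp i1).locallyIntegrable.locallyIntegrableOn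
        univ)
    refine h1.congr (Eventually.of_forall fun z => ?_)
    exact mul_comm _ _
  have j2 : Integrable (fun p => lpush g W (extDeriv γ) p ![u, v] * φ p) := by
    have h1 := int_bilin (ContinuousLinearMap.mul ℝ ℝ) hφc.isCompact (subset_univ _)
      hφ.continuous hφ0 (((ev (![u, v] : Fin 2 → (EuclideanSpace ℝ (Fin d)))).integrable_comp
        i2).locallyIntegrable.locallyIntegrableOn univ)
    refine h1.congr (Eventually.of_forall fun z => ?_)
    exact mul_comm _ _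
  have hzero : ∫ p, lpush g W (extDeriv γ') p ![u, v] = 0 := by
    have h1 : ∫ p, lpush g W (extDeriv γ') p ![u, v] =
        (∫ p, lpush g W (extDeriv γ') p) ![u, v] :=
      (ev (![u, v] : Fin 2 → (EuclideanSpace ℝ (Fin d)))).integral_comp_comm i3
    have hi : IntegrableOn (fun z => |(fderiv ℝ g z).det| • hk g (extDeriv γ') z) (reg g W) := by
      refine intOn_zero (intOn_hk hW hg (hasMinors_two hW hg hextc') hTc hγW)
        (isOpen_reg hW hg).measurableSet fun z hz hz' => ?_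
      have hzT : z ∉ tsupport γ := fun h3 => hz' ⟨h3, hz⟩
      rw [hk_zero _ (hext0' z hzT), smul_zero]
    have h2 : (∫ z in reg g W, |(fderiv ℝ g z).det| • hk g (extDeriv γ') z) ![u, v] =
        ∫ z in reg g W, |(fderiv ℝ g z).det| * hk g (extDeriv γ') z ![u, v] :=
      ((ev (![u, v] : Fin 2 → (EuclideanSpace ℝ (Fin d)))).integral_comp_comm hi).symm
    rw [h1, e3, h2]
    have h3 : ∫ z in reg g W, |(fderiv ℝ g z).det| * hk g (extDeriv γ') z ![u, v] =
        ∫ z in reg g W, c * ∑ j, ∑ i, (if i = j then 0 else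
          mn (fderiv ℝ g z) i j u v * fderiv ℝ γ' z (bs d i) ![bs d j]) := by
      refine setIntegral_congr_fun (isOpen_reg hW hg).measurableSet fun z hz => ?_
      show |(fderiv ℝ g z).det| * ci (extDeriv γ' z) (fderiv ℝ g z) ![u, v] = _
      rw [← det_ext (hγ's.differentiable (by simp) z) hz.2]
      by_cases hzT : z ∈ tsupport γ
      · have h4 := hc' z hzT
        have h5 : |(fderiv ℝ g z).det| = c * (fderiv ℝ g z).det := by
          rw [← abs_of_nonneg h4, abs_mul]
          rcases hc with hc | hc <;> rw [hc] <;> simp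
        rw [h5]
        ring
      · rw [hext0' z hzT]
        show |(fderiv ℝ g z).det| * 0 = c * ((fderiv ℝ g z).det * 0)
        ring
    rw [h3, integral_const_mul, setIntegral_eq_integral_of_ae_compl_eq_zero,
      piola_minors hW hg hγ's hγ'c (hγ't.trans hγW) u v, mul_zero]
    filter_upwards [hnull] with z hz hzR
    have hzT : z ∉ tsupport γ' := fun h => hzR ⟨hγW (hγ't h), hz (hγW (hγ't h))⟩
    refine Finset.sum_eq_zero fun j _ => Finset.sum_eq_zero fun i _ => ?_
    have h4 : fderiv ℝ γ' z = 0 := by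
      have h5 : γ' =ᶠ[𝓝 z] fun _ => 0 := by
        filter_upwards [(isClosed_tsupport γ').isOpen_compl.mem_nhds hzT] with x hx
        exact image_eq_zero_of_notMem_tsupport hx
      rw [h5.fderiv_eq]
      exact fderiv_const_apply 0
    rw [h4]
    show (if i = j then (0 : ℝ) else mn (fderiv ℝ g z) i j u v * 0) = 0
    rw [mul_zero, ite_self]
  have hsum : ∫ p, lpush g W (extDeriv γ') p ![u, v] =
      (∫ p, lpush g W (extDeriv γ) p ![u, v] * φ p) +
      ∫ p, (lpush g W γ p ![v] * fderiv ℝ φ p u - lpush g W γ p ![u] * fderiv ℝ φ p v) := by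
    have j3 : Integrable (fun p => lpush g W γ p ![v] * fderiv ℝ φ p u -
      lpush g W γ p ![u] * fderiv ℝ φ p v) := (j1 v u).sub (j1 u v)
    rw [← integral_add j2 j3]
    refine integral_congr_ae (Eventually.of_forall fun p => ?_)
    show lpush g W (extDeriv γ') p ![u, v] = _
    rw [hpoint p]
    ring
  rw [hzero] at hsum
  linarith

end Pool.Agent.H819.BC
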