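import Mathlib
import Pool.Agent.H819.BC.LPush
import Pool.Agent.H819.LG.Inv

/-!
# The push-forward of forms under a smooth map with finite fibres
-/

set_option autoImplicit false

open Set Filter Topology MeasureTheory Metric Function
open scoped Manifold ContDiff

noncomputable section

namespace Pool.Agent.H819.BC

open Pool.Agent.Y501.SY
open Pool.Agent.Y455.SY (A B AB BA)

variable {d : ℕ} {X : Type} [TopologicalSpace X] [ChartedSpace (E d) X]
  {Y : Type} [TopologicalSpace Y] [ChartedSpace (E d) Y]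

/-- the derivative of `f` -/
def Df (f : X → Y) (x : X) : E d →L[ℝ] E d := mfderiv (𝓡 d) (𝓡 d) f x

/-- the push-forward of a form -/
def push (f : X → Y) {k : ℕ} (τ : Form d X k) : Form d Y k := fun y =>
  ∑ᶠ x ∈ f ⁻¹' {y}, ci (τ x) (Df f x)

/-- `f` in the charts at `x₁` and `y₀` -/
def lc (f : X → Y) (x₁ : X) (y₀ : Y) (z : E d) : E d :=
  chartAt (E d) y₀ (f ((chartAt (E d) x₁).symm z))

/-- the domain of `f` in the charts at `x₁` and `y₀` -/
def Wc (f : X → Y) (x₁ : X) (y₀ : Y) : Set (E d) :=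
  (chartAt (E d) x₁).target ∩ (chartAt (E d) x₁).symm ⁻¹' (f ⁻¹' (chartAt (E d) y₀).source)

theorem isOpen_Wc {f : X → Y} (hf : Continuous f) (x₁ : X) (y₀ : Y) :
    IsOpen (Wc (d := d) f x₁ y₀) :=
  (chartAt (E d) x₁).symm.isOpen_inter_preimage ((chartAt (E d) y₀).open_source.preimage hf)

theorem fib_lc_finite {f : X → Y} (hfin : ∀ y, (f ⁻¹' {y}).Finite) (x₁ : X) (y₀ : Y) (p : E d) :
    (fib (lc f x₁ y₀) (Wc f x₁ y₀) p).Finite := by
  refine Set.Finite.of_finite_image (f := (chartAt (E d) x₁).symm)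
    ((hfin ((chartAt (E d) y₀).symm p)).subset ?_) ?_
  · rintro _ ⟨z, ⟨hz, hp⟩, rfl⟩
    show f ((chartAt (E d) x₁).symm z) = (chartAt (E d) y₀).symm p
    rw [← hp]
    exact ((chartAt (E d) y₀).left_inv hz.2).symm
  · intro z hz z' hz' h
    exact (chartAt (E d) x₁).symm.injOn hz.1.1 hz'.1.1 h

section

variable [IsManifold (𝓡 d) ∞ X] [IsManifold (𝓡 d) ∞ Y]

theorem contDiffOn_lc {f : X → Y} (hf : ContMDiff (𝓡 d) (𝓡 d) ∞ f) (x₁ : X) (y₀ : Y) :
    ContDiffOn ℝ ∞ (lc (d := d) f x₁ y₀) (Wc (d := d) f x₁ y₀) := by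
  rw [← contMDiffOn_iff_contDiffOn]
  intro z hz
  have h1 : ContMDiffAt (𝓡 d) (𝓡 d) ∞ (chartAt (E d) x₁).symm z :=
    contMDiffOn_chart_symm.contMDiffAt ((chartAt (E d) x₁).open_target.mem_nhds hz.1)
  have h2 : ContMDiffAt (𝓡 d) (𝓡 d) ∞ (chartAt (E d) y₀) (f ((chartAt (E d) x₁).symm z)) :=
    contMDiffOn_chart.contMDiffAt ((chartAt (E d) y₀).open_source.mem_nhds hz.2)
  have h3 : ContMDiffAt (𝓡 d) (𝓡 d) ∞ (fun z => f ((chartAt (E d) x₁).symm z)) z :=
    (hf _).comp z h1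
  exact (h2.comp z h3).contMDiffWithinAt

/-- the chart is invertible -/
theorem A_inv (x : X) {p : E d} (hp : p ∈ (chartAt (E d) x).target) :
    (A x p).IsInvertible ∧ (B x p).IsInvertible ∧ (A x p).inverse = B x p ∧
      (B x p).inverse = A x p := by
  have h1 : (A x p).comp (B x p) = ContinuousLinearMap.id ℝ (E d) := by
    ext1 v
    exact AB x hp v
  have h2 : (B x p).comp (A x p) = ContinuousLinearMap.id ℝ (E d) := by
    ext1 v
    exact BA x hp v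
  exact ⟨ContinuousLinearMap.IsInvertible.of_inverse h1 h2,
    ContinuousLinearMap.IsInvertible.of_inverse h2 h1,
    ContinuousLinearMap.inverse_eq h1 h2, ContinuousLinearMap.inverse_eq h2 h1⟩

omit [IsManifold (𝓡 d) ∞ X] [IsManifold (𝓡 d) ∞ Y] in
theorem lc_mem {f : X → Y} {x₁ : X} {y₀ : Y} {z : E d} (hz : z ∈ Wc f x₁ y₀) :
    lc f x₁ y₀ z ∈ (chartAt (E d) y₀).target := (chartAt (E d) y₀).map_source hz.2

omit [IsManifold (𝓡 d) ∞ X] [IsManifold (𝓡 d) ∞ Y] in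
theorem symm_lc {f : X → Y} {x₁ : X} {y₀ : Y} {z : E d} (hz : z ∈ Wc f x₁ y₀) :
    (chartAt (E d) y₀).symm (lc f x₁ y₀ z) = f ((chartAt (E d) x₁).symm z) :=
  (chartAt (E d) y₀).left_inv hz.2

/-- the derivative of `f` in the charts -/
theorem fderiv_lc {f : X → Y} (hf : ContMDiff (𝓡 d) (𝓡 d) ∞ f) {x₁ : X} {y₀ : Y} {z : E d}
    (hz : z ∈ Wc f x₁ y₀) : fderiv ℝ (lc f x₁ y₀) z =
      (B y₀ (lc f x₁ y₀ z)).comp ((Df f ((chartAt (E d) x₁).symm z)).comp (A x₁ z)) := by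
  have h1 : MDifferentiableAt (𝓡 d) (𝓡 d) (chartAt (E d) x₁).symm z :=
    (contMDiffOn_chart_symm.contMDiffAt (n := ∞)
      ((chartAt (E d) x₁).open_target.mem_nhds hz.1)).mdifferentiableAt (by simp)
  have h2 : MDifferentiableAt (𝓡 d) (𝓡 d) (chartAt (E d) y₀) (f ((chartAt (E d) x₁).symm z)) :=
    (contMDiffOn_chart.contMDiffAt (n := ∞)
      ((chartAt (E d) y₀).open_source.mem_nhds hz.2)).mdifferentiableAt (by simp)
  have h3 : MDifferentiableAt (𝓡 d) (𝓡 d) f ((chartAt (E d) x₁).symm z) :=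
    (hf _).mdifferentiableAt (by simp)
  have h4 : mfderiv (𝓡 d) (𝓡 d) (lc f x₁ y₀) z =
      (mfderiv (𝓡 d) (𝓡 d) (chartAt (E d) y₀) (f ((chartAt (E d) x₁).symm z))).comp
        ((mfderiv (𝓡 d) (𝓡 d) f ((chartAt (E d) x₁).symm z)).comp
          (mfderiv (𝓡 d) (𝓡 d) (chartAt (E d) x₁).symm z)) := by
    have h5 := mfderiv_comp z h2 (h3.comp z h1)
    rw [mfderiv_comp z h3 h1] at h5
    exact h5
  have h5 : fderiv ℝ (lc f x₁ y₀) z = mfderiv (𝓡 d) (𝓡 d) (lc f x₁ y₀) z :=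
    (mfderiv_eq_fderiv (f := lc f x₁ y₀)).symm
  rw [h5, h4]
  unfold B
  rw [symm_lc hz]
  rfl

theorem inverse_lc {f : X → Y} (hf : ContMDiff (𝓡 d) (𝓡 d) ∞ f) {x₁ : X} {y₀ : Y} {z : E d}
    (hz : z ∈ Wc f x₁ y₀) (v : E d) :
    (Df f ((chartAt (E d) x₁).symm z)).inverse (A y₀ (lc f x₁ y₀ z) v) =
      A x₁ z ((fderiv ℝ (lc f x₁ y₀) z).inverse v) := by
  obtain ⟨a1, a2, a3, a4⟩ := A_inv x₁ hz.1
  obtain ⟨b1, b2, b3, b4⟩ := A_inv y₀ (lc_mem hz)
  rw [fderiv_lc hf hz, b2.inverse_comp_of_left, a1.inverse_comp_of_right, b4, a3]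
  exact (AB x₁ hz.1 _).symm

theorem det_lc {f : X → Y} (hf : ContMDiff (𝓡 d) (𝓡 d) ∞ f) {x₁ : X} {y₀ : Y} {z : E d}
    (hz : z ∈ Wc f x₁ y₀) : (fderiv ℝ (lc f x₁ y₀) z).det ≠ 0 ↔
      (Df (d := d) f ((chartAt (E d) x₁).symm z)).IsInvertible := by
  obtain ⟨⟨a, ha⟩, -⟩ := A_inv x₁ hz.1
  obtain ⟨-, ⟨b, hb⟩, -⟩ := A_inv y₀ (lc_mem hz)
  rw [← inv_iff, fderiv_lc hf hz, ← hb, ContinuousLinearMap.isInvertible_equiv_comp, ← ha,
    ContinuousLinearMap.isInvertible_comp_equiv]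

/-- a form in the chart, extended by zero -/
def cutF (x₁ : X) {k : ℕ} (τ : Form d X k) (z : E d) : (E d) [⋀^Fin k]→L[ℝ] ℝ :=
  letI := Classical.propDecidable (z ∈ (chartAt (E d) x₁).target)
  if z ∈ (chartAt (E d) x₁).target then pb (chartAt (E d) x₁).symm τ z else 0

omit [IsManifold (𝓡 d) ∞ X] in
theorem cutF_mem (x₁ : X) {k : ℕ} (τ : Form d X k) {z : E d}
    (hz : z ∈ (chartAt (E d) x₁).target) : cutF x₁ τ z = pb (chartAt (E d) x₁).symm τ z :=
  if_pos hz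

omit [IsManifold (𝓡 d) ∞ X] in
theorem cutF_zero {x₁ : X} {k : ℕ} {τ : Form d X k} {S : Set X}
    (hτ : ∀ x, x ∉ S → τ x = 0) {z : E d} (hz : z ∉ chartAt (E d) x₁ '' S) :
    cutF x₁ τ z = 0 := by
  by_cases h : z ∈ (chartAt (E d) x₁).target
  · rw [cutF_mem x₁ τ h]
    unfold pb
    rw [hτ]
    · rfl
    · intro hS
      exact hz ⟨_, hS, (chartAt (E d) x₁).right_inv h⟩
  · exact if_neg h

omit [IsManifold (𝓡 d) ∞ X] in
theorem isCompact_image {x₁ : X} {S : Set X} (hS : IsCompact S)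
    (hSs : S ⊆ (chartAt (E d) x₁).source) : IsCompact (chartAt (E d) x₁ '' S) :=
  hS.image_of_continuousOn ((chartAt (E d) x₁).continuousOn.mono hSs)

omit [IsManifold (𝓡 d) ∞ X] in
theorem image_subset {x₁ : X} {S : Set X} (hSs : S ⊆ (chartAt (E d) x₁).source) :
    chartAt (E d) x₁ '' S ⊆ (chartAt (E d) x₁).target := by
  rintro _ ⟨x, hx, rfl⟩
  exact (chartAt (E d) x₁).map_source (hSs hx)

theorem contDiff_cutF {x₁ : X} {k : ℕ} {τ : Form d X k} (hτ : IsSmooth τ) {S : Set X}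
    (hS : IsCompact S) (hSs : S ⊆ (chartAt (E d) x₁).source) (hτ0 : ∀ x, x ∉ S → τ x = 0) :
    ContDiff ℝ ∞ (cutF x₁ τ) := by
  rw [contDiff_iff_contDiffAt]
  intro z
  by_cases hz : z ∈ (chartAt (E d) x₁).target
  · have h1 : cutF x₁ τ =ᶠ[𝓝 z] pb (chartAt (E d) x₁).symm τ := by
      filter_upwards [(chartAt (E d) x₁).open_target.mem_nhds hz] with y hy
      exact cutF_mem x₁ τ hy
    exact ((Pool.Agent.H819.LG.smooth_chart hτ x₁).contDiffAt
      ((chartAt (E d) x₁).open_target.mem_nhds hz)).congr_of_eventuallyEq h1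
  · have h1 : z ∉ chartAt (E d) x₁ '' S := fun h => hz (image_subset hSs h)
    have h2 : cutF x₁ τ =ᶠ[𝓝 z] fun _ => 0 := by
      filter_upwards [(isCompact_image hS hSs).isClosed.isOpen_compl.mem_nhds h1] with y hy
      exact cutF_zero hτ0 hy
    exact contDiffAt_const.congr_of_eventuallyEq h2

omit [IsManifold (𝓡 d) ∞ X] in
theorem tsupport_cutF {x₁ : X} {k : ℕ} {τ : Form d X k} {S : Set X}
    (hS : IsCompact S) (hSs : S ⊆ (chartAt (E d) x₁).source) (hτ0 : ∀ x, x ∉ S → τ x = 0) :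
    tsupport (cutF x₁ τ) ⊆ chartAt (E d) x₁ '' S := by
  refine closure_minimal ?_ (isCompact_image hS hSs).isClosed
  intro z hz
  by_contra h
  exact hz (cutF_zero hτ0 h)

theorem extDeriv_cutF {x₁ : X} {k : ℕ} {τ : Form d X k} {η : Form d X (k + 1)} (h : IsD τ η)
    {S : Set X} (hS : IsCompact S) (hSs : S ⊆ (chartAt (E d) x₁).source)
    (hτ0 : ∀ x, x ∉ S → τ x = 0) (hη0 : ∀ x, x ∉ S → η x = 0) :
    extDeriv (cutF x₁ τ) = cutF x₁ η := by
  funext z
  by_cases hz : z ∈ (chartAt (E d) x₁).target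
  · have h1 : cutF x₁ τ =ᶠ[𝓝 z] pb (chartAt (E d) x₁).symm τ := by
      filter_upwards [(chartAt (E d) x₁).open_target.mem_nhds hz] with y hy
      exact cutF_mem x₁ τ hy
    rw [cutF_mem x₁ η hz, h1.extDeriv_eq]
    exact h _ _ (chartAt (E d) x₁).open_target contMDiffOn_chart_symm z hz
  · have h1 : z ∉ chartAt (E d) x₁ '' S := fun h => hz (image_subset hSs h)
    have h2 : cutF x₁ τ =ᶠ[𝓝 z] fun _ => 0 := by
      filter_upwards [(isCompact_image hS hSs).isClosed.isOpen_compl.mem_nhds h1] with y hy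
      exact cutF_zero hτ0 hy
    rw [h2.extDeriv_eq, cutF_zero hη0 h1]
    unfold extDeriv
    rw [fderiv_fun_const]
    exact map_zero (ContinuousAlternatingMap.alternatizeUncurryFinCLM ℝ (E d) ℝ)

/-- **the push-forward in a chart** of a form supported in a chart -/
theorem push_chart {f : X → Y} (hf : ContMDiff (𝓡 d) (𝓡 d) ∞ f)
    (hfin : ∀ y, (f ⁻¹' {y}).Finite) {x₁ : X} {y₀ : Y} {k : ℕ} {τ : Form d X k}
    (hτ0 : ∀ x, x ∉ (chartAt (E d) x₁).source → τ x = 0) {p : E d}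
    (hp : p ∈ (chartAt (E d) y₀).target) :
    pb (chartAt (E d) y₀).symm (push f τ) p =
      lpush (lc f x₁ y₀) (Wc f x₁ y₀) (cutF x₁ τ) p := by
  have e1 : pb (chartAt (E d) y₀).symm (push f τ) p =
      ∑ᶠ x ∈ f ⁻¹' {(chartAt (E d) y₀).symm p},
        (ci (τ x) (Df f x)).compContinuousLinearMap (A y₀ p) :=
    AddMonoidHom.map_finsum_mem (fun x => ci (τ x) (Df f x))
      (ContinuousAlternatingMap.compContinuousLinearMapCLM (A y₀ p) :
        ((E d) [⋀^Fin k]→L[ℝ] ℝ) →L[ℝ] ((E d) [⋀^Fin k]→L[ℝ] ℝ)).toLinearMap.toAddMonoidHom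
      (hfin _)
  rw [e1]
  have e2 : ∑ᶠ x ∈ f ⁻¹' {(chartAt (E d) y₀).symm p},
        (ci (τ x) (Df f x)).compContinuousLinearMap (A y₀ p) =
      ∑ᶠ x ∈ f ⁻¹' {(chartAt (E d) y₀).symm p} ∩ (chartAt (E d) x₁).source,
        (ci (τ x) (Df f x)).compContinuousLinearMap (A y₀ p) := by
    refine finsum_mem_inter_support_eq' _ _ _ fun x hx => ?_
    refine ⟨fun h => ⟨h, ?_⟩, fun h => h.1⟩
    by_contra h1
    apply hx
    show (ci (τ x) (Df f x)).compContinuousLinearMap (A y₀ p) = 0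
    rw [hτ0 x h1]
    rfl
  rw [e2]
  unfold lpush
  refine finsum_mem_eq_of_bijOn (chartAt (E d) x₁) ⟨?_, ?_, ?_⟩ ?_
  · intro x hx
    have h1 : (chartAt (E d) x₁).symm (chartAt (E d) x₁ x) = x := (chartAt (E d) x₁).left_inv hx.2
    have h2 : f x = (chartAt (E d) y₀).symm p := hx.1
    refine ⟨⟨(chartAt (E d) x₁).map_source hx.2, ?_⟩, ?_⟩
    · show f ((chartAt (E d) x₁).symm (chartAt (E d) x₁ x)) ∈ (chartAt (E d) y₀).source
      rw [h1, h2]
      exact (chartAt (E d) y₀).map_target hp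
    · show chartAt (E d) y₀ (f ((chartAt (E d) x₁).symm (chartAt (E d) x₁ x))) = p
      rw [h1, h2]
      exact (chartAt (E d) y₀).right_inv hp
  · intro x hx x' hx' h
    exact (chartAt (E d) x₁).injOn hx.2 hx'.2 h
  · intro z hz
    refine ⟨(chartAt (E d) x₁).symm z, ⟨?_, (chartAt (E d) x₁).map_target hz.1.1⟩,
      (chartAt (E d) x₁).right_inv hz.1.1⟩
    show f ((chartAt (E d) x₁).symm z) = (chartAt (E d) y₀).symm p
    rw [← hz.2]
    exact (symm_lc hz.1).symm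
  · intro x hx
    have h1 : (chartAt (E d) x₁).symm (chartAt (E d) x₁ x) = x := (chartAt (E d) x₁).left_inv hx.2
    have h2 : f x = (chartAt (E d) y₀).symm p := hx.1
    set z := chartAt (E d) x₁ x with hz
    have hzt : z ∈ (chartAt (E d) x₁).target := (chartAt (E d) x₁).map_source hx.2
    have hzW : z ∈ Wc f x₁ y₀ := by
      refine ⟨hzt, ?_⟩
      show f ((chartAt (E d) x₁).symm z) ∈ (chartAt (E d) y₀).source
      rw [h1, h2]
      exact (chartAt (E d) y₀).map_target hp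
    have hlc : lc f x₁ y₀ z = p := by
      show chartAt (E d) y₀ (f ((chartAt (E d) x₁).symm z)) = p
      rw [h1, h2]
      exact (chartAt (E d) y₀).right_inv hp
    ext v
    have h3 : ∀ w : E d, (Df f x).inverse (A y₀ p w) =
        A x₁ z ((fderiv ℝ (lc f x₁ y₀) z).inverse w) := by
      intro w
      have := inverse_lc hf hzW w
      rw [h1, hlc] at this
      exact this
    have h4 : hk (lc f x₁ y₀) (cutF x₁ τ) z v =
        τ ((chartAt (E d) x₁).symm z) (fun i => A x₁ z ((fderiv ℝ (lc f x₁ y₀) z).inverse (v i))) := by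
      unfold hk
      rw [cutF_mem x₁ τ hzt]
      rfl
    rw [h4, h1]
    have h5 : (ci (τ x) (Df f x)).compContinuousLinearMap (A y₀ p) v =
        τ x (fun i => (Df f x).inverse (A y₀ p (v i))) := rfl
    rw [h5]
    congr 1
    funext i
    exact h3 (v i)

end

end Pool.Agent.H819.BC
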