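import Mathlib
import Pool.Agent.H819.BC.Push

/-!
# The exterior derivative of a push-forward
-/

set_option autoImplicit false

open Set Filter Topology MeasureTheory Metric Function
open scoped Manifold ContDiff

noncomputable section

namespace Pool.Agent.H819.BC

open Pool.Agent.Y501.SY
open Pool.Agent.Y455.SY (A B AB BA)
open Pool.Agent.Y431.SY (ev ev_apply)
open Pool.Agent.H819.LG (int_bilin WeakPrim prodD_zero sum_prodD inChart_sq)

variable {d : ℕ} {X : Type} [TopologicalSpace X] [ChartedSpace (E d) X]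
  {Y : Type} [TopologicalSpace Y] [ChartedSpace (E d) Y]

theorem int_sum {F ι : Type} [NormedAddCommGroup F] (s : Finset ι) {f : ι → E d → F}
    (h : ∀ i ∈ s, Integrable (f i)) : Integrable (fun z => ∑ i ∈ s, f i z) :=
  integrable_finsetSum s h

/-- `f` is a pseudoholomorphic branched covering with `m` sheets -/
structure Cover (f : X → Y) (JX : End d X) (JY : End d Y) (m : ℕ) : Prop where
  smooth : ContMDiff (𝓡 d) (𝓡 d) ∞ f
  hol : ∀ (x : X) (v : E d), Df f x (JX x v) = JY (f x) (Df f x v)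
  fin : ∀ y, (f ⁻¹' {y}).Finite
  inv : ∀ x₀ : X, ∀ᵐ z ∂(volume.restrict (chartAt (E d) x₀).target),
    (Df (d := d) f ((chartAt (E d) x₀).symm z)).IsInvertible
  count : ∀ y₀ : Y, ∀ᵐ z ∂(volume.restrict (chartAt (E d) y₀).target),
    (f ⁻¹' {(chartAt (E d) y₀).symm z}).ncard = m

section

variable [IsManifold (𝓡 d) ∞ X] [IsManifold (𝓡 d) ∞ Y]

omit [IsManifold (𝓡 d) ∞ X] in
theorem inChart_apply (J : End d X) (x₀ : X) (z v : E d) :
    inChart J x₀ z v = B x₀ z (J ((chartAt (E d) x₀).symm z) (A x₀ z v)) := rfl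

/-- `f` is pseudoholomorphic in the charts -/
theorem hol_lc {f : X → Y} {JX : End d X} {JY : End d Y} (hf : ContMDiff (𝓡 d) (𝓡 d) ∞ f)
    (hol : ∀ (x : X) (v : E d), Df f x (JX x v) = JY (f x) (Df f x v)) {x₁ : X} {y₀ : Y}
    {z : E d} (hz : z ∈ Wc f x₁ y₀) (v : E d) :
    inChart JY y₀ (lc f x₁ y₀ z) (fderiv ℝ (lc f x₁ y₀) z v) =
      fderiv ℝ (lc f x₁ y₀) z (inChart JX x₁ z v) := by
  have h1 : ∀ w : E d, fderiv ℝ (lc f x₁ y₀) z w =
      B y₀ (lc f x₁ y₀ z) (Df f ((chartAt (E d) x₁).symm z) (A x₁ z w)) := by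
    intro w
    rw [fderiv_lc hf hz]
    rfl
  rw [h1 (inChart JX x₁ z v), inChart_apply, inChart_apply, AB x₁ hz.1]
  congr 1
  have h2 : A y₀ (lc f x₁ y₀ z) (fderiv ℝ (lc f x₁ y₀) z v) =
      Df f ((chartAt (E d) x₁).symm z) (A x₁ z v) := by
    rw [h1 v, AB y₀ (lc_mem hz)]
  rw [h2]
  let JY' : Y → (E d →L[ℝ] E d) := JY
  have h3 : JY' ((chartAt (E d) y₀).symm (lc f x₁ y₀ z)) = JY' (f ((chartAt (E d) x₁).symm z)) :=
    congrArg JY' (symm_lc hz)
  have h4 := hol ((chartAt (E d) x₁).symm z) (A x₁ z v)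
  refine Eq.trans ?_ h4.symm
  exact congrArg (fun T : E d →L[ℝ] E d => T (Df f ((chartAt (E d) x₁).symm z) (A x₁ z v))) h3

/-- the sign of the Jacobian determinant is locally constant -/
theorem exists_nhd {f : X → Y} {JX : End d X} {JY : End d Y} (hf : ContMDiff (𝓡 d) (𝓡 d) ∞ f)
    (hol : ∀ (x : X) (v : E d), Df f x (JX x v) = JY (f x) (Df f x v))
    (hX : ∀ (x : X) (v : TangentSpace (𝓡 d) x), JX x (JX x v) = -v)
    (hY : ∀ (x : Y) (v : TangentSpace (𝓡 d) x), JY x (JY x v) = -v)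
    (cX : ∀ x₀, ContinuousOn (inChart JX x₀) (chartAt (E d) x₀).target)
    (cY : ∀ x₀, ContinuousOn (inChart JY x₀) (chartAt (E d) x₀).target)
    {x : X} {y₀ : Y} (hx : f x ∈ (chartAt (E d) y₀).source) :
    ∃ O : Set X, IsOpen O ∧ x ∈ O ∧ O ⊆ (chartAt (E d) x).source ∧
      O ⊆ f ⁻¹' (chartAt (E d) y₀).source ∧ ∃ c : ℝ, (c = 1 ∨ c = -1) ∧
      ∀ x' ∈ O, 0 ≤ c * (fderiv ℝ (lc f x y₀) (chartAt (E d) x x')).det := by
  set z₀ := chartAt (E d) x x with hz₀
  have hsrc : x ∈ (chartAt (E d) x).source := mem_chart_source (E d) x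
  have hz₀W : z₀ ∈ Wc f x y₀ := by
    refine ⟨mem_chart_target (E d) x, ?_⟩
    show f ((chartAt (E d) x).symm (chartAt (E d) x x)) ∈ (chartAt (E d) y₀).source
    rw [(chartAt (E d) x).left_inv hsrc]
    exact hx
  have hWo := isOpen_Wc (d := d) hf.continuous x y₀
  have hlc := contDiffOn_lc (d := d) hf x y₀
  have e1 : ContinuousAt (inChart JX x) z₀ :=
    (cX x).continuousAt ((chartAt (E d) x).open_target.mem_nhds hz₀W.1)
  have e2 : ContinuousAt (fun z => inChart JY y₀ (lc f x y₀ z)) z₀ := by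
    have h1 : ContinuousAt (inChart JY y₀) (lc f x y₀ z₀) :=
      (cY y₀).continuousAt ((chartAt (E d) y₀).open_target.mem_nhds (lc_mem hz₀W))
    exact h1.comp (hlc.continuousOn.continuousAt (hWo.mem_nhds hz₀W))
  obtain ⟨c, hc, hc'⟩ := sign_local (A := inChart JX x)
    (B := fun z => inChart JY y₀ (lc f x y₀ z)) (L := fderiv ℝ (lc f x y₀)) e1 e2
    (by
      filter_upwards [hWo.mem_nhds hz₀W] with z hz v
      exact inChart_sq hX x hz.1 v)
    (by
      filter_upwards [hWo.mem_nhds hz₀W] with z hz v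
      exact inChart_sq hY y₀ (lc_mem hz) v)
    (by
      filter_upwards [hWo.mem_nhds hz₀W] with z hz v
      exact hol_lc hf hol hz v)
  obtain ⟨O', hO', hO'o, hzO'⟩ := _root_.eventually_nhds_iff.1 hc'
  refine ⟨((chartAt (E d) x).source ∩ chartAt (E d) x ⁻¹' O') ∩
    f ⁻¹' (chartAt (E d) y₀).source, ?_, ⟨⟨hsrc, hzO'⟩, hx⟩, fun x' h => h.1.1,
    fun x' h => h.2, c, hc, fun x' h => hO' _ h.1.2⟩
  exact ((chartAt (E d) x).isOpen_inter_preimage hO'o).inter
    ((chartAt (E d) y₀).open_source.preimage hf.continuous)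

/-- finitely many pieces in charts near the fibres over a compact set -/
theorem exists_pieces [CompactSpace X] [T2Space X] [T2Space Y] {f : X → Y} {JX : End d X}
    {JY : End d Y}
    (hf : ContMDiff (𝓡 d) (𝓡 d) ∞ f)
    (hol : ∀ (x : X) (v : E d), Df f x (JX x v) = JY (f x) (Df f x v))
    (hX : ∀ (x : X) (v : TangentSpace (𝓡 d) x), JX x (JX x v) = -v)
    (hY : ∀ (x : Y) (v : TangentSpace (𝓡 d) x), JY x (JY x v) = -v)
    (cX : ∀ x₀, ContinuousOn (inChart JX x₀) (chartAt (E d) x₀).target)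
    (cY : ∀ x₀, ContinuousOn (inChart JY x₀) (chartAt (E d) x₀).target)
    (y₀ : Y) {K : Set (E d)} (hK : IsCompact K) (hKt : K ⊆ (chartAt (E d) y₀).target) :
    ∃ (t : Finset X) (ρ : t → X → ℝ), (∀ i, SmoothFun (d := d) (ρ i)) ∧
      (∀ i, tsupport (ρ i) ⊆ (chartAt (E d) (i : X)).source) ∧
      (∀ i, tsupport (ρ i) ⊆ f ⁻¹' (chartAt (E d) y₀).source) ∧
      (∀ i, ∃ c : ℝ, (c = 1 ∨ c = -1) ∧ ∀ x' ∈ tsupport (ρ i),
        0 ≤ c * (fderiv ℝ (lc f (i : X) y₀) (chartAt (E d) (i : X) x')).det) ∧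
      (∀ x, f x ∈ (chartAt (E d) y₀).symm '' K → ∑ i, ρ i x = 1) ∧
      ∀ (β : Form d X 1) (ξ : Form d X 2), ∀ x, f x ∈ (chartAt (E d) y₀).symm '' K →
        ξ x = ∑ i, prodD (ρ i) β ξ x := by
  classical
  set F : Set X := f ⁻¹' ((chartAt (E d) y₀).symm '' K) with hF
  have hKc : IsCompact ((chartAt (E d) y₀).symm '' K) :=
    hK.image_of_continuousOn ((chartAt (E d) y₀).continuousOn_symm.mono hKt)
  have hFc : IsClosed F := hKc.isClosed.preimage hf.continuous
  have hFs : ∀ x ∈ F, f x ∈ (chartAt (E d) y₀).source := by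
    intro x hx
    obtain ⟨z, hz, hz'⟩ := hx
    rw [← hz']
    exact (chartAt (E d) y₀).map_target (hKt hz)
  have hex : ∀ x : X, ∃ O : Set X, IsOpen O ∧ (x ∈ F → x ∈ O ∧ O ⊆ (chartAt (E d) x).source ∧
      O ⊆ f ⁻¹' (chartAt (E d) y₀).source ∧ ∃ c : ℝ, (c = 1 ∨ c = -1) ∧
      ∀ x' ∈ O, 0 ≤ c * (fderiv ℝ (lc f x y₀) (chartAt (E d) x x')).det) := by
    intro x
    by_cases hx : x ∈ F
    · obtain ⟨O, h1, h2, h3, h4, h5⟩ := exists_nhd hf hol hX hY cX cY (hFs x hx)
      exact ⟨O, h1, fun _ => ⟨h2, h3, h4, h5⟩⟩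
    · exact ⟨∅, isOpen_empty, fun h => absurd h hx⟩
  choose O hO hO' using hex
  obtain ⟨t, htF, ht⟩ := hFc.isCompact.elim_nhds_subcover O fun x hx =>
    (hO x).mem_nhds (hO' x hx).1
  obtain ⟨r, hr⟩ := SmoothPartitionOfUnity.exists_isSubordinate (𝓡 d) (isClosed_univ (X := X))
    (fun i : Option t => match i with
      | none => Fᶜ
      | some j => O j) (fun i => by
      cases i with
      | none => exact hFc.isOpen_compl
      | some j => exact hO j) (fun x _ => by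
      by_cases hx : x ∈ F
      · obtain ⟨j, hj, hj'⟩ := mem_iUnion₂.1 (ht hx)
        exact mem_iUnion.2 ⟨some ⟨j, hj⟩, hj'⟩
      · exact mem_iUnion.2 ⟨none, hx⟩)
  have hrs : ∀ j : Option t, SmoothFun (d := d) (r j) := fun j => (r j).contMDiff
  have hsum : ∀ x, ∑ j : Option t, r j x = 1 := by
    intro x
    rw [← finsum_eq_sum_of_fintype]
    exact r.sum_eq_one (mem_univ x)
  have hnone : ∀ x ∈ F, x ∉ tsupport (r none) := fun x hx h => (hr none h) hx
  have hsub : ∀ i : t, tsupport (r (some i)) ⊆ O i := fun i => hr (some i)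
  refine ⟨t, fun i => r (some i), fun i => hrs _, fun i => ?_, fun i => ?_, fun i => ?_,
    fun x hx => ?_, fun β ξ x hx => ?_⟩
  · exact (hsub i).trans (hO' i (htF i i.2)).2.1
  · exact (hsub i).trans (hO' i (htF i i.2)).2.2.1
  · obtain ⟨c, hc, hc'⟩ := (hO' i (htF i i.2)).2.2.2
    exact ⟨c, hc, fun x' hx' => hc' x' (hsub i hx')⟩
  · have h1 := hsum x
    rw [Fintype.sum_option, image_eq_zero_of_notMem_tsupport (hnone x hx), zero_add] at h1
    exact h1
  · have h1 := congrFun (sum_prodD hrs hsum β ξ) x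
    rw [Finset.sum_apply, Fintype.sum_option, prodD_zero β ξ (hnone x hx), zero_add] at h1
    exact h1.symm

omit [IsManifold (𝓡 d) ∞ X] [IsManifold (𝓡 d) ∞ Y] in
theorem pb_push_sum {f : X → Y} (hfin : ∀ y, (f ⁻¹' {y}).Finite) {y₀ : Y} {k : ℕ} {ι : Type}
    (s : Finset ι) {τ : Form d X k} {τ' : ι → Form d X k} {p : E d}
    (h : ∀ x, f x = (chartAt (E d) y₀).symm p → τ x = ∑ i ∈ s, τ' i x) :
    pb (chartAt (E d) y₀).symm (push f τ) p =
      ∑ i ∈ s, pb (chartAt (E d) y₀).symm (push f (τ' i)) p := by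
  have e1 : ∀ τ : Form d X k, pb (chartAt (E d) y₀).symm (push f τ) p =
      ∑ x ∈ (hfin ((chartAt (E d) y₀).symm p)).toFinset,
        (ci (τ x) (Df f x)).compContinuousLinearMap (A y₀ p) := by
    intro τ
    refine (AddMonoidHom.map_finsum_mem (fun x => ci (τ x) (Df f x))
      (ContinuousAlternatingMap.compContinuousLinearMapCLM (A y₀ p) :
        ((E d) [⋀^Fin k]→L[ℝ] ℝ) →L[ℝ] ((E d) [⋀^Fin k]→L[ℝ] ℝ)).toLinearMap.toAddMonoidHom
      (hfin _)).trans ?_
    exact finsum_mem_eq_finite_toFinset_sum _ (hfin _)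
  rw [e1]
  simp_rw [e1]
  rw [Finset.sum_comm]
  refine Finset.sum_congr rfl fun x hx => ?_
  rw [Finite.mem_toFinset] at hx
  ext v
  rw [sum_ev]
  have h1 : (ci (τ x) (Df f x)).compContinuousLinearMap (A y₀ p) v =
      (τ x : (E d) [⋀^Fin k]→L[ℝ] ℝ) (fun i => (Df f x).inverse (A y₀ p (v i))) := rfl
  rw [h1]
  have h2 : (τ x : (E d) [⋀^Fin k]→L[ℝ] ℝ) = ∑ i ∈ s, (τ' i x : (E d) [⋀^Fin k]→L[ℝ] ℝ) :=
    h x hx
  exact (congrArg (fun T : (E d) [⋀^Fin k]→L[ℝ] ℝ =>
    T (fun i => (Df f x).inverse (A y₀ p (v i)))) h2).trans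
      (sum_ev s (fun i => (τ' i x : (E d) [⋀^Fin k]→L[ℝ] ℝ)) _)

/-- **The exterior derivative of a push-forward**, in the sense of distributions, is the
push-forward of the exterior derivative -/
theorem weakPrim_push [CompactSpace X] [T2Space X] [T2Space Y] {f : X → Y} {JX : End d X}
    {JY : End d Y} {m : ℕ} (hc : Cover f JX JY m)
    (hX : ∀ (x : X) (v : TangentSpace (𝓡 d) x), JX x (JX x v) = -v)
    (hY : ∀ (x : Y) (v : TangentSpace (𝓡 d) x), JY x (JY x v) = -v)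
    (cX : ∀ x₀, ContinuousOn (inChart JX x₀) (chartAt (E d) x₀).target)
    (cY : ∀ x₀, ContinuousOn (inChart JY x₀) (chartAt (E d) x₀).target)
    {β : Form d X 1} {ξ : Form d X 2} (hβ : IsSmooth β) (hξ : IsSmooth ξ) (h : IsD β ξ) :
    WeakPrim (push f β) (push f ξ) := by
  classical
  have hpieces := fun (y₀ : Y) (K : Set (E d)) (hK : IsCompact K)
    (hKt : K ⊆ (chartAt (E d) y₀).target) =>
    exists_pieces hc.smooth hc.hol hX hY cX cY y₀ hK hKt
  -- the local facts about one piece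
  have hone : ∀ (y₀ : Y) (x₁ : X) (ρ : X → ℝ), SmoothFun (d := d) ρ →
      tsupport ρ ⊆ (chartAt (E d) x₁).source → tsupport ρ ⊆ f ⁻¹' (chartAt (E d) y₀).source →
      ContDiff ℝ ∞ (cutF x₁ (fun x => ρ x • β x : Form d X 1)) ∧
      HasCompactSupport (cutF x₁ (fun x => ρ x • β x : Form d X 1)) ∧
      tsupport (cutF x₁ (fun x => ρ x • β x : Form d X 1)) ⊆ chartAt (E d) x₁ '' tsupport ρ ∧
      chartAt (E d) x₁ '' tsupport ρ ⊆ Wc f x₁ y₀ ∧
      extDeriv (cutF x₁ (fun x => ρ x • β x : Form d X 1)) = cutF x₁ (prodD ρ β ξ) ∧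
      Integrable (lpush (lc f x₁ y₀) (Wc f x₁ y₀) (cutF x₁ (fun x => ρ x • β x : Form d X 1))) ∧
      Integrable (lpush (lc f x₁ y₀) (Wc f x₁ y₀) (cutF x₁ (prodD ρ β ξ))) := by
    intro y₀ x₁ ρ hρ hρ1 hρ2
    obtain ⟨s1, s2, s3, -, -⟩ := Pool.Agent.Y658.SY.t_PROD d X ρ β ξ hρ hβ hξ h
    have hS : IsCompact (tsupport ρ) := (isClosed_tsupport ρ).isCompact
    have z1 : ∀ x, x ∉ tsupport ρ → (fun x => ρ x • β x : Form d X 1) x = 0 := by
      intro x hx
      show ρ x • β x = 0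
      rw [image_eq_zero_of_notMem_tsupport hx, zero_smul]
    have z2 : ∀ x, x ∉ tsupport ρ → prodD ρ β ξ x = 0 := fun x hx => prodD_zero β ξ hx
    have c1 := contDiff_cutF s1 hS hρ1 z1
    have c2 := contDiff_cutF s2 hS hρ1 z2
    have t1 := tsupport_cutF hS hρ1 z1
    have im := isCompact_image (d := d) hS hρ1
    have sub : chartAt (E d) x₁ '' tsupport ρ ⊆ Wc f x₁ y₀ := by
      rintro _ ⟨x, hx, rfl⟩
      refine ⟨(chartAt (E d) x₁).map_source (hρ1 hx), ?_⟩
      show f ((chartAt (E d) x₁).symm (chartAt (E d) x₁ x)) ∈ (chartAt (E d) y₀).source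
      rw [(chartAt (E d) x₁).left_inv (hρ1 hx)]
      exact hρ2 hx
    have hWo := isOpen_Wc (d := d) hc.smooth.continuous x₁ y₀
    have hlc := contDiffOn_lc (d := d) hc.smooth x₁ y₀
    have hf' := fib_lc_finite (d := d) hc.fin x₁ y₀
    refine ⟨c1, im.of_isClosed_subset (isClosed_tsupport _) t1, t1, sub,
      extDeriv_cutF s3 hS hρ1 z1 z2, ?_, ?_⟩
    · exact (lpush_int hWo hlc hf' one_ne_zero (hasMinors_one hWo hlc c1.continuous.continuousOn)
        im sub (fun z hz => cutF_zero z1 hz)).1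
    · exact (lpush_int hWo hlc hf' two_ne_zero (hasMinors_two hWo hlc c2.continuous.continuousOn)
        im sub (fun z hz => cutF_zero z2 hz)).1
  -- the decomposition over a compact set
  have hdec : ∀ (y₀ : Y) (K : Set (E d)), IsCompact K → K ⊆ (chartAt (E d) y₀).target →
      ∃ (t : Finset X) (ρ : t → X → ℝ), (∀ i, SmoothFun (d := d) (ρ i)) ∧
      (∀ i, tsupport (ρ i) ⊆ (chartAt (E d) (i : X)).source) ∧
      (∀ i, tsupport (ρ i) ⊆ f ⁻¹' (chartAt (E d) y₀).source) ∧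
      (∀ i, ∃ c : ℝ, (c = 1 ∨ c = -1) ∧ ∀ x' ∈ tsupport (ρ i),
        0 ≤ c * (fderiv ℝ (lc f (i : X) y₀) (chartAt (E d) (i : X) x')).det) ∧
      (∀ p ∈ K, pb (chartAt (E d) y₀).symm (push f β) p = ∑ i : t,
        lpush (lc f (i : X) y₀) (Wc f (i : X) y₀)
          (cutF (i : X) (fun x => ρ i x • β x : Form d X 1)) p) ∧
      (∀ p ∈ K, pb (chartAt (E d) y₀).symm (push f ξ) p = ∑ i : t,
        lpush (lc f (i : X) y₀) (Wc f (i : X) y₀) (cutF (i : X) (prodD (ρ i) β ξ)) p) := by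
    intro y₀ K hK hKt
    obtain ⟨t, ρ, h1, h2, h3, h4, h5, h6⟩ := hpieces y₀ K hK hKt
    refine ⟨t, ρ, h1, h2, h3, h4, fun p hp => ?_, fun p hp => ?_⟩
    · rw [pb_push_sum hc.fin Finset.univ (τ' := fun i => (fun x => ρ i x • β x : Form d X 1))]
      · refine Finset.sum_congr rfl fun i _ => ?_
        refine push_chart hc.smooth hc.fin (fun x hx => ?_) (hKt hp)
        show ρ i x • β x = 0
        rw [image_eq_zero_of_notMem_tsupport fun h => hx (h2 i h), zero_smul]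
      · intro x hx
        show β x = ∑ i, ρ i x • β x
        rw [← Finset.sum_smul, h5 x ⟨p, hp, hx.symm⟩, one_smul]
    · rw [pb_push_sum hc.fin Finset.univ (τ' := fun i => prodD (ρ i) β ξ)]
      · refine Finset.sum_congr rfl fun i _ => ?_
        refine push_chart hc.smooth hc.fin (fun x hx => ?_) (hKt hp)
        exact prodD_zero β ξ fun h => hx (h2 i h)
      · intro x hx
        exact h6 β ξ x ⟨p, hp, hx.symm⟩
  refine ⟨fun y₀ => ?_, fun y₀ => ?_, ?_⟩
  · rw [locallyIntegrableOn_iff (chartAt (E d) y₀).open_target.isLocallyClosed]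
    intro K hKt hK
    obtain ⟨t, ρ, h1, h2, h3, h4, h5, h6⟩ := hdec y₀ K hK hKt
    have h7 := int_sum Finset.univ fun (i : t) _ =>
      (hone y₀ i (ρ i) (h1 i) (h2 i) (h3 i)).2.2.2.2.2.1
    refine (h7.integrableOn (s := K)).congr_fun (fun p hp => ?_) hK.measurableSet
    exact (h5 p hp).symm
  · rw [locallyIntegrableOn_iff (chartAt (E d) y₀).open_target.isLocallyClosed]
    intro K hKt hK
    obtain ⟨t, ρ, h1, h2, h3, h4, h5, h6⟩ := hdec y₀ K hK hKt
    have h7 := int_sum Finset.univ fun (i : t) _ =>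
      (hone y₀ i (ρ i) (h1 i) (h2 i) (h3 i)).2.2.2.2.2.2
    refine (h7.integrableOn (s := K)).congr_fun (fun p hp => ?_) hK.measurableSet
    exact (h6 p hp).symm
  · intro y₀ φ hφ hφc hφt u v
    obtain ⟨t, ρ, h1, h2, h3, h4, h5, h6⟩ := hdec y₀ (tsupport φ) hφc.isCompact hφt
    have hφ0 : ∀ z, z ∉ tsupport φ → φ z = 0 := fun z hz => image_eq_zero_of_notMem_tsupport hz
    have hdφ : ∀ w, Continuous (fun z => fderiv ℝ φ z w) := fun w =>
      (hφ.continuous_fderiv (by simp)).clm_apply continuous_const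
    have hdφ0 : ∀ w z, z ∉ tsupport φ → fderiv ℝ φ z w = 0 := by
      intro w z hz
      have h1 : φ =ᶠ[𝓝 z] fun _ => 0 := by
        filter_upwards [(isClosed_tsupport φ).isOpen_compl.mem_nhds hz] with x hx
        exact hφ0 x hx
      rw [h1.fderiv_eq]
      simp
    set a : t → E d → (E d) [⋀^Fin 1]→L[ℝ] ℝ := fun i =>
      lpush (lc f (i : X) y₀) (Wc f (i : X) y₀)
        (cutF (i : X) (fun x => ρ i x • β x : Form d X 1)) with ha
    set b : t → E d → (E d) [⋀^Fin 2]→L[ℝ] ℝ := fun i =>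
      lpush (lc f (i : X) y₀) (Wc f (i : X) y₀) (cutF (i : X) (prodD (ρ i) β ξ)) with hb
    have j1 : ∀ (i : t) (w w' : E d), Integrable (fun p => a i p ![w] * fderiv ℝ φ p w') := by
      intro i w w'
      have i1 := (hone y₀ i (ρ i) (h1 i) (h2 i) (h3 i)).2.2.2.2.2.1
      have h1 := int_bilin (ContinuousLinearMap.mul ℝ ℝ) hφc.isCompact (subset_univ _) (hdφ w')
        (hdφ0 w') (((ev (![w] : Fin 1 → E d)).integrable_comp
          i1).locallyIntegrable.locallyIntegrableOn univ)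
      refine h1.congr (Eventually.of_forall fun z => ?_)
      exact mul_comm _ _
    have j2 : ∀ (i : t), Integrable (fun p => b i p ![u, v] * φ p) := by
      intro i
      have i1 := (hone y₀ i (ρ i) (h1 i) (h2 i) (h3 i)).2.2.2.2.2.2
      have h1 := int_bilin (ContinuousLinearMap.mul ℝ ℝ) hφc.isCompact (subset_univ _)
        hφ.continuous hφ0 (((ev (![u, v] : Fin 2 → E d)).integrable_comp
          i1).locallyIntegrable.locallyIntegrableOn univ)
      refine h1.congr (Eventually.of_forall fun z => ?_)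
      exact mul_comm _ _
    have e1 : ∀ (p w w' : E d), pb (chartAt (E d) y₀).symm (push f β) p ![w] * fderiv ℝ φ p w' =
        ∑ i, a i p ![w] * fderiv ℝ φ p w' := by
      intro p w w'
      by_cases hp : p ∈ tsupport φ
      · rw [h5 p hp, sum_ev, Finset.sum_mul]
      · rw [hdφ0 w' p hp]
        simp
    have e2 : ∀ p : E d, pb (chartAt (E d) y₀).symm (push f ξ) p ![u, v] * φ p =
        ∑ i, b i p ![u, v] * φ p := by
      intro p
      by_cases hp : p ∈ tsupport φ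
      · rw [h6 p hp, sum_ev, Finset.sum_mul]
      · rw [hφ0 p hp]
        simp
    simp_rw [e1, e2]
    simp_rw [← Finset.sum_sub_distrib]
    have j3 : ∀ i : t, Integrable (fun p => a i p ![v] * fderiv ℝ φ p u -
      a i p ![u] * fderiv ℝ φ p v) := fun i => (j1 i v u).sub (j1 i u v)
    rw [integral_finsetSum _ fun i _ => j3 i, integral_finsetSum _ fun i _ => j2 i,
      ← Finset.sum_neg_distrib]
    refine Finset.sum_congr rfl fun i _ => ?_
    obtain ⟨q1, q2, q3, q4, q5, q6, q7⟩ := hone y₀ i (ρ i) (h1 i) (h2 i) (h3 i)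
    obtain ⟨c, hc1, hc2⟩ := h4 i
    have hnull : ∀ᵐ z : E d, z ∈ Wc f (i : X) y₀ → (fderiv ℝ (lc f (i : X) y₀) z).det ≠ 0 := by
      have h7 := (ae_restrict_iff' (chartAt (E d) (i : X)).open_target.measurableSet).1
        (hc.inv (i : X))
      filter_upwards [h7] with z hz hzW
      exact (det_lc hc.smooth hzW).2 (hz hzW.1)
    have key := weak_lpush (isOpen_Wc (d := d) hc.smooth.continuous (i : X) y₀)
      (contDiffOn_lc (d := d) hc.smooth (i : X) y₀) (fib_lc_finite (d := d) hc.fin (i : X) y₀)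
      hnull q1 q2 (q3.trans q4) hc1 (fun z hz => by
        obtain ⟨x', hx', hxz⟩ := q3 hz
        rw [← hxz]
        exact hc2 x' hx') hφ hφc u v
    rw [q5] at key
    exact key

end

end Pool.Agent.H819.BC
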