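import Mathlib
import Pool.Agent.H819.BC.Lin
import Pool.Agent.H819.LG.Ext

/-!
# The Poincaré lemma for two-forms
-/

set_option autoImplicit false

open Set Filter Topology MeasureTheory Metric
open scoped ContDiff

noncomputable section

namespace Pool.Agent.H819.BC

open Pool.Agent.Y501.SY (E)
open Pool.Agent.Y431.SY (ev ev_apply curry_smooth curry_bb closed_identity setInt_hasFDerivAt'
  contDiff_setInt fderiv_slice slice_contDiff)

variable {d : ℕ}

/-- the primitive of a closed two-form on a star-shaped set -/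
def pk (s : E d → (E d) [⋀^Fin 2]→L[ℝ] ℝ) (q z : E d) : (E d) [⋀^Fin 1]→L[ℝ] ℝ :=
  ∫ t in Icc (0 : ℝ) 1, t • (s (q + t • (z - q))).curryLeft (z - q)

theorem pkR_smooth {s : E d → (E d) [⋀^Fin 2]→L[ℝ] ℝ} (hs : ContDiff ℝ ∞ s) (q : E d) :
    ContDiff ℝ ∞ (fun z : E d × ℝ => z.2 • (s (q + z.2 • (z.1 - q))).curryLeft (z.1 - q)) := by
  refine contDiff_snd.smul (curry_smooth ?_ ?_)
  · exact hs.comp (by fun_prop)
  · fun_prop

theorem pk_smooth {s : E d → (E d) [⋀^Fin 2]→L[ℝ] ℝ} (hs : ContDiff ℝ ∞ s) (q : E d) :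
    ContDiff ℝ ∞ (pk s q) :=
  contDiff_setInt volume isCompact_Icc (pkR_smooth hs q)

theorem pk_self (s : E d → (E d) [⋀^Fin 2]→L[ℝ] ℝ) (q : E d) : pk s q q = 0 := by
  unfold pk
  have h : ∀ t : ℝ, t • (s (q + t • (q - q))).curryLeft (q - q) = 0 := by
    intro t
    rw [sub_self, map_zero, smul_zero]
  simp_rw [h]
  exact integral_zero _ _

theorem pk_apply {s : E d → (E d) [⋀^Fin 2]→L[ℝ] ℝ} (hs : ContDiff ℝ ∞ s) (q z : E d)
    (w : Fin 1 → E d) :
    pk s q z w = ∫ t in Icc (0 : ℝ) 1, t * s (q + t • (z - q)) (Matrix.vecCons (z - q) w) := by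
  have h := (ev w).integral_comp_comm (μ := volume.restrict (Icc (0 : ℝ) 1))
    (φ := fun t => t • (s (q + t • (z - q))).curryLeft (z - q))
    (((pkR_smooth hs q).continuous.comp (Continuous.prodMk_right z)).continuousOn.integrableOn_compact
      isCompact_Icc)
  exact h.symm

theorem fderiv_integrand {s : E d → (E d) [⋀^Fin 2]→L[ℝ] ℝ} (hs : ContDiff ℝ ∞ s) (q z : E d)
    (t : ℝ) (w : Fin 1 → E d) (u : E d) :
    fderiv ℝ (fun x => t * s (q + t • (x - q)) (Matrix.vecCons (x - q) w)) z u =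
      t * (s (q + t • (z - q)) (Matrix.vecCons u w) +
        t * fderiv ℝ s (q + t • (z - q)) u (Matrix.vecCons (z - q) w)) := by
  have h0 : HasFDerivAt (fun x : E d => x - q) (ContinuousLinearMap.id ℝ (E d)) z :=
    (hasFDerivAt_id z).sub_const q
  have h1 : HasFDerivAt (fun x : E d => q + t • (x - q)) (t • ContinuousLinearMap.id ℝ (E d)) z :=
    (h0.const_smul t).const_add q
  have h2 : HasFDerivAt (fun x : E d => s (q + t • (x - q)))
      ((fderiv ℝ s (q + t • (z - q))).comp (t • ContinuousLinearMap.id ℝ (E d))) z :=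
    (hs.differentiable (by simp) _).hasFDerivAt.comp z h1
  have h3 := (curry_bb (E := E d)).hasFDerivAt (s (q + t • (z - q)), z - q)
  have h4 := h3.comp z (h2.prodMk h0)
  have h5 := ((ev w).hasFDerivAt.comp z h4).const_mul t
  have h6 := h5.fderiv
  have h7 : fderiv ℝ (fun x => t * s (q + t • (x - q)) (Matrix.vecCons (x - q) w)) z u =
      t * (ev w) (((curry_bb (E := E d)).deriv (s (q + t • (z - q)), z - q))
        ((fderiv ℝ s (q + t • (z - q))) (t • u), u)) := by
    have h8 := congrArg (fun T : E d →L[ℝ] ℝ => T u) h6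
    exact h8
  rw [h7]
  congr 1
  have h9 : ((curry_bb (E := E d)).deriv (s (q + t • (z - q)), z - q))
      ((fderiv ℝ s (q + t • (z - q))) (t • u), u) =
      (s (q + t • (z - q))).curryLeft u +
        ((fderiv ℝ s (q + t • (z - q))) (t • u)).curryLeft (z - q) := rfl
  rw [h9, map_smul]
  rfl

theorem fderiv_pk {s : E d → (E d) [⋀^Fin 2]→L[ℝ] ℝ} (hs : ContDiff ℝ ∞ s) (q z : E d)
    (w : Fin 1 → E d) (u : E d) :
    fderiv ℝ (fun x => pk s q x w) z u = ∫ t in Icc (0 : ℝ) 1,
      t * (s (q + t • (z - q)) (Matrix.vecCons u w) +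
        t * fderiv ℝ s (q + t • (z - q)) u (Matrix.vecCons (z - q) w)) := by
  have hR : ContDiff ℝ ∞ (fun z : E d × ℝ =>
      z.2 * s (q + z.2 • (z.1 - q)) (Matrix.vecCons (z.1 - q) w)) :=
    (ev w).contDiff.comp (pkR_smooth hs q)
  have h1 := setInt_hasFDerivAt' volume isCompact_Icc (K := Icc (0 : ℝ) 1) hR z
  have e : (fun x => pk s q x w) = fun x => ∫ t in Icc (0 : ℝ) 1,
      t * s (q + t • (x - q)) (Matrix.vecCons (x - q) w) := by
    funext x; exact pk_apply hs q x w
  rw [e, h1.fderiv, ContinuousLinearMap.integral_apply]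
  · refine integral_congr_ae (Filter.Eventually.of_forall fun t => ?_)
    show ((fderiv ℝ _ (z, t)).comp (ContinuousLinearMap.inl ℝ (E d) ℝ)) u = _
    rw [← (fderiv_slice hR z t).fderiv]
    exact fderiv_integrand hs q z t w u
  · exact ((slice_contDiff hR).continuous.comp
      (Continuous.prodMk_right z)).continuousOn.integrableOn_compact isCompact_Icc

/-- **The Poincaré lemma.** -/
theorem ext_pk {s : E d → (E d) [⋀^Fin 2]→L[ℝ] ℝ} (hs : ContDiff ℝ ∞ s) (q z : E d)
    (hcl : ∀ t ∈ Icc (0 : ℝ) 1, extDeriv s (q + t • (z - q)) = 0) :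
    extDeriv (pk s q) z = s z := by
  ext v
  rw [extDeriv_apply ((pk_smooth hs q).differentiable (by simp) z), Fin.sum_univ_two]
  have e0 : Fin.removeNth 0 v = ![v 1] := by
    funext i; fin_cases i; rfl
  have e1 : Fin.removeNth 1 v = ![v 0] := by
    funext i; fin_cases i; rfl
  rw [e0, e1, fderiv_pk hs, fderiv_pk hs]
  set y := z - q with hy
  have hline : Continuous (fun t : ℝ => q + t • y) := by fun_prop
  have c1 : ∀ (w : Fin 2 → E d), Continuous (fun t : ℝ => s (q + t • y) w) := fun w =>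
    (ev w).continuous.comp (hs.continuous.comp hline)
  have c2 : ∀ (u : E d) (w : Fin 2 → E d), Continuous (fun t : ℝ => fderiv ℝ s (q + t • y) u w) :=
    fun u w => (ev w).continuous.comp
      (((hs.continuous_fderiv (by simp)).comp hline).clm_apply continuous_const)
  have i1 : ∀ (u : E d) (w w' : Fin 2 → E d), IntegrableOn (fun t : ℝ =>
      t * (s (q + t • y) w + t * fderiv ℝ s (q + t • y) u w')) (Icc 0 1) := fun u w w' =>
    (continuous_id.mul ((c1 w).add (continuous_id.mul (c2 u w')))).continuousOn.integrableOn_compact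
      isCompact_Icc
  simp only [Fin.val_zero, pow_zero, one_smul, Fin.val_one, pow_one, neg_smul]
  rw [← sub_eq_add_neg, ← integral_sub (i1 _ _ _) (i1 _ _ _)]
  have hswap : ∀ p, s p (Matrix.vecCons (v 1) ![v 0]) = - s p (Matrix.vecCons (v 0) ![v 1]) :=
    fun p => Pool.Agent.H819.LG.two_swap (s p) (v 1) (v 0)
  have hv : Matrix.vecCons (v 0) ![v 1] = v := by
    funext i; fin_cases i <;> rfl
  have h5 : ∫ t in Icc (0 : ℝ) 1, (t * (s (q + t • y) (Matrix.vecCons (v 0) ![v 1]) +
        t * fderiv ℝ s (q + t • y) (v 0) (Matrix.vecCons y ![v 1])) -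
      t * (s (q + t • y) (Matrix.vecCons (v 1) ![v 0]) +
        t * fderiv ℝ s (q + t • y) (v 1) (Matrix.vecCons y ![v 0]))) =
      ∫ t in Icc (0 : ℝ) 1, (2 * t * s (q + t • y) v + t ^ 2 * fderiv ℝ s (q + t • y) y v) := by
    refine setIntegral_congr_fun measurableSet_Icc fun t ht => ?_
    have h6 := closed_identity (fderiv ℝ s (q + t • y)) (hcl t ht) y v
    simp only [hswap]
    rw [← h6, hv]
    ring
  rw [h5, integral_Icc_eq_integral_Ioc, ← intervalIntegral.integral_of_le zero_le_one]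
  have h6 : ∀ t : ℝ, HasDerivAt (fun t : ℝ => t ^ 2 * s (q + t • y) v)
      (2 * t * s (q + t • y) v + t ^ 2 * fderiv ℝ s (q + t • y) y v) t := by
    intro t
    have h7 : HasFDerivAt s (fderiv ℝ s (q + t • y)) (q + t • y) :=
      ((hs.differentiable (by simp)) _).hasFDerivAt
    have h8 : HasDerivAt (fun t : ℝ => q + t • y) y t := by
      simpa using ((hasDerivAt_id t).smul_const y).const_add q
    have h9 : HasDerivAt (fun t : ℝ => s (q + t • y) v) (fderiv ℝ s (q + t • y) y v) t :=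
      (ev v).hasFDerivAt.comp_hasDerivAt t (h7.comp_hasDerivAt t h8)
    have h10 : HasDerivAt (fun t : ℝ => t ^ 2) (2 * t) t := by
      simpa using hasDerivAt_pow 2 t
    exact h10.mul h9
  have h10 : Continuous fun t : ℝ =>
      2 * t * s (q + t • y) v + t ^ 2 * fderiv ℝ s (q + t • y) y v :=
    ((continuous_const.mul continuous_id).mul (c1 v)).add ((continuous_id.pow 2).mul (c2 y v))
  rw [intervalIntegral.integral_eq_sub_of_hasDerivAt (fun t _ => h6 t)
    (h10.intervalIntegrable _ _)]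
  have h11 : q + (1 : ℝ) • y = z := by rw [hy, one_smul]; abel
  rw [h11]
  ring

/-- a compactly supported primitive near a point, which vanishes at the point -/
theorem exists_prim {T : Set (E d)} (hT : IsOpen T) {s : E d → (E d) [⋀^Fin 2]→L[ℝ] ℝ}
    (hs : ContDiffOn ℝ ∞ s T) (hcl : ∀ z ∈ T, extDeriv s z = 0) {q : E d} {O : Set (E d)}
    (hO : O ∈ 𝓝 q) (hqT : q ∈ T) :
    ∃ (b : E d → (E d) [⋀^Fin 1]→L[ℝ] ℝ) (Q : Set (E d)), ContDiff ℝ ∞ b ∧ IsCompact Q ∧ Q ⊆ T ∧
      Q ⊆ O ∧ (∀ z, z ∉ Q → b z = 0) ∧ b q = 0 ∧ ∀ᶠ z in 𝓝 q, extDeriv b z = s z := by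
  obtain ⟨ε, hε, hεT⟩ := Metric.nhds_basis_closedBall.mem_iff.1 (inter_mem (hT.mem_nhds hqT) hO)
  obtain ⟨r, s', hr, hs', hsub, hss'⟩ := Pool.Agent.Y431.SY.exists_ext hT hs hε
    (hεT.trans inter_subset_left)
  let f : ContDiffBump q := ⟨ε / 2, ε, by positivity, by linarith⟩
  refine ⟨fun z => f z • pk s' q z, closedBall q ε, f.contDiff.smul (pk_smooth hs' q),
    isCompact_closedBall _ _, hεT.trans inter_subset_left, hεT.trans inter_subset_right, ?_, ?_, ?_⟩
  · intro z hz
    have h1 : f z = 0 := by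
      refine f.zero_of_le_dist ?_
      rw [mem_closedBall, not_le] at hz
      exact hz.le
    show f z • pk s' q z = 0
    rw [h1, zero_smul]
  · show f q • pk s' q q = 0
    rw [pk_self, smul_zero]
  · have h1 : ∀ᶠ z in 𝓝 q, z ∈ ball q (ε / 2) := ball_mem_nhds q (by positivity)
    filter_upwards [h1] with z hz
    have h2 : (fun z => f z • pk s' q z) =ᶠ[𝓝 z] pk s' q := by
      filter_upwards [isOpen_ball.mem_nhds hz] with x hx
      show f x • pk s' q x = pk s' q x
      rw [f.one_of_mem_closedBall (ball_subset_closedBall hx), one_smul]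
    have hzε : z ∈ ball q (ε + r) := ball_subset_ball (by linarith) hz
    rw [h2.extDeriv_eq, ext_pk hs' q z, hss' z hzε]
    intro t ht
    have h3 : q + t • (z - q) ∈ ball q (ε + r) := by
      rw [mem_ball, dist_eq_norm]
      have h4 : q + t • (z - q) - q = t • (z - q) := by abel
      rw [h4, norm_smul, Real.norm_eq_abs, abs_of_nonneg ht.1]
      rw [mem_ball, dist_eq_norm] at hzε
      calc t * ‖z - q‖ ≤ 1 * ‖z - q‖ := by
            have := ht.2
            gcongr
        _ < ε + r := by rw [one_mul]; exact hzε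
    have h5 : s' =ᶠ[𝓝 (q + t • (z - q))] s := by
      filter_upwards [isOpen_ball.mem_nhds h3] with x hx
      exact hss' x hx
    rw [h5.extDeriv_eq]
    exact hcl _ (hsub h3)

end Pool.Agent.H819.BC
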