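import Mathlib
import Pool.Agent.H819.BC.Pieces
import Pool.Agent.H819.BC.Poinc
import Pool.Agent.H819.BC.Cacc

/-!
# Forms near a fibre
-/

set_option autoImplicit false

open Set Filter Topology MeasureTheory Metric Function
open scoped Manifold ContDiff

noncomputable section

namespace Pool.Agent.H819.BC

open Pool.Agent.Y501.SY
open Pool.Agent.Y455.SY (A B AB BA)
open Pool.Agent.Y431.SY (ev ev_apply)
open Pool.Agent.H819.LG (GoodAt smooth_chart closed_chart extF extF_symm extF_zero smooth_extF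
  isD_extF exists_cover continuous_ev2 form2_le IsD.sum' pb_sum)

variable {d : ℕ} {X : Type} [TopologicalSpace X] [ChartedSpace (E d) X]
  {Y : Type} [TopologicalSpace Y] [ChartedSpace (E d) Y]

/-- the value of a two-form -/
def e2 (τ : Form d X 2) (x : X) (a b : E d) : ℝ := (τ x : (E d) [⋀^Fin 2]→L[ℝ] ℝ) ![a, b]

/-- the value of a one-form -/
def e1 (τ : Form d X 1) (x : X) (a : E d) : ℝ := (τ x : (E d) [⋀^Fin 1]→L[ℝ] ℝ) ![a]

/-- an endomorphism as a map of the model space -/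
def eJ (J : End d X) (x : X) : E d →L[ℝ] E d := J x

theorem pb_two (x₀ : X) (τ : Form d X 2) (z u v : E d) :
    pb (chartAt (E d) x₀).symm τ z ![u, v] =
      e2 τ ((chartAt (E d) x₀).symm z) (A x₀ z u) (A x₀ z v) := by
  unfold pb e2
  rw [ContinuousAlternatingMap.compContinuousLinearMap_apply]
  congr 1
  funext i
  fin_cases i <;> rfl

theorem pb_one (x₀ : X) (τ : Form d X 1) (z u : E d) :
    pb (chartAt (E d) x₀).symm τ z ![u] =
      e1 τ ((chartAt (E d) x₀).symm z) (A x₀ z u) := by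
  unfold pb e1
  rw [ContinuousAlternatingMap.compContinuousLinearMap_apply]
  congr 1
  funext i
  fin_cases i
  rfl

variable [IsManifold (𝓡 d) ∞ X] [IsManifold (𝓡 d) ∞ Y]

theorem e2_chart (x₀ : X) (τ : Form d X 2) {z : E d} (hz : z ∈ (chartAt (E d) x₀).target)
    (a b : E d) : e2 τ ((chartAt (E d) x₀).symm z) a b =
      pb (chartAt (E d) x₀).symm τ z ![B x₀ z a, B x₀ z b] := by
  rw [pb_two, AB x₀ hz, AB x₀ hz]

theorem e1_chart (x₀ : X) (τ : Form d X 1) {z : E d} (hz : z ∈ (chartAt (E d) x₀).target)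
    (a : E d) : e1 τ ((chartAt (E d) x₀).symm z) a =
      pb (chartAt (E d) x₀).symm τ z ![B x₀ z a] := by
  rw [pb_one, AB x₀ hz]

theorem B_J (x₀ : X) (J : End d X) {z : E d} (hz : z ∈ (chartAt (E d) x₀).target) (a : E d) :
    B x₀ z (eJ J ((chartAt (E d) x₀).symm z) a) = inChart J x₀ z (B x₀ z a) := by
  rw [inChart_apply, AB x₀ hz]
  rfl

theorem A_J (x₀ : X) (J : End d X) {z : E d} (hz : z ∈ (chartAt (E d) x₀).target) (u : E d) :
    A x₀ z (inChart J x₀ z u) = eJ J ((chartAt (E d) x₀).symm z) (A x₀ z u) := by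
  rw [inChart_apply, AB x₀ hz]
  rfl

/-- a smooth taming form is uniformly good on compact subsets of a chart -/
theorem good_compact {σ : Form d X 2} {J : End d X} (hσ : IsSmooth σ)
    (hJ : ∀ x₀, ContinuousOn (inChart J x₀) (chartAt (E d) x₀).target)
    (h : ∀ p, TamesAt σ J p) (x₀ : X) {N : Set (E d)} (hN : IsCompact N)
    (hNt : N ⊆ (chartAt (E d) x₀).target) : ∃ m : ℝ, 0 < m ∧ ∃ C : ℝ, ∀ z ∈ N,
      GoodAt (pb (chartAt (E d) x₀).symm σ) (inChart J x₀) C m z := by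
  set s := pb (chartAt (E d) x₀).symm σ with hs
  set A := inChart J x₀ with hA
  have hsc : ContinuousOn s N := (smooth_chart hσ x₀).continuousOn.mono hNt
  have hAc : ContinuousOn A N := (hJ x₀).mono hNt
  have hpos : ∀ z ∈ N, ∀ v : E d, v ≠ 0 → 0 < s z ![v, A z v] := fun z hz =>
    (Pool.Agent.Y455.SY.tames_iff σ J x₀ (hNt hz)).1 (h _)
  obtain ⟨m, hm, hm'⟩ : ∃ m : ℝ, 0 < m ∧ ∀ z ∈ N, ∀ v ∈ sphere (0 : E d) 1,
      m ≤ s z ![v, A z v] := by
    rcases (N ×ˢ sphere (0 : E d) 1).eq_empty_or_nonempty with h0 | h0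
    · refine ⟨1, one_pos, fun z hz v hv => ?_⟩
      have : (z, v) ∈ N ×ˢ sphere (0 : E d) 1 := ⟨hz, hv⟩
      rw [h0] at this
      exact this.elim
    · have hc : ContinuousOn (fun q : E d × E d => s q.1 ![q.2, A q.1 q.2])
          (N ×ˢ sphere (0 : E d) 1) := by
        have h1 : ContinuousOn (fun q : E d × E d => s q.1) (N ×ˢ sphere (0 : E d) 1) :=
          hsc.comp continuousOn_fst fun q hq => hq.1
        have h2 : ContinuousOn (fun q : E d × E d => A q.1 q.2) (N ×ˢ sphere (0 : E d) 1) :=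
          (hAc.comp continuousOn_fst fun q hq => hq.1).clm_apply continuousOn_snd
        have h3 : ContinuousOn (fun q : E d × E d => (![q.2, A q.1 q.2] : Fin 2 → E d))
            (N ×ˢ sphere (0 : E d) 1) := by
          refine continuousOn_pi.2 fun i => ?_
          fin_cases i
          · exact continuousOn_snd
          · exact h2
        exact continuous_ev2.comp_continuousOn (h1.prodMk h3)
      obtain ⟨q, hq, hmin⟩ := (hN.prod (isCompact_sphere 0 1)).exists_isMinOn h0 hc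
      refine ⟨_, hpos q.1 hq.1 q.2 ?_, fun z hz v hv => hmin (a := (z, v)) ⟨hz, hv⟩⟩
      have := hq.2
      rw [mem_sphere_zero_iff_norm] at this
      intro h3
      rw [h3, norm_zero] at this
      exact zero_ne_one this
  obtain ⟨M, hM⟩ := hN.exists_bound_of_continuousOn hsc
  have hlow : ∀ z ∈ N, ∀ u : E d, m * ‖u‖ ^ 2 ≤ s z ![u, A z u] := by
    intro z hz u
    by_cases hu : u = 0
    · have h1 : s z ![u, A z u] = 0 := by
        refine (s z).map_coord_zero 0 ?_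
        exact hu
      rw [h1, hu, norm_zero]
      simp
    · have hu' : 0 < ‖u‖ := norm_pos_iff.2 hu
      have h1 := hm' z hz (‖u‖⁻¹ • u) (by
        rw [mem_sphere_zero_iff_norm, norm_smul, norm_inv, norm_norm, inv_mul_cancel₀ hu'.ne'])
      have h2 := Pool.Agent.Y455.SY.Q_smul σ J x₀ z u ‖u‖⁻¹
      unfold Pool.Agent.Y455.SY.Q at h2
      rw [← hs, ← hA] at h2
      rw [h2, inv_pow] at h1
      rw [← div_eq_inv_mul, le_div_iff₀ (by positivity)] at h1
      exact h1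
  refine ⟨m, hm, M ^ 2 / m ^ 2, fun z hz => ⟨hlow z hz, fun u w => ?_⟩⟩
  have h1 : |s z ![u, w]| ≤ M * (‖u‖ * ‖w‖) :=
    (form2_le _ _ _).trans (mul_le_mul_of_nonneg_right (hM z hz) (by positivity))
  have h2 : s z ![u, w] ^ 2 ≤ (M * (‖u‖ * ‖w‖)) ^ 2 := by
    rw [← sq_abs]
    exact pow_le_pow_left₀ (abs_nonneg _) h1 2
  have h3 := hlow z hz u
  have h4 := hlow z hz w
  refine h2.trans ?_
  have h5 : (m * ‖u‖ ^ 2) * (m * ‖w‖ ^ 2) ≤ s z ![u, A z u] * s z ![w, A z w] :=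
    mul_le_mul h3 h4 (by positivity) ((by positivity : (0 : ℝ) ≤ m * ‖u‖ ^ 2).trans h3)
  calc (M * (‖u‖ * ‖w‖)) ^ 2 = M ^ 2 / m ^ 2 * ((m * ‖u‖ ^ 2) * (m * ‖w‖ ^ 2)) := by
        field_simp
    _ ≤ M ^ 2 / m ^ 2 * (s z ![u, A z u] * s z ![w, A z w]) := by gcongr
    _ = M ^ 2 / m ^ 2 * s z ![u, A z u] * s z ![w, A z w] := by ring

omit [IsManifold (𝓡 d) ∞ X] in
theorem e2_nonneg {σ : Form d X 2} {J : End d X} (h : ∀ p, TamesAt σ J p) (x : X) (a : E d) :
    0 ≤ e2 σ x a (eJ J x a) := by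
  by_cases ha : a = 0
  · rw [ha]
    refine le_of_eq ?_
    unfold e2
    exact ((σ x : (E d) [⋀^Fin 2]→L[ℝ] ℝ).map_coord_zero 0 rfl).symm
  · exact (h x a ha).le

/-- the distortion of a smooth taming form on a closed manifold is bounded -/
theorem exists_distortion [CompactSpace X] {σ : Form d X 2} {J : End d X} (hσ : IsSmooth σ)
    (hJ : ∀ x₀, ContinuousOn (inChart J x₀) (chartAt (E d) x₀).target)
    (h : ∀ p, TamesAt σ J p) : ∃ C : ℝ, 0 ≤ C ∧ ∀ (x : X) (a b : E d),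
      e2 σ x a b ^ 2 ≤ C * e2 σ x a (eJ J x a) * e2 σ x b (eJ J x b) := by
  obtain ⟨n, x, K, N, hK, hN, hKN, hNt, hcov⟩ := exists_cover d X
  choose m hm C hC using fun i => good_compact hσ hJ h (x i) (hN i) (hNt i)
  have hCi : ∀ i, C i ≤ ∑ i, |C i| := fun i => (le_abs_self _).trans
    (Finset.single_le_sum (f := fun i => |C i|) (fun j _ => abs_nonneg _) (Finset.mem_univ i))
  refine ⟨∑ i, |C i|, Finset.sum_nonneg fun i _ => abs_nonneg _, fun p a b => ?_⟩
  obtain ⟨i, z, hz, rfl⟩ := hcov p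
  have hzN := interior_subset (hKN i hz)
  have hzt := hNt i hzN
  have h1 := e2_nonneg h ((chartAt (E d) (x i)).symm z) a
  have h2 := e2_nonneg h ((chartAt (E d) (x i)).symm z) b
  have h3 := (hC i z hzN).2 (B (x i) z a) (B (x i) z b)
  rw [← B_J (x i) J hzt, ← B_J (x i) J hzt, ← e2_chart (x i) σ hzt, ← e2_chart (x i) σ hzt,
    ← e2_chart (x i) σ hzt] at h3
  refine h3.trans ?_
  have := hCi i
  gcongr

/-- the lower bound near the fibres over a compact set -/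
theorem exists_lower [CompactSpace X] [T2Space Y] {f : X → Y}
    (hf : ContMDiff (𝓡 d) (𝓡 d) ∞ f) {σ : Form d X 2} {J : End d X} (hσ : IsSmooth σ)
    (hJ : ∀ x₀, ContinuousOn (inChart J x₀) (chartAt (E d) x₀).target)
    (h : ∀ p, TamesAt σ J p) (y₀ : Y) {N : Set (E d)} (hN : IsCompact N)
    (hNt : N ⊆ (chartAt (E d) y₀).target) : ∃ c : ℝ, 0 < c ∧ ∀ p ∈ N, ∀ x : X,
      f x = (chartAt (E d) y₀).symm p → ∀ a : E d,
        c * ‖B y₀ p (Df f x a)‖ ^ 2 ≤ e2 σ x a (eJ J x a) := by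
  have hNc : IsCompact ((chartAt (E d) y₀).symm '' N) :=
    hN.image_of_continuousOn ((chartAt (E d) y₀).continuousOn_symm.mono hNt)
  have hFc : IsCompact (f ⁻¹' ((chartAt (E d) y₀).symm '' N)) :=
    (hNc.isClosed.preimage hf.continuous).isCompact
  obtain ⟨c, hc, hc'⟩ := hFc.induction_on (p := fun S => ∃ c : ℝ, 0 < c ∧ ∀ x ∈ S, ∀ p ∈ N,
      f x = (chartAt (E d) y₀).symm p → ∀ a : E d,
        c * ‖B y₀ p (Df f x a)‖ ^ 2 ≤ e2 σ x a (eJ J x a))
    ⟨1, one_pos, fun x hx => hx.elim⟩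
    (fun S T hST ⟨c, hc, hc'⟩ => ⟨c, hc, fun x hx => hc' x (hST hx)⟩)
    (fun S T ⟨c, hc, hc'⟩ ⟨c₁, hc₁, hc₁'⟩ => by
      refine ⟨min c c₁, by positivity, fun x hx p hp hxp a => ?_⟩
      rcases hx with hx | hx
      · refine le_trans ?_ (hc' x hx p hp hxp a)
        gcongr
        exact min_le_left _ _
      · refine le_trans ?_ (hc₁' x hx p hp hxp a)
        gcongr
        exact min_le_right _ _)
    (fun x hx => by
      have hxs : f x ∈ (chartAt (E d) y₀).source := by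
        obtain ⟨z, hz, hz'⟩ := hx
        rw [← hz']
        exact (chartAt (E d) y₀).map_target (hNt hz)
      have hsrc : x ∈ (chartAt (E d) x).source := mem_chart_source (E d) x
      set z₀ := chartAt (E d) x x with hz₀
      have hz₀W : z₀ ∈ Wc f x y₀ := by
        refine ⟨mem_chart_target (E d) x, ?_⟩
        show f ((chartAt (E d) x).symm (chartAt (E d) x x)) ∈ (chartAt (E d) y₀).source
        rw [(chartAt (E d) x).left_inv hsrc]
        exact hxs
      have hWo := isOpen_Wc (d := d) hf.continuous x y₀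
      obtain ⟨r, hr, hrW⟩ := Metric.nhds_basis_closedBall.mem_iff.1 (hWo.mem_nhds hz₀W)
      have hbt : closedBall z₀ r ⊆ (chartAt (E d) x).target := fun z hz => (hrW hz).1
      obtain ⟨m, hm, C, hC⟩ := good_compact hσ hJ h x (isCompact_closedBall z₀ r) hbt
      have hlc := contDiffOn_lc (d := d) hf x y₀
      obtain ⟨L, hL⟩ := (isCompact_closedBall z₀ r).exists_bound_of_continuousOn
        ((hlc.continuousOn_fderiv_of_isOpen hWo (by simp)).mono hrW)
      refine ⟨(chartAt (E d) x).source ∩ chartAt (E d) x ⁻¹' ball z₀ r,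
        mem_nhdsWithin_of_mem_nhds (((chartAt (E d) x).isOpen_inter_preimage
          isOpen_ball).mem_nhds ⟨hsrc, mem_ball_self hr⟩), m / (L ^ 2 + 1), by positivity, ?_⟩
      intro x' hx' p hp hxp a
      set z := chartAt (E d) x x' with hz
      have hzB : z ∈ closedBall z₀ r := ball_subset_closedBall hx'.2
      have hx'z : (chartAt (E d) x).symm z = x' := (chartAt (E d) x).left_inv hx'.1
      have hlcz : lc f x y₀ z = p := by
        show chartAt (E d) y₀ (f ((chartAt (E d) x).symm z)) = p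
        rw [hx'z, hxp]
        exact (chartAt (E d) y₀).right_inv (hNt hp)
      have h1 : B y₀ p (Df f x' a) = fderiv ℝ (lc f x y₀) z (B x z a) := by
        rw [fderiv_lc hf (hrW hzB), hlcz, hx'z]
        show B y₀ p (Df f x' a) = B y₀ p (Df f x' (A x z (B x z a)))
        rw [AB x (hbt hzB)]
      have h2 : m * ‖B x z a‖ ^ 2 ≤ e2 σ x' a (eJ J x' a) := by
        have h3 := (hC z hzB).1 (B x z a)
        rw [← B_J x J (hbt hzB), ← e2_chart x σ (hbt hzB), hx'z] at h3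
        exact h3
      have h4 : ‖B y₀ p (Df f x' a)‖ ≤ L * ‖B x z a‖ := by
        rw [h1]
        refine (ContinuousLinearMap.le_opNorm _ _).trans ?_
        have := hL z hzB
        gcongr
      calc m / (L ^ 2 + 1) * ‖B y₀ p (Df f x' a)‖ ^ 2 ≤
            m / (L ^ 2 + 1) * (L * ‖B x z a‖) ^ 2 := by gcongr
        _ = (L ^ 2 / (L ^ 2 + 1)) * (m * ‖B x z a‖ ^ 2) := by ring
        _ ≤ 1 * (m * ‖B x z a‖ ^ 2) := by
            gcongr
            rw [div_le_one (by positivity)]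
            linarith
        _ ≤ e2 σ x' a (eJ J x' a) := by rw [one_mul]; exact h2)
  exact ⟨c, hc, fun p hp x hx a => hc' x ⟨p, hp, hx.symm⟩ p hp hx a⟩

/-- a small primitive near a point -/
theorem prim_at [T2Space X] {σ : Form d X 2} {J : End d X} (hσ : IsSmooth σ)
    (hcl : IsClosedForm σ)
    (hJ : ∀ x₀, ContinuousOn (inChart J x₀) (chartAt (E d) x₀).target)
    (h : ∀ p, TamesAt σ J p) (x₁ : X) {O : Set X} (hO : O ∈ 𝓝 x₁) {δ : ℝ} (hδ : 0 < δ) :
    ∃ (l : Form d X 1) (ν : Form d X 2), IsSmooth l ∧ IsSmooth ν ∧ IsD l ν ∧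
      (∀ x, x ∉ O → l x = 0 ∧ ν x = 0) ∧
      ∀ᶠ x in 𝓝 x₁, ν x = σ x ∧ ∀ a : E d, e1 l x a ^ 2 ≤ δ ^ 2 * e2 σ x a (eJ J x a) := by
  have hsrc : x₁ ∈ (chartAt (E d) x₁).source := mem_chart_source (E d) x₁
  set q := chartAt (E d) x₁ x₁ with hq
  have hqt : q ∈ (chartAt (E d) x₁).target := mem_chart_target (E d) x₁
  have hsq : (chartAt (E d) x₁).symm q = x₁ := (chartAt (E d) x₁).left_inv hsrc
  have hO' : (chartAt (E d) x₁).symm ⁻¹' O ∈ 𝓝 q := by
    have h1 : ContinuousAt (chartAt (E d) x₁).symm q := (chartAt (E d) x₁).continuousAt_symm hqt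
    exact h1.preimage_mem_nhds (by rw [hsq]; exact hO)
  obtain ⟨b, Q, b1, b2, b3, b4, b5, b6, b7⟩ := exists_prim (chartAt (E d) x₁).open_target
    (smooth_chart hσ x₁) (closed_chart hcl x₁) hO' hqt
  obtain ⟨hD, hD0⟩ := isD_extF (x₀ := x₁) b1 b2 b3 b5
  have hb' : ContDiff ℝ ∞ (extDeriv b) := by
    rw [contDiff_iff_contDiffAt]
    intro z
    exact Pool.Agent.Y891.SY.contDiffAt_extDeriv b1.contDiffAt
  refine ⟨extF x₁ b, extF x₁ (extDeriv b), smooth_extF b1 b2 b3 b5, smooth_extF hb' b2 b3 hD0, hD,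
    fun x hx => ⟨extF_zero x₁ b b5 ?_, extF_zero x₁ (extDeriv b) hD0 ?_⟩, ?_⟩
  · rintro ⟨z, hz, rfl⟩
    exact hx (b4 hz)
  · rintro ⟨z, hz, rfl⟩
    exact hx (b4 hz)
  -- near the point
  obtain ⟨r, hr, hrt⟩ := Metric.nhds_basis_closedBall.mem_iff.1
    ((chartAt (E d) x₁).open_target.mem_nhds hqt)
  obtain ⟨m, hm, C, hC⟩ := good_compact hσ hJ h x₁ (isCompact_closedBall q r) hrt
  have hsmall : ∀ᶠ z in 𝓝 q, ‖b z‖ ^ 2 < δ ^ 2 * m := by
    have h1 : ContinuousAt (fun z => ‖b z‖ ^ 2) q := (b1.continuous.norm.pow 2).continuousAt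
    have h2 : ‖b q‖ ^ 2 < δ ^ 2 * m := by
      rw [b6, norm_zero, zero_pow two_ne_zero]
      positivity
    exact h1.eventually (gt_mem_nhds h2)
  have hev : ∀ᶠ z in 𝓝 q, z ∈ closedBall q r ∧ extDeriv b z = pb (chartAt (E d) x₁).symm σ z ∧
      ‖b z‖ ^ 2 < δ ^ 2 * m := by
    filter_upwards [closedBall_mem_nhds q hr, b7, hsmall] with z h1 h2 h3
    exact ⟨h1, h2, h3⟩
  have hch : ContinuousAt (chartAt (E d) x₁) x₁ := (chartAt (E d) x₁).continuousAt hsrc
  filter_upwards [hch.eventually hev, (chartAt (E d) x₁).open_source.mem_nhds hsrc] with x hx hxs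
  obtain ⟨h1, h2, h3⟩ := hx
  set z := chartAt (E d) x₁ x with hz
  have hxz : (chartAt (E d) x₁).symm z = x := (chartAt (E d) x₁).left_inv hxs
  have hzt := hrt h1
  refine ⟨?_, fun a => ?_⟩
  · have h4 : ∀ v : Fin 2 → E d, (extF x₁ (extDeriv b) x : (E d) [⋀^Fin 2]→L[ℝ] ℝ) v =
        (σ x : (E d) [⋀^Fin 2]→L[ℝ] ℝ) v := by
      intro v
      have hv : v = ![v 0, v 1] := by
        funext i
        fin_cases i <;> rfl
      have h5 : e2 (extF x₁ (extDeriv b)) x (v 0) (v 1) = e2 σ x (v 0) (v 1) := by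
        rw [← hxz, e2_chart x₁ _ hzt, e2_chart x₁ _ hzt, extF_symm x₁ _ hzt, h2]
      rw [hv]
      exact h5
    exact ContinuousAlternatingMap.ext h4
  · have h5 : e1 (extF x₁ b) x a = b z ![B x₁ z a] := by
      rw [← hxz, e1_chart x₁ _ hzt, extF_symm x₁ _ hzt]
    have h6 : |b z ![B x₁ z a]| ≤ ‖b z‖ * ‖B x₁ z a‖ := by
      have := (b z).le_opNorm ![B x₁ z a]
      rw [Fin.prod_univ_one] at this
      exact this
    have h7 : m * ‖B x₁ z a‖ ^ 2 ≤ e2 σ x a (eJ J x a) := by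
      have h8 := (hC z h1).1 (B x₁ z a)
      rw [← B_J x₁ J hzt, ← e2_chart x₁ σ hzt, hxz] at h8
      exact h8
    rw [h5, ← sq_abs]
    calc |b z ![B x₁ z a]| ^ 2 ≤ (‖b z‖ * ‖B x₁ z a‖) ^ 2 := by gcongr
      _ = ‖b z‖ ^ 2 * ‖B x₁ z a‖ ^ 2 := by ring
      _ ≤ (δ ^ 2 * m) * ‖B x₁ z a‖ ^ 2 := by gcongr
      _ = δ ^ 2 * (m * ‖B x₁ z a‖ ^ 2) := by ring
      _ ≤ δ ^ 2 * e2 σ x a (eJ J x a) := by gcongr

/-- a small primitive near a fibre -/
theorem prim_fibre [CompactSpace X] [T2Space X] [T2Space Y] {f : X → Y} (hf : Continuous f)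
    (hfin : ∀ y, (f ⁻¹' {y}).Finite) {σ : Form d X 2} {J : End d X} (hσ : IsSmooth σ)
    (hcl : IsClosedForm σ)
    (hJ : ∀ x₀, ContinuousOn (inChart J x₀) (chartAt (E d) x₀).target)
    (h : ∀ p, TamesAt σ J p) (y : Y) {δ : ℝ} (hδ : 0 < δ) :
    ∃ (l : Form d X 1) (ν : Form d X 2), IsSmooth l ∧ IsSmooth ν ∧ IsD l ν ∧
      ∃ V : Set Y, IsOpen V ∧ y ∈ V ∧ ∀ x, f x ∈ V → ν x = σ x ∧
        ∀ a : E d, e1 l x a ^ 2 ≤ δ ^ 2 * e2 σ x a (eJ J x a) := by
  classical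
  obtain ⟨U, hU, hdisj⟩ := (hfin y).t2_separation
  choose l ν h1 h2 h3 h4 h5 using fun x : X => prim_at hσ hcl hJ h x
    ((hU x).2.mem_nhds (hU x).1) hδ
  set S := (hfin y).toFinset with hS
  have hmem : ∀ x, x ∈ S ↔ f x = y := fun x => by
    rw [hS, Finite.mem_toFinset]
    rfl
  refine ⟨∑ x ∈ S, l x, ∑ x ∈ S, ν x, IsSmooth.sum _ fun x _ => h1 x,
    IsSmooth.sum _ fun x _ => h2 x, IsD.sum' _ (fun x _ => h3 x) fun x _ => h1 x, ?_⟩
  set G : Set X := {x | (∑ x' ∈ S, ν x') x = σ x ∧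
    ∀ a : E d, e1 (∑ x' ∈ S, l x') x a ^ 2 ≤ δ ^ 2 * e2 σ x a (eJ J x a)} with hG
  have hGn : ∀ x₁, f x₁ = y → G ∈ 𝓝 x₁ := by
    intro x₁ hx₁
    filter_upwards [h5 x₁, (hU x₁).2.mem_nhds (hU x₁).1] with x hx hxU
    have hother : ∀ x' ∈ S, x' ≠ x₁ → l x' x = 0 ∧ ν x' x = 0 := by
      intro x' hx' hne
      refine h4 x' x fun hxx' => ?_
      exact disjoint_left.1 (hdisj ((hmem x').1 hx') hx₁ hne) hxx' hxU
    have hS1 : x₁ ∈ S := (hmem x₁).2 hx₁
    have e1' : (∑ x' ∈ S, ν x') x = ν x₁ x := by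
      rw [Finset.sum_apply]
      exact Finset.sum_eq_single_of_mem x₁ hS1 fun x' hx' hne => (hother x' hx' hne).2
    have e2' : (∑ x' ∈ S, l x') x = l x₁ x := by
      rw [Finset.sum_apply]
      exact Finset.sum_eq_single_of_mem x₁ hS1 fun x' hx' hne => (hother x' hx' hne).1
    refine ⟨e1'.trans hx.1, fun a => ?_⟩
    have e3 : e1 (∑ x' ∈ S, l x') x a = e1 (l x₁) x a := by
      unfold e1
      rw [e2']
    rw [e3]
    exact hx.2 a
  have hc : IsCompact (f '' (interior G)ᶜ) :=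
    (isOpen_interior.isClosed_compl.isCompact).image hf
  refine ⟨(f '' (interior G)ᶜ)ᶜ, hc.isClosed.isOpen_compl, ?_, fun x hx => ?_⟩
  · rintro ⟨x, hx, hxy⟩
    exact hx (mem_interior_iff_mem_nhds.2 (hGn x hxy))
  · have h6 : x ∈ interior G := by
      by_contra h7
      exact hx ⟨x, h7, rfl⟩
    have h7 : x ∈ G := interior_subset h6
    exact h7

end Pool.Agent.H819.BC
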