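import Mathlib
import Pool.Agent.H819.BC.Cacc
import Pool.Agent.H819.BC.Lin

/-!
# Vanishing density from small local primitives
-/

set_option autoImplicit false

open Set Filter Topology MeasureTheory Metric
open scoped ContDiff ENNReal

noncomputable section

namespace Pool.Agent.H819.BC

open Pool.Agent.Y501.SY (E)
open Pool.Agent.H819.LG (GoodAt mass vol_ball)

variable {d : ℕ}

theorem iterate {m : ℝ → ℝ} {R b M₀ : ℝ} (hb : 0 ≤ b)
    (hstep : ∀ r, 0 < r → r ≤ R / 2 → m r ≤ 1 / 2 * m (2 * r) + b)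
    (h0 : ∀ r, R / 2 ≤ r → r ≤ R → m r ≤ M₀) (hR : 0 < R) (n : ℕ) :
    ∀ r, R / 2 ^ (n + 1) ≤ r → r ≤ R / 2 ^ n → m r ≤ M₀ / 2 ^ n + 2 * b := by
  induction n with
  | zero =>
    intro r h1 h2
    have := h0 r (by simpa using h1) (by simpa using h2)
    simp only [pow_zero, div_one]
    linarith
  | succ n ih =>
    intro r h1 h2
    have hr : 0 < r := lt_of_lt_of_le (by positivity) h1
    have h3 : r ≤ R / 2 := h2.trans (by
      rw [pow_succ]
      have h5 : (1 : ℝ) ≤ 2 ^ n := one_le_pow₀ one_le_two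
      gcongr
      linarith)
    have h4 := ih (2 * r) (by
      rw [div_le_iff₀ (by positivity)] at h1 ⊢
      calc R ≤ r * 2 ^ (n + 1 + 1) := h1
        _ = 2 * r * 2 ^ (n + 1) := by ring) (by
      rw [le_div_iff₀ (by positivity)] at h2 ⊢
      calc 2 * r * 2 ^ n = r * 2 ^ (n + 1) := by ring
        _ ≤ R := h2)
    have h5 := hstep r hr h3
    have h6 : M₀ / 2 ^ (n + 1) = 1 / 2 * (M₀ / 2 ^ n) := by
      rw [pow_succ]
      field_simp
    rw [h6]
    linarith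

theorem iterate' {m : ℝ → ℝ} {R b M₀ : ℝ} (hb : 0 ≤ b)
    (hstep : ∀ r, 0 < r → r ≤ R / 2 → m r ≤ 1 / 2 * m (2 * r) + b)
    (h0 : ∀ r, R / 2 ≤ r → r ≤ R → m r ≤ M₀) (hM₀ : 0 ≤ M₀) (hR : 0 < R) (N : ℕ) {r : ℝ}
    (hr : 0 < r) (hrN : r ≤ R / 2 ^ N) : m r ≤ M₀ / 2 ^ N + 2 * b := by
  have hx : (2 : ℝ) ^ N ≤ R / r := by
    rw [le_div_iff₀ (by positivity)] at hrN ⊢
    linarith
  obtain ⟨n, hn1, hn2⟩ := exists_nat_pow_near ((one_le_pow₀ one_le_two).trans hx)
    (one_lt_two (α := ℝ))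
  have hNn : N ≤ n := by
    have h1 : (2 : ℝ) ^ N < 2 ^ (n + 1) := hx.trans_lt hn2
    have h2 := (pow_lt_pow_iff_right₀ (one_lt_two (α := ℝ))).1 h1
    omega
  have h1 := iterate hb hstep h0 hR n r (by
    rw [div_le_iff₀ (by positivity)]
    rw [div_lt_iff₀ hr] at hn2
    linarith) (by
    rw [le_div_iff₀ (by positivity)]
    rw [le_div_iff₀ hr] at hn1
    linarith)
  have h2 : M₀ / 2 ^ n ≤ M₀ / 2 ^ N := by
    have : (2 : ℝ) ^ N ≤ 2 ^ n := pow_le_pow_right₀ one_le_two hNn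
    gcongr
  linarith

/-- the norm of a form of bounded distortion is bounded by its trace -/
theorem norm_le_tr {θ : (E d) [⋀^Fin 2]→L[ℝ] ℝ} {A : E d →L[ℝ] E d} {C : ℝ} (hC : 0 ≤ C)
    (h0 : ∀ v, 0 ≤ θ ![v, A v]) (h : ∀ u w : E d, θ ![u, w] ^ 2 ≤ C * θ ![u, A u] * θ ![w, A w]) :
    ‖θ‖ ≤ d ^ 2 * Real.sqrt C * tr θ A := by
  have htr : 0 ≤ tr θ A := Finset.sum_nonneg fun k _ => h0 _
  have hk : ∀ k, θ ![bb d k, A (bb d k)] ≤ tr θ A := fun k =>
    Finset.single_le_sum (f := fun k => θ ![bb d k, A (bb d k)]) (fun j _ => h0 _)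
      (Finset.mem_univ k)
  have hij : ∀ i j, |θ ![bb d i, bb d j]| ≤ Real.sqrt C * tr θ A := by
    intro i j
    refine abs_le_of_sq_le_sq' ?_ (by positivity) |> abs_le.2
    rw [mul_pow, Real.sq_sqrt hC]
    calc θ ![bb d i, bb d j] ^ 2 ≤ C * θ ![bb d i, A (bb d i)] * θ ![bb d j, A (bb d j)] := h _ _
      _ ≤ C * tr θ A * tr θ A := by
          have := hk i
          have := hk j
          have := h0 (bb d i)
          have := h0 (bb d j)
          gcongr
      _ = C * tr θ A ^ 2 := by ring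
  refine θ.opNorm_le_bound (by positivity) fun v => ?_
  have hv : v = ![v 0, v 1] := by
    funext i
    fin_cases i <;> rfl
  have hbs : ∀ i, bs d i = bb d i := fun i => (EuclideanSpace.basisFun (Fin d) ℝ).coe_toBasis ▸ rfl
  rw [hv, two_sum, Fin.prod_univ_two, Real.norm_eq_abs]
  have hcoord : ∀ (x : E d) (i : Fin d), |x i| ≤ ‖x‖ := by
    intro x i
    have := EuclideanSpace.norm_eq x
    rw [this]
    refine Real.abs_le_sqrt ?_
    have h1 := Finset.single_le_sum (f := fun i => ‖x i‖ ^ 2) (fun j _ => sq_nonneg _)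
      (Finset.mem_univ i)
    simpa using h1
  calc |∑ j, ∑ i, v 0 i * v 1 j * θ ![bs d i, bs d j]|
      ≤ ∑ j : Fin d, ∑ i : Fin d, ‖v 0‖ * ‖v 1‖ * (Real.sqrt C * tr θ A) := by
        refine (Finset.abs_sum_le_sum_abs _ _).trans (Finset.sum_le_sum fun j _ => ?_)
        refine (Finset.abs_sum_le_sum_abs _ _).trans (Finset.sum_le_sum fun i _ => ?_)
        rw [abs_mul, abs_mul, hbs, hbs]
        have := hcoord (v 0) i
        have := hcoord (v 1) j
        have := hij i j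
        gcongr
    _ = d ^ 2 * Real.sqrt C * tr θ A * (‖(![v 0, v 1] : Fin 2 → E d) 0‖ *
        ‖(![v 0, v 1] : Fin 2 → E d) 1‖) := by
        simp only [Finset.sum_const, Finset.card_univ, Fintype.card_fin, nsmul_eq_mul,
          Matrix.cons_val_zero, Matrix.cons_val_one]
        ring

/-- **Vanishing density in a chart.** -/
theorem density_chart (hd : 0 < d) {U : Set (E d)} (hU : IsOpen U)
    {θ : E d → (E d) [⋀^Fin 2]→L[ℝ] ℝ} {A : E d → (E d →L[ℝ] E d)}
    (hθ : LocallyIntegrableOn θ U) (hA : ContinuousOn A U)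
    (hLip : ∀ N : Set (E d), IsCompact N → N ⊆ U → ∃ L : ℝ, ∀ z ∈ N, ∀ z' ∈ N,
      ‖A z' - A z‖ ≤ L * ‖z' - z‖)
    (hgood : ∀ N : Set (E d), IsCompact N → N ⊆ U → ∃ c₀ : ℝ, 0 < c₀ ∧ ∃ C : ℝ,
      ∀ᵐ z ∂(volume.restrict N), GoodAt θ A C c₀ z)
    (hprim : ∀ q ∈ U, ∀ δ : ℝ, 0 < δ → ∃ V : Set (E d), IsOpen V ∧ q ∈ V ∧
      ∃ α : E d → (E d) [⋀^Fin 1]→L[ℝ] ℝ, LocallyIntegrableOn α U ∧
      (∀ᵐ z ∂(volume.restrict V), ∀ v, α z ![v] ^ 2 ≤ δ ^ 2 * θ z ![v, A z v]) ∧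
      ∀ φ : E d → ℝ, ContDiff ℝ ∞ φ → HasCompactSupport φ → tsupport φ ⊆ U → tsupport φ ⊆ V →
        ∀ u v : E d, ∫ z, (α z ![v] * fderiv ℝ φ z u - α z ![u] * fderiv ℝ φ z v) =
          - ∫ z, θ z ![u, v] * φ z)
    {K : Set (E d)} (hK : IsCompact K) (hKU : K ⊆ U) {ε : ℝ} (hε : 0 < ε) :
    ∃ ρ₀ : ℝ, 0 < ρ₀ ∧ ∀ ρ, 0 < ρ → ρ < ρ₀ → ∀ z ∈ K,
      mass θ A (A z) z ρ ≤ ENNReal.ofReal (ε * ρ ^ d) := by
  obtain ⟨Cb, hCb, hbump⟩ := exists_bump d
  obtain ⟨r₀, hr₀, hr₀t⟩ := hK.exists_cthickening_subset_open hU hKU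
  set N : Set (E d) := cthickening r₀ K with hN
  have hNc : IsCompact N := hK.cthickening
  obtain ⟨L', hL'⟩ := hLip N hNc hr₀t
  obtain ⟨c₀, hc₀, C, hC⟩ := hgood N hNc hr₀t
  obtain ⟨M', hM'⟩ := hNc.exists_bound_of_continuousOn (hA.mono hr₀t)
  set L : ℝ := max L' 0 with hL
  have hL0 : 0 ≤ L := le_max_right _ _
  set M : ℝ := max M' 1 with hM
  have hM0 : 0 < M := lt_of_lt_of_le one_pos (le_max_right _ _)
  set C' : ℝ := max C 0 with hC'
  set C₃ : ℝ := d ^ 2 * Real.sqrt C' + 1 with hC₃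
  have hC₃0 : 0 < C₃ := by positivity
  set V₁ : ℝ := (volume (closedBall (0 : E d) 1)).toReal with hV₁
  have hV₁0 : 0 ≤ V₁ := ENNReal.toReal_nonneg
  have hvol : ∀ (z : E d) (r : ℝ), 0 ≤ r → (volume (closedBall z r)).toReal = r ^ d * V₁ := by
    intro z r hr
    rw [vol_ball z hr, ENNReal.toReal_mul, ENNReal.toReal_ofReal (by positivity)]
  have hd' : (0 : ℝ) < d := by exact_mod_cast hd
  set κ : ℝ := 2 / 2 ^ d with hκ
  have hκ0 : 0 < κ := by positivity
  -- the target for the traces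
  set ε' : ℝ := ε / ((1 + L) ^ 2 * C₃) with hε'
  have hε'0 : 0 < ε' := by positivity
  set Kc : ℝ := 4 * d ^ 2 * Cb ^ 2 * M ^ 3 * C₃ * (2 ^ d * V₁) / κ + 1 with hKc
  have hKc0 : 0 < Kc := by positivity
  -- `δ`
  set δ : ℝ := Real.sqrt (ε' / (4 * Kc)) with hδ
  have hδ0 : 0 < δ := Real.sqrt_pos.2 (by positivity)
  have hδ2 : δ ^ 2 = ε' / (4 * Kc) := Real.sq_sqrt (by positivity)
  have hp := fun q : K => hprim q (hKU q.2) δ hδ0
  choose V hVo hqV α hα1 hα2 hα3 using hp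
  obtain ⟨R₁, hR₁, hR₁'⟩ := lebesgue_number_lemma_of_metric hK hVo
    (fun q hq => mem_iUnion.2 ⟨⟨q, hq⟩, hqV ⟨q, hq⟩⟩)
  set R : ℝ := min (min (R₁ / 2) r₀) (1 / (4 * d * C₃ * L + 1)) with hR
  have hR0 : 0 < R := by positivity
  have hRR₁ : R < R₁ := lt_of_le_of_lt ((min_le_left _ _).trans (min_le_left _ _)) (by linarith)
  have hRr₀ : R ≤ r₀ := (min_le_left _ _).trans (min_le_right _ _)
  have hRL : (4 * d * C₃ * L) * R ≤ 1 := by
    have h1 : R ≤ 1 / (4 * d * C₃ * L + 1) := min_le_right _ _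
    have h2 : 0 ≤ 4 * d * C₃ * L := by positivity
    calc (4 * d * C₃ * L) * R ≤ (4 * d * C₃ * L + 1) * (1 / (4 * d * C₃ * L + 1)) := by
          gcongr
          linarith
      _ = 1 := by field_simp
  have hθN : IntegrableOn θ N := hθ.integrableOn_compact_subset hr₀t hNc
  have hAN : ContinuousOn A N := hA.mono hr₀t
  have hANM : ∀ z ∈ N, ‖A z‖ ≤ M := fun z hz => (hM' z hz).trans (le_max_left _ _)
  have hti : IntegrableOn (fun z => tr (θ z) (A z)) N :=
    intOn_tr hNc.measurableSet hθN hAN hANM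
  have g1 : ∀ᵐ z ∂(volume.restrict N), ∀ v, 0 ≤ θ z ![v, A z v] := by
    filter_upwards [hC] with z hz v
    exact le_trans (by positivity) (hz.1 v)
  have g2 : ∀ᵐ z ∂(volume.restrict N), ‖θ z‖ ≤ C₃ * tr (θ z) (A z) := by
    filter_upwards [hC, g1] with z hz hz1
    have h1 : ∀ u w : E d, θ z ![u, w] ^ 2 ≤ C' * θ z ![u, A z u] * θ z ![w, A z w] := by
      intro u w
      refine (hz.2 u w).trans ?_
      have := hz1 u
      have := hz1 w
      gcongr
      exact le_max_left _ _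
    refine (norm_le_tr (le_max_right _ _) hz1 h1).trans ?_
    have h2 : 0 ≤ tr (θ z) (A z) := Finset.sum_nonneg fun k _ => hz1 _
    rw [hC₃]
    nlinarith
  have g3 : ∀ᵐ z ∂(volume.restrict N), 0 ≤ tr (θ z) (A z) := by
    filter_upwards [g1] with z hz
    exact Finset.sum_nonneg fun k _ => hz _
  have hball : ∀ z ∈ K, ∀ r, r ≤ R → closedBall z r ⊆ N := fun z hz r hr =>
    (closedBall_subset_closedBall (hr.trans hRr₀)).trans (closedBall_subset_cthickening hz _)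
  set I : ℝ := ∫ z in N, tr (θ z) (A z) with hI
  have hI0 : 0 ≤ I := by
    refine setIntegral_nonneg_of_ae_restrict ?_
    exact g3
  set M₀ : ℝ := R ^ 2 / (R / 2) ^ d * I with hM₀
  have hM₀0 : 0 ≤ M₀ := by positivity
  -- the scale
  obtain ⟨n, hn⟩ : ∃ n : ℕ, M₀ / 2 ^ n ≤ ε' / 2 := by
    obtain ⟨n, hn⟩ := pow_unbounded_of_one_lt (2 * M₀ / ε') (one_lt_two (α := ℝ))
    refine ⟨n, ?_⟩
    rw [div_lt_iff₀ hε'0] at hn
    rw [div_le_iff₀ (by positivity)]
    nlinarith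
  -- the densities
  have main : ∀ z ∈ K, ∀ r, 0 < r → r ≤ R / 2 ^ n →
      r ^ 2 / r ^ d * ∫ z' in closedBall z r, tr (θ z') (A z') ≤ ε' := by
    intro z hz r hr hrn
    set m : ℝ → ℝ := fun r => r ^ 2 / r ^ d * ∫ z' in closedBall z r, tr (θ z') (A z') with hm
    set b : ℝ := Kc * δ ^ 2 with hb
    have hb0 : 0 ≤ b := by positivity
    obtain ⟨q, hq⟩ := hR₁' z hz
    have hstep : ∀ r, 0 < r → r ≤ R / 2 → m r ≤ 1 / 2 * m (2 * r) + b := by
      intro r hr hrR
      have h2r : 2 * r ≤ R := by linarith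
      have hSN : closedBall z (2 * r) ⊆ N := hball z hz _ h2r
      have hSV : closedBall z (2 * r) ⊆ V q :=
        (closedBall_subset_ball (h2r.trans_lt hRR₁)).trans hq
      have hSU : closedBall z (2 * r) ⊆ U := hSN.trans hr₀t
      obtain ⟨φ, φ1, φ2, φ3, φ4, φ5, φ6⟩ := hbump z r hr
      have hφc : HasCompactSupport φ :=
        (isCompact_closedBall z (2 * r)).of_isClosed_subset (isClosed_tsupport φ) φ2
      have hzS : z ∈ closedBall z (2 * r) := mem_closedBall_self (by positivity)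
      have key := cacc_step hCb hr φ1 φ2 φ3 φ4 φ6 (θ := θ) (α := α q) (A := A) (M := M) (L := L)
        (C₃ := C₃) (δ := δ) (κ := κ) hM0 hL0 hC₃0 hδ0 hκ0 hd (hθN.mono_set hSN)
        ((hα1 q).integrableOn_compact_subset hSU (isCompact_closedBall _ _)) (hAN.mono hSN)
        (fun z' hz' => hANM z' (hSN hz')) (fun z' hz' => by
          refine (hL' z (hSN hzS) z' (hSN hz')).trans ?_
          gcongr
          exact le_max_left _ _) (by
          calc 4 * d * C₃ * L * r ≤ 4 * d * C₃ * L * R := by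
                gcongr
                linarith
            _ ≤ 1 := hRL)
        (ae_mono (Measure.restrict_mono hSN le_rfl) g1)
        (ae_mono (Measure.restrict_mono hSN le_rfl) g2)
        (ae_mono (Measure.restrict_mono hSV le_rfl) (hα2 q))
        (hα3 q φ φ1 hφc (φ2.trans hSU) (φ2.trans hSV))
      rw [hvol z _ (by positivity)] at key
      have hrd : 0 < r ^ d := by positivity
      calc m r ≤ r ^ 2 / r ^ d * (κ * (∫ z' in closedBall z (2 * r), tr (θ z') (A z')) +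
            4 * d ^ 2 * Cb ^ 2 * M ^ 3 * C₃ * δ ^ 2 / (κ * r ^ 2) * ((2 * r) ^ d * V₁)) := by
            refine mul_le_mul_of_nonneg_left key (by positivity)
        _ = 1 / 2 * m (2 * r) + 4 * d ^ 2 * Cb ^ 2 * M ^ 3 * C₃ * (2 ^ d * V₁) / κ * δ ^ 2 := by
            simp only [hm]
            rw [hκ]
            field_simp
            ring
        _ ≤ 1 / 2 * m (2 * r) + b := by
            rw [hb, hKc]
            nlinarith [sq_nonneg δ]
    have h0 : ∀ r, R / 2 ≤ r → r ≤ R → m r ≤ M₀ := by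
      intro r h1 h2
      have hr : 0 < r := lt_of_lt_of_le (by positivity) h1
      have h3 : ∫ z' in closedBall z r, tr (θ z') (A z') ≤ I :=
        setIntegral_mono_set hti g3 (LE.le.eventuallyLE (hball z hz r h2))
      have h4 : 0 ≤ ∫ z' in closedBall z r, tr (θ z') (A z') :=
        setIntegral_nonneg_of_ae_restrict
          (ae_mono (Measure.restrict_mono (hball z hz r h2) le_rfl) g3)
      calc m r ≤ R ^ 2 / (R / 2) ^ d * I := by
            simp only [hm]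
            gcongr
        _ = M₀ := rfl
    have := iterate' hb0 hstep h0 hM₀0 hR0 n hr hrn
    have hb2 : 2 * b = ε' / 2 := by
      rw [hb, hδ2]
      field_simp
      norm_num
    calc m r ≤ M₀ / 2 ^ n + 2 * b := this
      _ ≤ ε' / 2 + ε' / 2 := by rw [hb2]; gcongr
      _ = ε' := by ring
  refine ⟨R / 2 ^ n, by positivity, fun ρ hρ hρ' z hz => ?_⟩
  have hρR : ρ ≤ R := hρ'.le.trans (div_le_self hR0.le (one_le_pow₀ one_le_two))
  have hSN : closedBall z ρ ⊆ N := hball z hz ρ hρR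
  have hzS : z ∈ closedBall z ρ := mem_closedBall_self hρ.le
  have h1 := main z hz ρ hρ hρ'.le
  have h2 : ∫ z' in closedBall z ρ, tr (θ z') (A z') ≤ ε' * ρ ^ d / ρ ^ 2 := by
    rw [div_mul_eq_mul_div, div_le_iff₀ (by positivity)] at h1
    rw [le_div_iff₀ (by positivity)]
    linarith
  unfold mass
  calc ∫⁻ z' in closedBall z ρ, ENNReal.ofReal ((ρ + ‖A z' - A z‖) ^ 2) * ‖θ z'‖ₑ
      ≤ ∫⁻ z' in closedBall z ρ, ENNReal.ofReal ((1 + L) ^ 2 * ρ ^ 2 * C₃) *
          ENNReal.ofReal (tr (θ z') (A z')) := by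
        refine lintegral_mono_ae ?_
        filter_upwards [ae_mono (Measure.restrict_mono hSN le_rfl) g2,
          ae_mono (Measure.restrict_mono hSN le_rfl) g3,
          ae_restrict_mem measurableSet_closedBall] with z' h3 h4 hz'
        rw [← ENNReal.ofReal_mul (by positivity), ← ofReal_norm,
          ← ENNReal.ofReal_mul (by positivity)]
        refine ENNReal.ofReal_le_ofReal ?_
        have h5 : ‖A z' - A z‖ ≤ L * ρ := by
          refine (hL' z (hSN hzS) z' (hSN hz')).trans ?_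
          rw [mem_closedBall, dist_eq_norm] at hz'
          calc L' * ‖z' - z‖ ≤ L * ‖z' - z‖ := by
                gcongr
                exact le_max_left _ _
            _ ≤ L * ρ := by gcongr
        calc (ρ + ‖A z' - A z‖) ^ 2 * ‖θ z'‖ ≤ (ρ + L * ρ) ^ 2 * (C₃ * tr (θ z') (A z')) := by
              gcongr
          _ = (1 + L) ^ 2 * ρ ^ 2 * C₃ * tr (θ z') (A z') := by ring
    _ = ENNReal.ofReal ((1 + L) ^ 2 * ρ ^ 2 * C₃) *
        ∫⁻ z' in closedBall z ρ, ENNReal.ofReal (tr (θ z') (A z')) :=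
        lintegral_const_mul' _ _ ENNReal.ofReal_ne_top
    _ = ENNReal.ofReal ((1 + L) ^ 2 * ρ ^ 2 * C₃) *
        ENNReal.ofReal (∫ z' in closedBall z ρ, tr (θ z') (A z')) := by
        rw [ofReal_integral_eq_lintegral_ofReal (hti.mono_set hSN)
          (ae_mono (Measure.restrict_mono hSN le_rfl) g3)]
    _ ≤ ENNReal.ofReal (ε * ρ ^ d) := by
        rw [← ENNReal.ofReal_mul (by positivity)]
        refine ENNReal.ofReal_le_ofReal ?_
        calc (1 + L) ^ 2 * ρ ^ 2 * C₃ * ∫ z' in closedBall z ρ, tr (θ z') (A z')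
            ≤ (1 + L) ^ 2 * ρ ^ 2 * C₃ * (ε' * ρ ^ d / ρ ^ 2) := by gcongr
          _ = ε * ρ ^ d := by
              rw [hε']
              field_simp

end Pool.Agent.H819.BC
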