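import Mathlib
import Pool.Agent.H819.BC.Fibre
import Pool.Agent.H819.BC.Iter

/-!
# Descending a symplectic form along a branched covering
-/

set_option autoImplicit false

open Set Filter Topology MeasureTheory Metric Function
open scoped Manifold ContDiff

noncomputable section

namespace Pool.Agent.H819.BC

open Pool.Agent.Y501.SY
open Pool.Agent.Y455.SY (A B AB BA)
open Pool.Agent.Y431.SY (ev ev_apply)
open Pool.Agent.H819.LG (GoodAt smooth_chart WeakPrim StronglyTames VanishingDensity InClass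
  vanishing_density)

variable {d : ℕ} {X : Type} [TopologicalSpace X] [ChartedSpace (E d) X]
  {Y : Type} [TopologicalSpace Y] [ChartedSpace (E d) Y]

theorem en0 {F : Type} [NormedAddCommGroup F] : ‖(0 : F)‖ₑ = 0 := enorm_zero

theorem loc_add {F : Type} [NormedAddCommGroup F] {f g : E d → F} {T : Set (E d)}
    (hf : LocallyIntegrableOn f T) (hg : LocallyIntegrableOn g T) :
    LocallyIntegrableOn (fun z => f z + g z) T := fun z hz => (hf z hz).add (hg z hz)

theorem loc_smul {F : Type} [NormedAddCommGroup F] [NormedSpace ℝ F] {f : E d → F}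
    {T : Set (E d)} (c : ℝ) (hf : LocallyIntegrableOn f T) :
    LocallyIntegrableOn (fun z => c • f z) T := fun z hz => (hf z hz).smul c

/-- the pull-back of a form -/
def pullF (f : X → Y) {k : ℕ} (σ : Form d Y k) : Form d X k := fun x =>
  (σ (f x)).compContinuousLinearMap (mfderiv (𝓡 d) (𝓡 d) f x)

theorem pullF_two (f : X → Y) (σ : Form d Y 2) (x : X) (a b : E d) :
    e2 (pullF f σ) x a b = e2 σ (f x) (Df f x a) (Df f x b) := by
  unfold e2 pullF
  refine (ContinuousAlternatingMap.compContinuousLinearMap_apply _ _ _).trans ?_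
  refine congrArg (fun v => (σ (f x) : (E d) [⋀^Fin 2]→L[ℝ] ℝ) v) ?_
  funext i
  fin_cases i <;> rfl

/-- the value of a push-forward in a chart -/
theorem push_apply {f : X → Y} (hfin : ∀ y, (f ⁻¹' {y}).Finite) {y₀ : Y} {k : ℕ}
    (τ : Form d X k) (p : E d) (v : Fin k → E d) :
    pb (chartAt (E d) y₀).symm (push f τ) p v =
      ∑ x ∈ (hfin ((chartAt (E d) y₀).symm p)).toFinset,
        (τ x : (E d) [⋀^Fin k]→L[ℝ] ℝ) (fun i => (Df f x).inverse (A y₀ p (v i))) := by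
  have e1 : pb (chartAt (E d) y₀).symm (push f τ) p =
      ∑ x ∈ (hfin ((chartAt (E d) y₀).symm p)).toFinset,
        (ci (τ x) (Df f x)).compContinuousLinearMap (A y₀ p) := by
    refine (AddMonoidHom.map_finsum_mem (fun x => ci (τ x) (Df f x))
      (ContinuousAlternatingMap.compContinuousLinearMapCLM (A y₀ p) :
        ((E d) [⋀^Fin k]→L[ℝ] ℝ) →L[ℝ] ((E d) [⋀^Fin k]→L[ℝ] ℝ)).toLinearMap.toAddMonoidHom
      (hfin _)).trans ?_
    exact finsum_mem_eq_finite_toFinset_sum _ (hfin _)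
  rw [e1, sum_ev]
  rfl

theorem push_two {f : X → Y} (hfin : ∀ y, (f ⁻¹' {y}).Finite) {y₀ : Y}
    (τ : Form d X 2) (p u v : E d) : pb (chartAt (E d) y₀).symm (push f τ) p ![u, v] =
      ∑ x ∈ (hfin ((chartAt (E d) y₀).symm p)).toFinset,
        e2 τ x ((Df f x).inverse (A y₀ p u)) ((Df f x).inverse (A y₀ p v)) := by
  rw [push_apply hfin]
  refine Finset.sum_congr rfl fun x _ => ?_
  unfold e2
  congr 1
  funext i
  fin_cases i <;> rfl

theorem push_one {f : X → Y} (hfin : ∀ y, (f ⁻¹' {y}).Finite) {y₀ : Y}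
    (τ : Form d X 1) (p u : E d) : pb (chartAt (E d) y₀).symm (push f τ) p ![u] =
      ∑ x ∈ (hfin ((chartAt (E d) y₀).symm p)).toFinset,
        e1 τ x ((Df f x).inverse (A y₀ p u)) := by
  rw [push_apply hfin]
  refine Finset.sum_congr rfl fun x _ => ?_
  unfold e1
  congr 1
  funext i
  fin_cases i
  rfl

variable [IsManifold (𝓡 d) ∞ X] [IsManifold (𝓡 d) ∞ Y]

/-- the points of the chart over which `f` is a covering with `m` sheets -/
structure GoodPt (f : X → Y) (y₀ : Y) (m : ℕ) (p : E d) : Prop where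
  mem : p ∈ (chartAt (E d) y₀).target
  inv : ∀ x, f x = (chartAt (E d) y₀).symm p → (Df (d := d) f x).IsInvertible
  card : (f ⁻¹' {(chartAt (E d) y₀).symm p}).ncard = m

theorem ae_good [CompactSpace X] {f : X → Y} {JX : End d X} {JY : End d Y} {m : ℕ}
    (hc : Cover f JX JY m) (y₀ : Y) :
    ∀ᵐ p ∂(volume.restrict (chartAt (E d) y₀).target), GoodPt (d := d) f y₀ m p := by
  obtain ⟨t, ht⟩ := isCompact_univ.elim_finite_subcover (fun y : X => (chartAt (E d) y).source)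
    (fun y => (chartAt (E d) y).open_source)
    (fun y _ => mem_iUnion.2 ⟨y, mem_chart_source (E d) y⟩)
  have hnull : ∀ x₁ : X, volume (lc (d := d) f x₁ y₀ ''
      {z : E d | z ∈ Wc f x₁ y₀ ∧ (fderiv ℝ (lc (d := d) f x₁ y₀) z).det = 0}) = 0 := by
    intro x₁
    have hWo := isOpen_Wc (d := d) hc.smooth.continuous x₁ y₀
    have hlc := contDiffOn_lc (d := d) hc.smooth x₁ y₀
    refine addHaar_image_eq_zero_of_det_fderivWithin_eq_zero volume
      (f' := fun z => fderiv ℝ (lc f x₁ y₀) z) (fun z hz => ?_) fun z hz => hz.2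
    exact ((hlc.contDiffAt (hWo.mem_nhds hz.1)).differentiableAt
      (by simp)).hasFDerivAt.hasFDerivWithinAt
  have hall : ∀ᵐ p : E d, ∀ x₁ ∈ t, p ∉ lc (d := d) f x₁ y₀ ''
      {z : E d | z ∈ Wc f x₁ y₀ ∧ (fderiv ℝ (lc (d := d) f x₁ y₀) z).det = 0} := by
    exact (Filter.eventually_all_finset t).2 fun x₁ _ =>
      measure_eq_zero_iff_ae_notMem.1 (hnull x₁)
  filter_upwards [hc.count y₀, ae_restrict_of_ae hall,
    ae_restrict_mem (chartAt (E d) y₀).open_target.measurableSet] with p h1 h2 h3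
  refine ⟨h3, fun x hx => ?_, h1⟩
  obtain ⟨x₁, hx₁, hxs⟩ := mem_iUnion₂.1 (ht (mem_univ x))
  set z := chartAt (E d) x₁ x with hz
  have hxz : (chartAt (E d) x₁).symm z = x := (chartAt (E d) x₁).left_inv hxs
  have hzW : z ∈ Wc f x₁ y₀ := by
    refine ⟨(chartAt (E d) x₁).map_source hxs, ?_⟩
    show f ((chartAt (E d) x₁).symm z) ∈ (chartAt (E d) y₀).source
    rw [hxz, hx]
    exact (chartAt (E d) y₀).map_target h3
  have hlcz : lc f x₁ y₀ z = p := by
    show chartAt (E d) y₀ (f ((chartAt (E d) x₁).symm z)) = p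
    rw [hxz, hx]
    exact (chartAt (E d) y₀).right_inv h3
  have h4 := det_lc (d := d) hc.smooth hzW
  rw [hxz] at h4
  refine h4.1 fun h5 => h2 x₁ hx₁ ⟨z, ⟨hzW, h5⟩, hlcz⟩

omit [IsManifold (𝓡 d) ∞ X] [IsManifold (𝓡 d) ∞ Y] in
/-- the averaged push-forward at a good point -/
theorem theta_eq {f : X → Y} {JX : End d X} {JY : End d Y} {m : ℕ} (hm : 0 < m)
    (hc : Cover f JX JY m) {σ₀ : Form d Y 2} {w ξ : Form d X 2}
    (hw : ∀ (x : X) (a b : E d), e2 w x a b = e2 (pullF f σ₀) x a b + e2 ξ x a b) {y₀ : Y}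
    {p : E d} (hp : GoodPt (d := d) f y₀ m p) (u v : E d) :
    pb (chartAt (E d) y₀).symm (σ₀ + (m : ℝ)⁻¹ • push f ξ) p ![u, v] =
      (m : ℝ)⁻¹ * ∑ x ∈ (hc.fin ((chartAt (E d) y₀).symm p)).toFinset,
        e2 w x ((Df f x).inverse (A y₀ p u)) ((Df f x).inverse (A y₀ p v)) := by
  have h1 : pb (chartAt (E d) y₀).symm (σ₀ + (m : ℝ)⁻¹ • push f ξ) p ![u, v] =
      pb (chartAt (E d) y₀).symm σ₀ p ![u, v] +
        (m : ℝ)⁻¹ * pb (chartAt (E d) y₀).symm (push f ξ) p ![u, v] := rfl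
  have hcard : (hc.fin ((chartAt (E d) y₀).symm p)).toFinset.card = m := by
    rw [← ncard_eq_toFinset_card _ (hc.fin ((chartAt (E d) y₀).symm p))]
    exact hp.card
  have hm' : (m : ℝ) ≠ 0 := by
    have : (0 : ℝ) < m := by exact_mod_cast hm
    exact this.ne'
  rw [h1, push_two hc.fin]
  simp_rw [hw]
  rw [Finset.sum_add_distrib, mul_add]
  congr 1
  have h2 : ∀ x ∈ (hc.fin ((chartAt (E d) y₀).symm p)).toFinset,
      e2 (pullF f σ₀) x ((Df f x).inverse (A y₀ p u)) ((Df f x).inverse (A y₀ p v)) =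
        pb (chartAt (E d) y₀).symm σ₀ p ![u, v] := by
    intro x hx
    have hx' : f x = (chartAt (E d) y₀).symm p := by
      rw [Finite.mem_toFinset] at hx
      exact hx
    have hI := hp.inv x hx'
    rw [pullF_two, hI.self_apply_inverse, hI.self_apply_inverse, pb_two, hx']
  rw [Finset.sum_congr rfl h2, Finset.sum_const, hcard, nsmul_eq_mul, ← mul_assoc,
    inv_mul_cancel₀ hm', one_mul]

omit [IsManifold (𝓡 d) ∞ X] in
/-- the inverse of the derivative is pseudoholomorphic -/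
theorem inverse_J {f : X → Y} {JX : End d X} {JY : End d Y} {m : ℕ}
    (hc : Cover f JX JY m) {y₀ : Y} {p : E d} (hp : GoodPt (d := d) f y₀ m p) {x : X}
    (hx : f x = (chartAt (E d) y₀).symm p) (u : E d) :
    (Df f x).inverse (A y₀ p (inChart JY y₀ p u)) =
      eJ JX x ((Df f x).inverse (A y₀ p u)) := by
  have hI := hp.inv x hx
  rw [A_J y₀ JY hp.mem]
  set b := (Df f x).inverse (A y₀ p u) with hb
  have h1 : Df f x b = A y₀ p u := hI.self_apply_inverse _
  have h2 : Df f x (eJ JX x b) = eJ JY (f x) (Df f x b) := hc.hol x b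
  rw [h1, hx] at h2
  rw [← h2, hI.inverse_apply_self]

/-- the averaged push-forward is strongly taming -/
theorem stronglyTames_push [CompactSpace X] [T2Space Y] {f : X → Y} {JX : End d X}
    {JY : End d Y} {m : ℕ} (hm : 0 < m) (hc : Cover f JX JY m)
    (cX : ∀ x₀, ContinuousOn (inChart JX x₀) (chartAt (E d) x₀).target)
    {σ₀ : Form d Y 2} {w ξ : Form d X 2} (hws : IsSmooth w) (ht : ∀ p, TamesAt w JX p)
    (hw : ∀ (x : X) (a b : E d), e2 w x a b = e2 (pullF f σ₀) x a b + e2 ξ x a b) :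
    StronglyTames (σ₀ + (m : ℝ)⁻¹ • push f ξ) JY := by
  intro y₀ N hN hNt
  obtain ⟨C, hC0, hC⟩ := exists_distortion hws cX ht
  obtain ⟨c, hc0, hcl⟩ := exists_lower hc.smooth hws cX ht y₀ hN hNt
  have hm' : (0 : ℝ) < m := by exact_mod_cast hm
  refine ⟨c, hc0, C, ?_⟩
  filter_upwards [ae_mono (Measure.restrict_mono hNt le_rfl) (ae_good hc y₀),
    ae_restrict_mem hN.measurableSet] with p hp hpN
  set S := (hc.fin ((chartAt (E d) y₀).symm p)).toFinset with hS
  have hSmem : ∀ x ∈ S, f x = (chartAt (E d) y₀).symm p := fun x hx => by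
    rw [hS, Finite.mem_toFinset] at hx
    exact hx
  have hcard : S.card = m := by
    rw [hS, ← ncard_eq_toFinset_card _ (hc.fin ((chartAt (E d) y₀).symm p))]
    exact hp.card
  set q : X → E d → ℝ := fun x u => e2 w x ((Df f x).inverse (A y₀ p u))
    (eJ JX x ((Df f x).inverse (A y₀ p u))) with hq
  have hq0 : ∀ x u, 0 ≤ q x u := fun x u => e2_nonneg ht x _
  have hθ : ∀ u, pb (chartAt (E d) y₀).symm (σ₀ + (m : ℝ)⁻¹ • push f ξ) p
      ![u, inChart JY y₀ p u] = (m : ℝ)⁻¹ * ∑ x ∈ S, q x u := by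
    intro u
    rw [theta_eq hm hc hw hp]
    congr 1
    refine Finset.sum_congr rfl fun x hx => ?_
    rw [inverse_J hc hp (hSmem x hx)]
  refine ⟨fun u => ?_, fun u v => ?_⟩
  · rw [hθ]
    have h1 : ∀ x ∈ S, c * ‖u‖ ^ 2 ≤ q x u := by
      intro x hx
      have h2 := hcl p hpN x (hSmem x hx) ((Df f x).inverse (A y₀ p u))
      rw [(hp.inv x (hSmem x hx)).self_apply_inverse, BA y₀ hp.mem] at h2
      exact h2
    have h2 := Finset.sum_le_sum h1
    rw [Finset.sum_const, hcard, nsmul_eq_mul] at h2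
    calc c * ‖u‖ ^ 2 = (m : ℝ)⁻¹ * (m * (c * ‖u‖ ^ 2)) := by
          rw [← mul_assoc, inv_mul_cancel₀ hm'.ne', one_mul]
      _ ≤ (m : ℝ)⁻¹ * ∑ x ∈ S, q x u := by gcongr
  · rw [hθ, hθ, theta_eq hm hc hw hp]
    have h1 := Finset.sum_sq_le_sum_mul_sum_of_sq_le_mul S
      (r := fun x => e2 w x ((Df f x).inverse (A y₀ p u)) ((Df f x).inverse (A y₀ p v)))
      (f := fun x => C * q x u) (g := fun x => q x v)
      (fun x _ => mul_nonneg hC0 (hq0 x u)) (fun x _ => hq0 x v) (fun x _ => hC x _ _)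
    rw [← Finset.mul_sum] at h1
    calc ((m : ℝ)⁻¹ * ∑ x ∈ S,
          e2 w x ((Df f x).inverse (A y₀ p u)) ((Df f x).inverse (A y₀ p v))) ^ 2
        = ((m : ℝ)⁻¹) ^ 2 * (∑ x ∈ S,
          e2 w x ((Df f x).inverse (A y₀ p u)) ((Df f x).inverse (A y₀ p v))) ^ 2 := by ring
      _ ≤ ((m : ℝ)⁻¹) ^ 2 * (C * (∑ x ∈ S, q x u) * ∑ x ∈ S, q x v) := by gcongr
      _ = C * ((m : ℝ)⁻¹ * ∑ x ∈ S, q x u) * ((m : ℝ)⁻¹ * ∑ x ∈ S, q x v) := by ring

/-- the averaged push-forward has vanishing density -/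
theorem vanishing_push [CompactSpace X] [T2Space X] [T2Space Y] {f : X → Y} {JX : End d X}
    {JY : End d Y} {m : ℕ} (hm : 0 < m) (hc : Cover f JX JY m)
    (hX : ∀ (x : X) (v : TangentSpace (𝓡 d) x), JX x (JX x v) = -v)
    (hY : ∀ (x : Y) (v : TangentSpace (𝓡 d) x), JY x (JY x v) = -v)
    (cX : ∀ x₀, ContinuousOn (inChart JX x₀) (chartAt (E d) x₀).target)
    (cY : ∀ x₀, ContinuousOn (inChart JY x₀) (chartAt (E d) x₀).target)
    (hLip : ∀ (x₀ : Y) (N : Set (E d)), IsCompact N → N ⊆ (chartAt (E d) x₀).target →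
      ∃ L : ℝ, ∀ z ∈ N, ∀ z' ∈ N, ‖inChart JY x₀ z' - inChart JY x₀ z‖ ≤ L * ‖z' - z‖)
    {σ₀ : Form d Y 2} (hσ₀ : IsSmooth σ₀) {w ξ : Form d X 2} {β : Form d X 1}
    (hws : IsSmooth w) (hwc : IsClosedForm w) (ht : ∀ p, TamesAt w JX p)
    (hβ : IsSmooth β) (hξ : IsSmooth ξ) (hD : IsD β ξ)
    (hw : ∀ (x : X) (a b : E d), e2 w x a b = e2 (pullF f σ₀) x a b + e2 ξ x a b) :
    VanishingDensity (σ₀ + (m : ℝ)⁻¹ • push f ξ) JY := by
  have hm' : (0 : ℝ) < m := by exact_mod_cast hm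
  intro y₀ K hK hKt ε hε
  rcases Nat.eq_zero_or_pos d with hd | hd
  · subst hd
    refine ⟨1, one_pos, fun ρ _ _ z _ => ?_⟩
    have h0 : ∀ t : (E 0) [⋀^Fin 2]→L[ℝ] ℝ, t = 0 := by
      intro t
      ext v
      exact t.map_coord_zero 0 (Subsingleton.elim _ _)
    unfold Pool.Agent.H819.LG.mass
    have h1 : ∀ z', ‖pb (chartAt (E 0) y₀).symm (σ₀ + (m : ℝ)⁻¹ • push f ξ) z'‖ₑ = 0 := by
      intro z'
      rw [h0 (pb (chartAt (E 0) y₀).symm (σ₀ + (m : ℝ)⁻¹ • push f ξ) z')]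
      exact en0
    simp_rw [h1]
    simp
  have hstrong := stronglyTames_push hm hc cX hws ht hw
  have hweak := weakPrim_push hc hX hY cX cY hβ hξ hD
  have hθ : LocallyIntegrableOn (pb (chartAt (E d) y₀).symm (σ₀ + (m : ℝ)⁻¹ • push f ξ))
      (chartAt (E d) y₀).target := by
    have h1 : LocallyIntegrableOn (pb (chartAt (E d) y₀).symm σ₀) (chartAt (E d) y₀).target :=
      (smooth_chart hσ₀ y₀).continuousOn.locallyIntegrableOn
        (chartAt (E d) y₀).open_target.measurableSet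
    have h2 : LocallyIntegrableOn (fun z => (m : ℝ)⁻¹ • pb (chartAt (E d) y₀).symm (push f ξ) z)
      (chartAt (E d) y₀).target := loc_smul (m : ℝ)⁻¹ (hweak.int2 y₀)
    have h3 : LocallyIntegrableOn (fun z => pb (chartAt (E d) y₀).symm σ₀ z +
      (m : ℝ)⁻¹ • pb (chartAt (E d) y₀).symm (push f ξ) z) (chartAt (E d) y₀).target :=
      loc_add h1 h2
    exact h3
  refine density_chart hd (chartAt (E d) y₀).open_target hθ (cY y₀) (hLip y₀)
    (fun N hN hNt => hstrong y₀ N hN hNt) (fun q hq δ hδ => ?_) hK hKt hε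
  obtain ⟨l, ν, hl, hν, hlν, V, hV, hyV, hVw⟩ := prim_fibre hc.smooth.continuous hc.fin hws hwc
    cX ht ((chartAt (E d) y₀).symm q) hδ
  have hweak' := weakPrim_push hc hX hY cX cY hl hν hlν
  have hV'o : IsOpen ((chartAt (E d) y₀).target ∩ (chartAt (E d) y₀).symm ⁻¹' V) :=
    (chartAt (E d) y₀).symm.isOpen_inter_preimage hV
  refine ⟨(chartAt (E d) y₀).target ∩ (chartAt (E d) y₀).symm ⁻¹' V, hV'o, ⟨hq, hyV⟩,
    pb (chartAt (E d) y₀).symm ((m : ℝ)⁻¹ • push f l), ?_, ?_, ?_⟩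
  · exact loc_smul (m : ℝ)⁻¹ (hweak'.int1 y₀)
  · filter_upwards [ae_mono (Measure.restrict_mono inter_subset_left le_rfl) (ae_good hc y₀),
      ae_restrict_mem hV'o.measurableSet] with p hp hpV v
    set S := (hc.fin ((chartAt (E d) y₀).symm p)).toFinset with hS
    have hSmem : ∀ x ∈ S, f x = (chartAt (E d) y₀).symm p := fun x hx => by
      rw [hS, Finite.mem_toFinset] at hx
      exact hx
    have hcard : S.card = m := by
      rw [hS, ← ncard_eq_toFinset_card _ (hc.fin ((chartAt (E d) y₀).symm p))]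
      exact hp.card
    have h1 : pb (chartAt (E d) y₀).symm ((m : ℝ)⁻¹ • push f l) p ![v] =
        (m : ℝ)⁻¹ * ∑ x ∈ S, e1 l x ((Df f x).inverse (A y₀ p v)) := by
      have h2 : pb (chartAt (E d) y₀).symm ((m : ℝ)⁻¹ • push f l) p ![v] =
        (m : ℝ)⁻¹ * pb (chartAt (E d) y₀).symm (push f l) p ![v] := rfl
      rw [h2, push_one hc.fin]
    rw [h1, theta_eq hm hc hw hp]
    have h2 : ∀ x ∈ S, e1 l x ((Df f x).inverse (A y₀ p v)) ^ 2 ≤
        δ ^ 2 * e2 w x ((Df f x).inverse (A y₀ p v))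
          ((Df f x).inverse (A y₀ p (inChart JY y₀ p v))) := by
      intro x hx
      rw [inverse_J hc hp (hSmem x hx)]
      refine (hVw x ?_).2 _
      rw [hSmem x hx]
      exact hpV.2
    have h3 := sq_sum_le_card_mul_sum_sq (s := S)
      (f := fun x => e1 l x ((Df f x).inverse (A y₀ p v)))
    rw [hcard] at h3
    calc ((m : ℝ)⁻¹ * ∑ x ∈ S, e1 l x ((Df f x).inverse (A y₀ p v))) ^ 2
        = (m : ℝ)⁻¹ ^ 2 * (∑ x ∈ S, e1 l x ((Df f x).inverse (A y₀ p v))) ^ 2 := by ring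
      _ ≤ (m : ℝ)⁻¹ ^ 2 * (m * ∑ x ∈ S, e1 l x ((Df f x).inverse (A y₀ p v)) ^ 2) := by
          gcongr
      _ = (m : ℝ)⁻¹ * ∑ x ∈ S, e1 l x ((Df f x).inverse (A y₀ p v)) ^ 2 := by
          field_simp
      _ ≤ (m : ℝ)⁻¹ * ∑ x ∈ S, δ ^ 2 * e2 w x ((Df f x).inverse (A y₀ p v))
          ((Df f x).inverse (A y₀ p (inChart JY y₀ p v))) := by
          gcongr with x hx
          exact h2 x hx
      _ = δ ^ 2 * ((m : ℝ)⁻¹ * ∑ x ∈ S, e2 w x ((Df f x).inverse (A y₀ p v))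
          ((Df f x).inverse (A y₀ p (inChart JY y₀ p v)))) := by
          rw [← Finset.mul_sum]
          ring
  · intro φ hφ hφc hφt hφV u v
    have h1 := hweak'.weak y₀ φ hφ hφc hφt u v
    have h2 : ∀ z, pb (chartAt (E d) y₀).symm ((m : ℝ)⁻¹ • push f l) z ![v] * fderiv ℝ φ z u -
        pb (chartAt (E d) y₀).symm ((m : ℝ)⁻¹ • push f l) z ![u] * fderiv ℝ φ z v =
        (m : ℝ)⁻¹ * (pb (chartAt (E d) y₀).symm (push f l) z ![v] * fderiv ℝ φ z u -
        pb (chartAt (E d) y₀).symm (push f l) z ![u] * fderiv ℝ φ z v) := by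
      intro z
      have h3 : ∀ a : E d, pb (chartAt (E d) y₀).symm ((m : ℝ)⁻¹ • push f l) z ![a] =
        (m : ℝ)⁻¹ * pb (chartAt (E d) y₀).symm (push f l) z ![a] := fun a => rfl
      rw [h3, h3]
      ring
    simp_rw [h2]
    rw [integral_const_mul, h1, mul_neg, ← integral_const_mul]
    congr 1
    refine integral_congr_ae ?_
    have h3 := (ae_restrict_iff' (chartAt (E d) y₀).open_target.measurableSet).1 (ae_good hc y₀)
    filter_upwards [h3] with p hp
    by_cases hpφ : p ∈ tsupport φ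
    · have hpt := hφt hpφ
      have hpV := (hφV hpφ).2
      rw [theta_eq hm hc hw (hp hpt), push_two hc.fin, ← mul_assoc]
      congr 2
      refine Finset.sum_congr rfl fun x hx => ?_
      have hx' : f x = (chartAt (E d) y₀).symm p := by
        rw [Finite.mem_toFinset] at hx
        exact hx
      have h4 : (ν x : (E d) [⋀^Fin 2]→L[ℝ] ℝ) = (w x : (E d) [⋀^Fin 2]→L[ℝ] ℝ) :=
        (hVw x (by rw [hx']; exact hpV)).1
      unfold e2
      rw [h4]
    · rw [image_eq_zero_of_notMem_tsupport hpφ]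
      ring

/-- **Descending.** -/
theorem descend [CompactSpace X] [T2Space X] [CompactSpace Y] [T2Space Y] {f : X → Y}
    {JX : End d X} {JY : End d Y} {m : ℕ} (hm : 0 < m) (hc : Cover f JX JY m)
    (hX : ∀ (x : X) (v : TangentSpace (𝓡 d) x), JX x (JX x v) = -v)
    (hY : ∀ (x : Y) (v : TangentSpace (𝓡 d) x), JY x (JY x v) = -v)
    (cX : ∀ x₀, ContinuousOn (inChart JX x₀) (chartAt (E d) x₀).target)
    (cY : ∀ x₀, ContinuousOn (inChart JY x₀) (chartAt (E d) x₀).target)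
    (hLip : ∀ (x₀ : Y) (N : Set (E d)), IsCompact N → N ⊆ (chartAt (E d) x₀).target →
      ∃ L : ℝ, ∀ z ∈ N, ∀ z' ∈ N, ‖inChart JY x₀ z' - inChart JY x₀ z‖ ≤ L * ‖z' - z‖)
    {σ₀ : Form d Y 2} (hσ₀ : IsSmooth σ₀) (hcl₀ : IsClosedForm σ₀) {w : Form d X 2}
    {β : Form d X 1} (hws : IsSmooth w) (hwc : IsClosedForm w) (ht : ∀ p, TamesAt w JX p)
    (hβ : IsSmooth β) (hD : IsD β (w - pullF f σ₀)) (hsm : IsSmooth (w - pullF f σ₀)) :
    ∃ σ : Form d Y 2, InClass σ₀ σ ∧ ∀ p, TamesAt σ JY p := by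
  have hw : ∀ (x : X) (a b : E d), e2 w x a b = e2 (pullF f σ₀) x a b +
      e2 (w - pullF f σ₀) x a b := by
    intro x a b
    have h1 : e2 (w - pullF f σ₀) x a b = e2 w x a b - e2 (pullF f σ₀) x a b := rfl
    rw [h1]
    ring
  have h1 := weakPrim_push hc hX hY cX cY hβ hsm hD
  have h2 : WeakPrim ((m : ℝ)⁻¹ • push f β) ((m : ℝ)⁻¹ • push f (w - pullF f σ₀)) := by
    refine ⟨fun x₀ => loc_smul (m : ℝ)⁻¹ (h1.int1 x₀),
      fun x₀ => loc_smul (m : ℝ)⁻¹ (h1.int2 x₀), ?_⟩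
    intro x₀ φ hφ hφc hφt u v
    have h3 := h1.weak x₀ φ hφ hφc hφt u v
    have h4 : ∀ z, pb (chartAt (E d) x₀).symm ((m : ℝ)⁻¹ • push f β) z ![v] * fderiv ℝ φ z u -
        pb (chartAt (E d) x₀).symm ((m : ℝ)⁻¹ • push f β) z ![u] * fderiv ℝ φ z v =
        (m : ℝ)⁻¹ * (pb (chartAt (E d) x₀).symm (push f β) z ![v] * fderiv ℝ φ z u -
        pb (chartAt (E d) x₀).symm (push f β) z ![u] * fderiv ℝ φ z v) := by
      intro z
      have h5 : ∀ a : E d, pb (chartAt (E d) x₀).symm ((m : ℝ)⁻¹ • push f β) z ![a] =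
        (m : ℝ)⁻¹ * pb (chartAt (E d) x₀).symm (push f β) z ![a] := fun a => rfl
      rw [h5, h5]
      ring
    have h5 : ∀ z, pb (chartAt (E d) x₀).symm ((m : ℝ)⁻¹ • push f (w - pullF f σ₀)) z ![u, v] *
        φ z = (m : ℝ)⁻¹ * (pb (chartAt (E d) x₀).symm (push f (w - pullF f σ₀)) z ![u, v] *
        φ z) := by
      intro z
      have h6 : pb (chartAt (E d) x₀).symm ((m : ℝ)⁻¹ • push f (w - pullF f σ₀)) z ![u, v] =
        (m : ℝ)⁻¹ * pb (chartAt (E d) x₀).symm (push f (w - pullF f σ₀)) z ![u, v] := rfl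
      rw [h6]
      ring
    simp_rw [h4, h5]
    rw [integral_const_mul, h3, integral_const_mul, mul_neg]
  exact vanishing_density cY hσ₀ hcl₀ h2
    (stronglyTames_push hm hc cX hws ht hw)
    (vanishing_push hm hc hX hY cX cY hLip hσ₀ hws hwc ht hβ hsm hD hw)

end Pool.Agent.H819.BC
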