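import Mathlib
import Pool.Agent.H819.LG.Pub

/-!
# Pseudoholomorphic branched coverings: definitions
-/

set_option autoImplicit false

open Set Filter Topology MeasureTheory Metric
open scoped Manifold ContDiff ENNReal NNReal

noncomputable section

namespace Pool.Agent.H819.BCP

open Pool.Agent.Y501.SYP

variable {V : Type} [NormedAddCommGroup V] [NormedSpace ℝ V]
  {X : Type} [TopologicalSpace X] [ChartedSpace V X]
  {Y : Type} [TopologicalSpace Y] [ChartedSpace V Y]

/-- the derivative of `f` at `x` -/
def der (f : X → Y) (x : X) : TangentSpace 𝓘(ℝ, V) x →L[ℝ] TangentSpace 𝓘(ℝ, V) (f x) :=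
  mfderiv 𝓘(ℝ, V) 𝓘(ℝ, V) f x

/-- the pull-back of a form by a map -/
def pull (f : X → Y) {k : ℕ} (σ : Form V Y k) : Form V X k := fun x =>
  (σ (f x)).compContinuousLinearMap (der (V := V) f x)

/-- `P` holds almost everywhere in the charts, with respect to the measure `μ`. -/
def AE [MeasurableSpace V] (μ : Measure V) (P : X → Prop) : Prop :=
  ∀ x₀ : X, ∀ᵐ z ∂(μ.restrict (chartAt V x₀).target), P ((chartAt V x₀).symm z)

/-- `f` is a pseudoholomorphic branched covering with `m` sheets: it is smooth and
pseudoholomorphic, its fibres are finite, its derivative is bijective almost everywhere, and almost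
every fibre has `m` points. -/
structure IsBranchedCover [MeasurableSpace V] (μ : Measure V) (f : X → Y) (JX : End V X)
    (JY : End V Y) (m : ℕ) : Prop where
  smooth : ContMDiff 𝓘(ℝ, V) 𝓘(ℝ, V) ∞ f
  hol : ∀ (x : X) (v : TangentSpace 𝓘(ℝ, V) x), der (V := V) f x (JX x v) = JY (f x) (der f x v)
  fin : ∀ y : Y, (f ⁻¹' {y}).Finite
  inv : AE μ fun x => Function.Bijective (der (V := V) f x)
  count : AE μ fun y => (f ⁻¹' {y}).ncard = m

end Pool.Agent.H819.BCP
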