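import Mathlib
import Pool.Agent.H819.BC.Pub
import Pool.Agent.H819.BC.Desc
import Pool.Agent.H819.LG.Br
import Pool.Graph.R_seed8.Y501.SY.Bridge

/-!
# Comparison with the working definitions, and ascending
-/

set_option autoImplicit false

open Set Filter Topology MeasureTheory Metric
open scoped Manifold ContDiff ENNReal NNReal

noncomputable section

namespace Pool.Agent.H819.BCP

open Pool.Agent.Y501.SYP
open Pool.Agent.H819.LGP (TamedIn subF ContEnd LocHolder leb)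

section

variable {d : ℕ} {X : Type} [TopologicalSpace X] [ChartedSpace (ES d) X]
  {Y : Type} [TopologicalSpace Y] [ChartedSpace (ES d) Y]

attribute [local instance] Pool.Agent.H819.LGP.cs

theorem pull_eq (f : X → Y) {k : ℕ} (σ : Form (ES d) Y k) :
    pull f σ = BC.pullF (d := d) (X := X) (Y := Y) f σ := rfl

theorem isInvertible_of_bijective {T : Y501.SY.E d →L[ℝ] Y501.SY.E d}
    (h : Function.Bijective T) : T.IsInvertible :=
  ⟨(LinearEquiv.ofBijective (T : Y501.SY.E d →ₗ[ℝ] Y501.SY.E d) h).toContinuousLinearEquiv, by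
    ext v
    rfl⟩

theorem cover_of {f : X → Y} {JX : End (ES d) X} {JY : End (ES d) Y} {m : ℕ}
    (h : IsBranchedCover (leb d) f JX JY m) :
    BC.Cover (d := d) (X := X) (Y := Y) f JX JY m := by
  refine ⟨h.smooth, fun x v => h.hol x v, h.fin, fun x₀ => ?_, fun y₀ => h.count y₀⟩
  filter_upwards [h.inv x₀] with z hz
  exact isInvertible_of_bijective hz

theorem pb_pull (f : X → Y) (hf : ContMDiff 𝓘(ℝ, ES d) 𝓘(ℝ, ES d) ∞ f) {k : ℕ}
    (σ : Form (ES d) Y k) {U : Set (ES d)} {φ : ES d → X} (hφ : SmoothParam U φ) {p : ES d}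
    (hp : p ∈ U) : pb φ (pull f σ) p = pb (f ∘ φ) σ p := by
  have h1 : MDifferentiableAt 𝓘(ℝ, ES d) 𝓘(ℝ, ES d) φ p :=
    (hφ.2.contMDiffAt (hφ.1.mem_nhds hp)).mdifferentiableAt (by simp)
  have h2 : MDifferentiableAt 𝓘(ℝ, ES d) 𝓘(ℝ, ES d) f (φ p) :=
    (hf _).mdifferentiableAt (by simp)
  unfold pb
  rw [mfderiv_comp p h2 h1]
  rfl

theorem param_comp {f : X → Y} (hf : ContMDiff 𝓘(ℝ, ES d) 𝓘(ℝ, ES d) ∞ f) {U : Set (ES d)}
    {φ : ES d → X} (hφ : SmoothParam U φ) : SmoothParam U (f ∘ φ) :=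
  ⟨hφ.1, hf.comp_contMDiffOn hφ.2⟩

theorem smooth_pull {f : X → Y} (hf : ContMDiff 𝓘(ℝ, ES d) 𝓘(ℝ, ES d) ∞ f) {k : ℕ}
    {σ : Form (ES d) Y k} (hσ : IsSmooth σ) : IsSmooth (pull f σ) := by
  intro U φ hφ
  exact (hσ U _ (param_comp hf hφ)).congr fun p hp => pb_pull f hf σ hφ hp

theorem isD_pull {f : X → Y} (hf : ContMDiff 𝓘(ℝ, ES d) 𝓘(ℝ, ES d) ∞ f) {k : ℕ}
    {α : Form (ES d) Y k} {η : Form (ES d) Y (k + 1)} (h : IsD α η) :
    IsD (pull f α) (pull f η) := by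
  intro U φ hφ p hp
  have h1 : pb φ (pull f α) =ᶠ[𝓝 p] pb (f ∘ φ) α := by
    filter_upwards [hφ.1.mem_nhds hp] with q hq
    exact pb_pull f hf α hφ hq
  rw [h1.extDeriv_eq, pb_pull f hf η hφ hp]
  exact h U _ (param_comp hf hφ) p hp

theorem closed_pull {f : X → Y} (hf : ContMDiff 𝓘(ℝ, ES d) 𝓘(ℝ, ES d) ∞ f) {k : ℕ}
    {σ : Form (ES d) Y k} (h : IsClosedForm σ) : IsClosedForm (pull f σ) := by
  intro U φ hφ p hp
  have h1 : pb φ (pull f σ) =ᶠ[𝓝 p] pb (f ∘ φ) σ := by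
    filter_upwards [hφ.1.mem_nhds hp] with q hq
    exact pb_pull f hf σ hφ hq
  rw [h1.extDeriv_eq]
  exact h U _ (param_comp hf hφ) p hp

theorem smooth_sub {k : ℕ} {σ τ : Form (ES d) X k} (hσ : IsSmooth σ) (hτ : IsSmooth τ) :
    IsSmooth (fun x => σ x - τ x : Form (ES d) X k) := by
  intro U φ hφ
  exact (hσ U φ hφ).sub (hτ U φ hφ)

/-- **Descending.** -/
theorem desc [IsManifold 𝓘(ℝ, ES d) ∞ X] [CompactSpace X] [T2Space X]
    [IsManifold 𝓘(ℝ, ES d) ∞ Y] [CompactSpace Y] [T2Space Y]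
    {JX : End (ES d) X} {JY : End (ES d) Y} (hX : IsAlmostComplex JX) (hY : IsAlmostComplex JY)
    (hL : LocHolder JY 1) {f : X → Y} {m : ℕ} (hm : 0 < m)
    (hf : IsBranchedCover (leb d) f JX JY m) {σ₀ : Form (ES d) Y 2} (h1 : IsSmooth σ₀)
    (h2 : IsClosedForm σ₀) (h : TamedIn (pull f σ₀) JX) : TamedIn σ₀ JY := by
  have hmX : IsManifold (𝓡 d) ∞ X := (inferInstance : IsManifold 𝓘(ℝ, ES d) ∞ X)
  have hmY : IsManifold (𝓡 d) ∞ Y := (inferInstance : IsManifold 𝓘(ℝ, ES d) ∞ Y)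
  obtain ⟨w, hw, β, hβ, hD⟩ := h
  have hsm : IsSmooth (subF w (pull f σ₀)) := smooth_sub hw.smooth (smooth_pull hf.smooth h1)
  have aX := ac_of JX hX
  have aY := ac_of JY hY
  rw [LGP.tamed_iff]
  refine LG.tamedIn_of ?_
  exact BC.descend (d := d) (X := X) (Y := Y) hm (cover_of hf) hX.sq hY.sq aX.cont aY.cont
    (fun x₀ N hN hNt => by
      obtain ⟨L, hL'⟩ := hL x₀ N ⟨hN, hNt⟩
      refine ⟨L, fun z hz z' hz' => ?_⟩
      have h3 := hL' z hz z' hz'
      rw [Real.rpow_one] at h3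
      exact h3)
    ((LGP.smooth_iff σ₀).1 h1) ((LGP.closed_iff σ₀).1 h2) ((LGP.smooth_iff w).1 hw.smooth)
    ((LGP.closed_iff w).1 hw.closed) hw.tames ((LGP.smooth_iff β).1 hβ) ((LGP.isD_iff β _).1 hD)
    ((LGP.smooth_iff _).1 hsm)

theorem hausdorff_point (z : ES d) : μH[2] ({z} : Set (ES d)) = 0 := by
  have := Measure.nullSingletonClass_hausdorff (ES d) (d := 2) two_pos
  exact measure_singleton z

/-- the connected components of a finite set are points -/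
theorem finite_component {T : Set X} [T2Space X] (hT : T.Finite) {z : X} (hz : z ∈ T) :
    connectedComponentIn T z ⊆ {z} := by
  have h1 : (connectedComponentIn T z).Finite := hT.subset (connectedComponentIn_subset T z)
  have h2 : IsPreconnected (connectedComponentIn T z) := isPreconnected_connectedComponentIn
  have h3 : (connectedComponentIn T z).Subsingleton := by
    by_contra h4
    rw [Set.not_subsingleton_iff] at h4
    exact h2.infinite_of_nontrivial h4 h1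
  intro x hx
  exact h3 hx (mem_connectedComponentIn hz)

theorem qd_pull {JX : End (ES d) X} {JY : End (ES d) Y} {f : X → Y} {m : ℕ}
    (hf : IsBranchedCover (leb d) f JX JY m) (σ : Form (ES d) Y 2) (x : X)
    (v : TangentSpace 𝓘(ℝ, ES d) x) : qd (pull f σ) JX x v = qd σ JY (f x) (der f x v) := by
  have h1 : qd (pull f σ) JX x v = (σ (f x)) (fun i => der f x ((![v, JX x v] :
    Fin 2 → TangentSpace 𝓘(ℝ, ES d) x) i)) := rfl
  rw [h1]
  unfold qd
  rw [← hf.hol x v]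
  congr 1
  funext i
  fin_cases i <;> rfl

/-- **Ascending.** -/
theorem asc [IsManifold 𝓘(ℝ, ES d) ∞ X] [CompactSpace X] [T2Space X]
    [IsManifold 𝓘(ℝ, ES d) ∞ Y] [CompactSpace Y] [T2Space Y]
    {JX : End (ES d) X} {JY : End (ES d) Y} (hX : IsAlmostComplex JX) {f : X → Y} {m : ℕ}
    (hf : IsBranchedCover (leb d) f JX JY m) {σ₀ : Form (ES d) Y 2}
    (h : TamedIn σ₀ JY) : TamedIn (pull f σ₀) JX := by
  have hmX : IsManifold (𝓡 d) ∞ X := (inferInstance : IsManifold 𝓘(ℝ, ES d) ∞ X)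
  obtain ⟨σ, hσ, β, hβ, hD⟩ := h
  have hpos : ∀ (y : Y) (v : TangentSpace 𝓘(ℝ, ES d) y), 0 ≤ qd σ JY y v := by
    intro y v
    by_cases hv : v = 0
    · refine le_of_eq ?_
      unfold qd
      rw [hv]
      exact ((σ y).map_coord_zero 0 rfl).symm
    · exact (hσ.tames y v hv).le
  have hz1 : IsSmooth (0 : Form (ES d) X 1) :=
    (LGP.smooth_iff _).2 (Y501.SY.IsSmooth.zero (d := d) (X := X))
  have hz2 : IsSmooth (0 : Form (ES d) X 2) :=
    (LGP.smooth_iff _).2 (Y501.SY.IsSmooth.zero (d := d) (X := X))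
  have hzD : IsD (0 : Form (ES d) X 1) (0 : Form (ES d) X 2) :=
    (LGP.isD_iff _ _).2 (Y501.SY.IsD.zero (d := d) (X := X))
  have hzc : IsClosedForm (0 : Form (ES d) X 2) := by
    intro U φ hφ p hp
    exact (Y501.SY.IsD.zero (d := d) (X := X) (k := 2)) U φ hφ.1 hφ.2 p hp
  obtain ⟨α, ρ, a1, a2, a3, t, ht, a4⟩ := twoLevel (d := d) (m := d) JX hX f hf.smooth
    (pull f σ) 0 (smooth_pull hf.smooth hσ.smooth) (closed_pull hf.smooth hσ.closed) hz2 hzc
    (fun x v => by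
      rw [qd_pull hf]
      exact hpos _ _)
    (fun x v hv => by
      rw [qd_pull hf] at hv
      by_contra h1
      exact (hσ.tames (f x) _ h1).ne' hv)
    (fun y => by
      refine ⟨0, 0, hz1, hz2, hzD, fun x _ v _ => le_of_eq ?_, fun z hz => Or.inl ?_⟩
      · show 0 = ((0 : (TangentSpace 𝓘(ℝ, ES d) x) [⋀^Fin 2]→L[ℝ] ℝ) +
          (0 : (TangentSpace 𝓘(ℝ, ES d) x) [⋀^Fin 2]→L[ℝ] ℝ)) ![v, JX x v]
        rw [add_zero]
        rfl
      · refine ⟨univ, univ_mem, ?_⟩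
        refine measure_mono_null ?_ (hausdorff_point (chartAt (ES d) z z))
        rintro _ ⟨x, ⟨⟨hx, -⟩, -⟩, rfl⟩
        have h1 := finite_component ((hf.fin y).subset fun x hx => hx.1) hz hx
        rw [mem_singleton_iff] at h1
        rw [h1]
        rfl)
  have h1 := a4 t ht le_rfl
  refine ⟨_, h1, fun x => pull f β x + t • α x, ?_, ?_⟩
  · have b1 := (LGP.smooth_iff _).1 (smooth_pull hf.smooth hβ)
    have b2 := ((LGP.smooth_iff α).1 a1).smul t
    exact (LGP.smooth_iff _).2 (b1.add b2)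
  · have b1 := (LGP.isD_iff _ _).1 (isD_pull hf.smooth hD)
    have b2 := ((LGP.isD_iff α ρ).1 a3).smul t
    have b3 := b1.add b2 ((LGP.smooth_iff _).1 (smooth_pull hf.smooth hβ))
      (((LGP.smooth_iff α).1 a1).smul t)
    refine (LGP.isD_iff _ _).2 ?_
    have h2 : (subF (comb (pull f σ) t (addF 0 ρ)) (pull f σ₀) : Form (ES d) X 2) =
        fun x => pull f (subF σ σ₀) x + t • ρ x := by
      funext x
      show pull f σ x + t • ((0 : (TangentSpace 𝓘(ℝ, ES d) x) [⋀^Fin 2]→L[ℝ] ℝ) + ρ x) -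
        pull f σ₀ x = _
      have h3 : pull f (subF σ σ₀) x = pull f σ x - pull f σ₀ x := rfl
      rw [h3, zero_add]
      abel
    rw [h2]
    exact b3

end

end Pool.Agent.H819.BCP
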